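import Pool.Agent.TH987.C11

/-!
Bond percolation in a box of the square lattice as a finite graph.
-/

namespace Pool.Agent.TH987

open H973N H974 H12S Finset Filter Topology

/-- The `n × n` box of the square lattice: two vertices are adjacent when they differ by `1` in
exactly one coordinate. -/
def box (n : ℕ) : SimpleGraph (Fin n × Fin n) where
  Adj u v := (u.1 = v.1 ∧ (u.2.val + 1 = v.2.val ∨ v.2.val + 1 = u.2.val)) ∨
    (u.2 = v.2 ∧ (u.1.val + 1 = v.1.val ∨ v.1.val + 1 = u.1.val))
  symm := ⟨by
    rintro u v (⟨h1, h2⟩ | ⟨h1, h2⟩)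
    · exact Or.inl ⟨h1.symm, h2.symm⟩
    · exact Or.inr ⟨h1.symm, h2.symm⟩⟩
  loopless := ⟨by
    rintro u (⟨_, h2⟩ | ⟨_, h2⟩) <;> omega⟩

open Classical in
/-- The expected number of clusters of bond percolation with parameter `p` on the `n × n` box:
`F` is the set of open edges. -/
noncomputable def meanClusters (n : ℕ) (p : ℝ) : ℝ :=
  ∑ F ∈ (box n).edgeFinset.powerset, p ^ F.card * (1 - p) ^ ((box n).edgeFinset \ F).card *
    (Nat.card (SimpleGraph.fromEdgeSet (F : Set (Sym2 (Fin n × Fin n)))).ConnectedComponent : ℝ)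

/-- The embedding of the box into the lattice. -/
def io {n : ℕ} (u : Fin n × Fin n) : Vtx := ((u.1.val : ℤ), (u.2.val : ℤ))

theorem io_inj {n : ℕ} : Function.Injective (io (n := n)) := by
  rintro ⟨a, b⟩ ⟨c, d⟩ h
  simp only [io, Prod.mk.injEq, Nat.cast_inj] at h
  exact Prod.ext (Fin.ext h.1) (Fin.ext h.2)

/-- On pairs. -/
def io2 (n : ℕ) : Sym2 (Fin n × Fin n) ↪ Sym2 Vtx := ⟨Sym2.map io, Sym2.map.injective io_inj⟩

theorem ph_inj : Function.Injective (fun e : Edg => s(src e, tgt e)) := by
  rintro ⟨x, y, _ | _⟩ ⟨x', y', _ | _⟩ h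
  · simp only [src_mk, tgt_false, Sym2.eq_iff, Prod.mk.injEq] at h
    simp only [Prod.mk.injEq, and_true]
    omega
  · simp only [src_mk, tgt_false, tgt_true, Sym2.eq_iff, Prod.mk.injEq] at h
    omega
  · simp only [src_mk, tgt_false, tgt_true, Sym2.eq_iff, Prod.mk.injEq] at h
    omega
  · simp only [src_mk, tgt_true, Sym2.eq_iff, Prod.mk.injEq] at h
    simp only [Prod.mk.injEq, and_true]
    omega

/-- The edges as pairs of vertices. -/
def ph : Edg ↪ Sym2 Vtx := ⟨fun e => s(src e, tgt e), ph_inj⟩

theorem ph_apply (e : Edg) : ph e = s(src e, tgt e) := rfl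

theorem io2_apply {n : ℕ} (u v : Fin n × Fin n) : io2 n s(u, v) = s(io u, io v) := rfl

theorem mem_sV {n : ℕ} {v : Vtx} : v ∈ sV n ↔ ∃ u : Fin n × Fin n, io u = v := by
  rw [sV, Finset.mem_product, Finset.mem_Icc, Finset.mem_Icc]
  constructor
  · rintro ⟨⟨h1, h2⟩, h3, h4⟩
    refine ⟨(⟨v.1.toNat, by omega⟩, ⟨v.2.toNat, by omega⟩), ?_⟩
    unfold io
    simp only
    exact Prod.ext (by simp only; omega) (by simp only; omega)
  · rintro ⟨⟨a, b⟩, rfl⟩
    unfold io
    simp only
    have := a.2
    have := b.2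
    omega

open Classical in
theorem edges_eq (n : ℕ) : (box n).edgeFinset.map (io2 n) = (sE n).map ph := by
  ext z
  rw [Finset.mem_map, Finset.mem_map]
  constructor
  · rintro ⟨e, he, rfl⟩
    induction e using Sym2.ind with
    | _ u v =>
      rw [SimpleGraph.mem_edgeFinset, SimpleGraph.mem_edgeSet] at he
      obtain ⟨a, b⟩ := u
      obtain ⟨c, d⟩ := v
      have ha := a.2
      have hb := b.2
      have hc := c.2
      have hd := d.2
      rcases he with ⟨h1, h2 | h2⟩ | ⟨h1, h2 | h2⟩
      · simp only at h1 h2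
        subst h1
        refine ⟨((a.val : ℤ), (b.val : ℤ), false), ?_, ?_⟩
        · rw [sE, mem_RE_false]; omega
        · rw [ph_apply, io2_apply, src_mk, tgt_false]
          unfold io
          simp only
          rw [← h2]
          push_cast
          rfl
      · simp only at h1 h2
        subst h1
        refine ⟨((a.val : ℤ), (d.val : ℤ), false), ?_, ?_⟩
        · rw [sE, mem_RE_false]; omega
        · rw [ph_apply, io2_apply, src_mk, tgt_false, Sym2.eq_swap]
          unfold io
          simp only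
          rw [← h2]
          push_cast
          rfl
      · simp only at h1 h2
        subst h1
        refine ⟨((a.val : ℤ), (b.val : ℤ), true), ?_, ?_⟩
        · rw [sE, mem_RE_true]; omega
        · rw [ph_apply, io2_apply, src_mk, tgt_true]
          unfold io
          simp only
          rw [← h2]
          push_cast
          rfl
      · simp only at h1 h2
        subst h1
        refine ⟨((c.val : ℤ), (b.val : ℤ), true), ?_, ?_⟩
        · rw [sE, mem_RE_true]; omega
        · rw [ph_apply, io2_apply, src_mk, tgt_true, Sym2.eq_swap]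
          unfold io
          simp only
          rw [← h2]
          push_cast
          rfl
  · rintro ⟨⟨x, y, _ | _⟩, he, rfl⟩
    · rw [sE, mem_RE_false] at he
      refine ⟨s((⟨x.toNat, by omega⟩, ⟨y.toNat, by omega⟩),
        (⟨x.toNat, by omega⟩, ⟨(y+1).toNat, by omega⟩)), ?_, ?_⟩
      · rw [SimpleGraph.mem_edgeFinset, SimpleGraph.mem_edgeSet]
        left
        refine ⟨rfl, Or.inl ?_⟩
        simp only
        omega
      · rw [ph_apply, io2_apply, src_mk, tgt_false]
        unfold io
        simp only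
        rw [Int.toNat_of_nonneg (by omega), Int.toNat_of_nonneg (by omega),
          Int.toNat_of_nonneg (by omega)]
    · rw [sE, mem_RE_true] at he
      refine ⟨s((⟨x.toNat, by omega⟩, ⟨y.toNat, by omega⟩),
        (⟨(x+1).toNat, by omega⟩, ⟨y.toNat, by omega⟩)), ?_, ?_⟩
      · rw [SimpleGraph.mem_edgeFinset, SimpleGraph.mem_edgeSet]
        right
        refine ⟨rfl, Or.inl ?_⟩
        simp only
        omega
      · rw [ph_apply, io2_apply, src_mk, tgt_true]
        unfold io
        simp only
        rw [Int.toNat_of_nonneg (by omega), Int.toNat_of_nonneg (by omega),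
          Int.toNat_of_nonneg (by omega)]

open Classical in
/-- The number of clusters which meet the box, for a set of pairs. -/
noncomputable def nH (n : ℕ) (H : Finset (Sym2 Vtx)) : ℝ :=
  (((sV n).image (fun v => (sV n).filter
    (fun w => (SimpleGraph.fromEdgeSet (H : Set (Sym2 Vtx))).Reachable v w))).card : ℝ)

theorem reach_ph (G : Finset Edg) (v w : Vtx) :
    (SimpleGraph.fromEdgeSet ((G.map ph : Finset (Sym2 Vtx)) : Set (Sym2 Vtx))).Reachable v w ↔
      Reach (↑G : Set Edg) v w := by
  rw [SimpleGraph.reachable_iff_reflTransGen]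
  unfold Reach
  have h : (SimpleGraph.fromEdgeSet ((G.map ph : Finset (Sym2 Vtx)) : Set (Sym2 Vtx))).Adj =
      Adj (↑G : Set Edg) := by
    ext a b
    rw [SimpleGraph.fromEdgeSet_adj, Finset.mem_coe, Finset.mem_map]
    constructor
    · rintro ⟨⟨e, he, h1⟩, _⟩
      rw [ph_apply, Sym2.eq_iff] at h1
      exact ⟨e, he, h1⟩
    · rintro ⟨e, he, h1⟩
      refine ⟨⟨e, he, by rw [ph_apply, Sym2.eq_iff]; exact h1⟩, ?_⟩
      rintro rfl
      obtain ⟨x, y, _ | _⟩ := e
      · rw [src_mk, tgt_false] at h1
        rcases h1 with ⟨h1, h2⟩ | ⟨h1, h2⟩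
        · rw [← h1, Prod.mk.injEq] at h2
          omega
        · rw [← h1, Prod.mk.injEq] at h2
          omega
      · rw [src_mk, tgt_true] at h1
        rcases h1 with ⟨h1, h2⟩ | ⟨h1, h2⟩
        · rw [← h1, Prod.mk.injEq] at h2
          omega
        · rw [← h1, Prod.mk.injEq] at h2
          omega
  rw [h]

theorem nH_ph (n : ℕ) (G : Finset Edg) : nH n (G.map ph) = kk (sV n) G := by
  classical
  unfold nH kk nc
  congr 2
  have h : (fun v => (sV n).filter (fun w => (SimpleGraph.fromEdgeSet
      ((G.map ph : Finset (Sym2 Vtx)) : Set (Sym2 Vtx))).Reachable v w)) =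
      cls (sV n) (↑G : Set Edg) := by
    funext v
    ext w
    rw [Finset.mem_filter, mem_cls, reach_ph]
  rw [h]

theorem reach_io {n : ℕ} (F : Finset (Sym2 (Fin n × Fin n))) (u : Fin n × Fin n) (w : Vtx) :
    (SimpleGraph.fromEdgeSet ((F.map (io2 n) : Finset (Sym2 Vtx)) : Set (Sym2 Vtx))).Reachable
      (io u) w ↔ ∃ v, io v = w ∧ (SimpleGraph.fromEdgeSet
        (F : Set (Sym2 (Fin n × Fin n)))).Reachable u v := by
  constructor
  · intro h
    rw [SimpleGraph.reachable_iff_reflTransGen] at h
    induction h with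
    | refl => exact ⟨u, rfl, SimpleGraph.Reachable.refl _⟩
    | @tail b c _ hs ih =>
      obtain ⟨v, hv, hr⟩ := ih
      rw [SimpleGraph.fromEdgeSet_adj, Finset.mem_coe, Finset.mem_map] at hs
      obtain ⟨⟨e, he, h1⟩, hne⟩ := hs
      induction e using Sym2.ind with
      | _ s t =>
        rw [io2_apply, Sym2.eq_iff] at h1
        rcases h1 with ⟨h1, h2⟩ | ⟨h1, h2⟩
        · refine ⟨t, h2, hr.trans ?_⟩
          have h3 : s = v := io_inj (h1.trans hv.symm)
          subst h3
          apply SimpleGraph.Adj.reachable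
          rw [SimpleGraph.fromEdgeSet_adj]
          refine ⟨he, ?_⟩
          rintro rfl
          exact hne (h1.symm.trans h2)
        · refine ⟨s, h1, hr.trans ?_⟩
          have h3 : t = v := io_inj (h2.trans hv.symm)
          subst h3
          apply SimpleGraph.Adj.reachable
          rw [SimpleGraph.fromEdgeSet_adj, Sym2.eq_swap]
          refine ⟨he, ?_⟩
          rintro rfl
          exact hne (h2.symm.trans h1)
  · rintro ⟨v, rfl, hr⟩
    rw [SimpleGraph.reachable_iff_reflTransGen] at hr ⊢
    induction hr with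
    | refl => exact Relation.ReflTransGen.refl
    | @tail b c _ hs ih =>
      refine ih.tail ?_
      rw [SimpleGraph.fromEdgeSet_adj] at hs ⊢
      refine ⟨?_, fun h => hs.2 (io_inj h)⟩
      rw [← io2_apply, Finset.mem_coe, Finset.mem_map']
      exact hs.1

theorem nH_io (n : ℕ) (F : Finset (Sym2 (Fin n × Fin n))) : nH n (F.map (io2 n)) =
    (Nat.card (SimpleGraph.fromEdgeSet (F : Set (Sym2 (Fin n × Fin n)))).ConnectedComponent :
      ℝ) := by
  classical
  obtain ⟨f, hf⟩ : ∃ f : Vtx → Finset Vtx, f = fun v => (sV n).filter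
      (fun w => (SimpleGraph.fromEdgeSet
        ((F.map (io2 n) : Finset (Sym2 Vtx)) : Set (Sym2 Vtx))).Reachable v w) := ⟨_, rfl⟩
  have hfio : ∀ u v, f (io u) = f (io v) ↔ (SimpleGraph.fromEdgeSet
      (F : Set (Sym2 (Fin n × Fin n)))).Reachable u v := by
    intro u v
    constructor
    · intro h
      have h1 : io v ∈ f (io v) := by
        rw [hf, Finset.mem_filter]
        exact ⟨mem_sV.2 ⟨v, rfl⟩, SimpleGraph.Reachable.refl _⟩
      rw [← h, hf, Finset.mem_filter, reach_io] at h1
      obtain ⟨_, v', h2, h3⟩ := h1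
      rwa [io_inj h2] at h3
    · intro h
      have h1 : (SimpleGraph.fromEdgeSet ((F.map (io2 n) : Finset (Sym2 Vtx)) :
          Set (Sym2 Vtx))).Reachable (io u) (io v) := (reach_io F u (io v)).2 ⟨v, rfl, h⟩
      rw [hf]
      ext w
      rw [Finset.mem_filter, Finset.mem_filter]
      exact ⟨fun h2 => ⟨h2.1, h1.symm.trans h2.2⟩, fun h2 => ⟨h2.1, h1.trans h2.2⟩⟩
  let g : (SimpleGraph.fromEdgeSet (F : Set (Sym2 (Fin n × Fin n)))).ConnectedComponent →
      Finset Vtx := Quot.lift (fun u => f (io u)) (fun u v h => (hfio u v).2 h)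
  have hg : Function.Injective g := by
    intro a b hab
    induction a using Quot.ind with
    | _ u =>
      induction b using Quot.ind with
      | _ v => exact Quot.sound ((hfio u v).1 hab)
  have himg : (sV n).image f = Finset.univ.image (fun u : Fin n × Fin n => f (io u)) := by
    ext X
    rw [Finset.mem_image, Finset.mem_image]
    constructor
    · rintro ⟨v, hv, rfl⟩
      obtain ⟨u, rfl⟩ := mem_sV.1 hv
      exact ⟨u, Finset.mem_univ _, rfl⟩
    · rintro ⟨u, _, rfl⟩
      exact ⟨io u, mem_sV.2 ⟨u, rfl⟩, rfl⟩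
  have hrange : Set.range g = ↑((sV n).image f) := by
    rw [himg]
    ext X
    rw [Set.mem_range, Finset.mem_coe, Finset.mem_image]
    constructor
    · rintro ⟨c, rfl⟩
      induction c using Quot.ind with
      | _ u => exact ⟨u, Finset.mem_univ _, rfl⟩
    · rintro ⟨u, _, rfl⟩
      exact ⟨Quot.mk _ u, rfl⟩
  unfold nH
  rw [← hf]
  congr 1
  rw [← Nat.card_range_of_injective hg, hrange]
  simp

open Classical in
/-- The expected number of clusters through the coordinates of the library. -/
theorem meanClusters_eq (n : ℕ) (p : ℝ) : meanClusters n p = UU n p := by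
  have h1 : meanClusters n p = Ex (fun _ => p) (box n).edgeFinset
      (fun F => nH n (F.map (io2 n))) := by
    unfold meanClusters Ex
    apply Finset.sum_congr rfl
    intro F _
    simp only
    rw [Finset.prod_const, Finset.prod_const, nH_io]
  have h2 := Ex_map (fun _ : Sym2 Vtx => p) (io2 n) (box n).edgeFinset (nH n)
  have h3 := Ex_map (fun _ : Sym2 Vtx => p) ph (sE n) (nH n)
  rw [h1, ← h2, edges_eq, h3]
  unfold UU
  apply Ex_congr
  intro G _
  exact nH_ph n G

end Pool.Agent.TH987
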