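import Pool.Agent.TH987.MP325_Base

/-!
Job 1179: conflicts of type B in a block which is not tiny (project MP_325b7c_co).
-/

set_option autoImplicit false

namespace Pool.Agent.TH987.MP325

open Pool.Agent.TH490 Finset Classical

noncomputable section

variable {n : ℕ} {X ι : Type} [Fintype X] [Fintype ι]

theorem prod_gf_le {D : Nib n X ι} {R : ℕ} {s : NSt n X ι} (hR : 1 ≤ Real.log R)
    {V : Finset X} (hN0 : ∀ v ∈ V, 0 ≤ hN D s v) (x : X) :
    0 ≤ ∏ v ∈ V, gf D R s x v ∧
    ∏ v ∈ V, gf D R s x v ≤ Real.exp ((1 - 1 / Real.log R) * ∑ v ∈ V, hN D s v) ∧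
    ((∃ v ∈ V, blk D s x v) → ∏ v ∈ V, gf D R s x v = 0) ∧
    ((∀ v ∈ V, ¬ blk D s x v) → 1 ≤ ∏ v ∈ V, gf D R s x v) := by
  have h1 : 0 ≤ 1 - 1 / Real.log R := by
    rw [sub_nonneg, div_le_one (by linarith)]
    exact hR
  refine ⟨?_, ?_, ?_, ?_⟩
  · apply Finset.prod_nonneg
    intro v hv
    unfold gf
    split_ifs
    · norm_num
    · have := mul_nonneg h1 (hN0 v hv)
      linarith
  · rw [Finset.mul_sum, Real.exp_sum]
    apply Finset.prod_le_prod
    · intro v hv
      unfold gf
      split_ifs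
      · norm_num
      · have := mul_nonneg h1 (hN0 v hv)
        linarith
    · intro v hv
      unfold gf
      split_ifs
      · exact (Real.exp_pos _).le
      · have := Real.add_one_le_exp ((1 - 1 / Real.log R) * hN D s v)
        linarith
  · rintro ⟨v, hv, hb⟩
    apply Finset.prod_eq_zero hv
    unfold gf
    rw [if_pos hb]
  · intro h
    have : ∏ v ∈ V, (1:ℝ) ≤ ∏ v ∈ V, gf D R s x v := by
      apply Finset.prod_le_prod
      · intro v _
        norm_num
      · intro v hv
        unfold gf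
        rw [if_neg (h v hv)]
        have := mul_nonneg h1 (hN0 v hv)
        linarith
    simpa using this

theorem Htot_eq (D : Nib n X ι) (s : NSt n X ι) (e : Finset X) (u : X) :
    Htot D s e u = ∑ v ∈ VV D s e u, hb D s v := rfl

/-- exchange of sums for the number of blocked elements -/
theorem sum_nb (D : Nib n X ι) (s : NSt n X ι) (U : Finset X) :
    ∑ x ∈ lst D s.t, pr D s x * nb D s x U = ∑ v ∈ U, hb D s v := by
  unfold nb
  simp_rw [Finset.mul_sum]
  rw [Finset.sum_comm]
  apply Finset.sum_congr rfl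
  intro v _
  rw [hb_eq]

theorem nbn : N_elem → N_Bnormal := by
  intro hE K
  obtain ⟨R₁, h₁⟩ := hE K
  obtain ⟨R₂, h₂⟩ := eventually_small K (1/1000) (by norm_num)
  obtain ⟨R₃, h₃⟩ := log_ge 1
  refine ⟨max R₁ (max R₂ R₃), ?_⟩
  intro R hR n X ι _ _ D hD s hs hsn u hu β hβ e he
  have hR1 : R₁ ≤ R := le_trans (le_max_left _ _) hR
  have hR2 : R₂ ≤ R := le_trans (le_trans (le_max_left _ _) (le_max_right _ _)) hR
  have hR3 : R₃ ≤ R := le_trans (le_trans (le_max_right _ _) (le_max_right _ _)) hR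
  obtain ⟨e1, e2, e3, e4, e5, e6⟩ := h₁ R hR1 n X ι D hD s hs hsn
  have hsm := h₂ R hR2
  have hlog := h₃ R hR3
  obtain ⟨c1, c2, c3, c4, c5⟩ := confB_facts hD he
  have heng := eng_nonneg hs.w_nonneg β e u (D := D)
  set V := VV D s e u with hV
  have hVt : ∀ v ∈ V, s.t < (D.o v : ℕ) := by
    intro v hv
    rw [hV] at hv
    unfold VV at hv
    exact (Finset.mem_filter.1 hv).2
  have hN0 : ∀ v ∈ V, 0 ≤ hN D s v := fun v hv => (e4 v (hVt v hv)).1
  have hNb : ∀ v ∈ V, hN D s v ≤ hb D s v := fun v hv => (e4 v (hVt v hv)).2.1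
  have hbsm : ∀ v, s.t < (D.o v : ℕ) → hb D s v ≤ 1/1000 := fun v hv =>
    le_trans (e4 v hv).2.2.2.2 hsm
  obtain ⟨Hn, hHn⟩ : ∃ y, y = ∑ v ∈ V, hN D s v := ⟨_, rfl⟩
  obtain ⟨Ht, hHt⟩ : ∃ y, y = Htot D s e u := ⟨_, rfl⟩
  have hHt' : Ht = ∑ v ∈ V, hb D s v := by rw [hHt, Htot_eq]
  have hHn0 : 0 ≤ Hn := by rw [hHn]; exact Finset.sum_nonneg hN0
  have hHnt : Hn ≤ Ht := by rw [hHn, hHt']; exact Finset.sum_le_sum hNb
  have hHt3 : Ht ≤ 3/1000 := by
    rw [hHt']
    calc ∑ v ∈ V, hb D s v ≤ ∑ v ∈ V, (1/1000:ℝ) :=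
          Finset.sum_le_sum (fun v hv => hbsm v (hVt v hv))
      _ = V.card * (1/1000:ℝ) := by rw [Finset.sum_const, nsmul_eq_mul]
      _ ≤ 3 * (1/1000:ℝ) := by
          have : (V.card : ℝ) ≤ 3 := by exact_mod_cast c5
          nlinarith
      _ = 3/1000 := by norm_num
  obtain ⟨m, hm⟩ : ∃ y, y = mB D s β := ⟨_, rfl⟩
  have hm0 : 0 ≤ m := by rw [hm]; exact (e5 β hβ).1
  have hm1 : m ≤ 1/1000 := by rw [hm]; exact le_trans (e5 β hβ).2 hsm
  obtain ⟨η, hη⟩ : ∃ y, y = 1 / Real.log R := ⟨_, rfl⟩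
  have hη0 : 0 < η := by rw [hη]; positivity
  have hη1 : η ≤ 1 := by rw [hη, div_le_one (by linarith)]; exact hlog
  have hub0 : 0 ≤ hb D s u := le_trans (e4 u hu).1 (e4 u hu).2.1
  have hub1 : hb D s u ≤ 1/1000 := hbsm u hu
  obtain ⟨E, hE⟩ : ∃ y, y = eng D s β e u := ⟨_, rfl⟩
  rw [← hE] at heng
  have hpr : ∀ x ∈ lst D s.t, 0 ≤ pr D s x := fun x hx => (e3 x hx).1
  have hst : ∀ x, eng D (stepS D R s x) β e u
      = E * (Real.exp (-5 * m) * ∏ v ∈ V, gf D R s x v) := by
    intro x
    rw [eng_step he x, if_neg hβ, ← hE, ← hm]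
  have hU : insert u V ⊆ D.B β := by
    intro v hv
    rw [Finset.mem_insert] at hv
    rcases hv with rfl | hv
    · exact c1 c2
    · exact c1 (c4 hv)
  have hUc : (insert u V).card ≤ 4 := by
    rw [Finset.card_insert_of_notMem c3]
    omega
  rw [← hE, ← hm, ← hHt, ← hη]
  constructor
  · -- first part
    have key : ∀ x ∈ lst D s.t, (if ¬ blk D s x u then pr D s x * eng D (stepS D R s x) β e u else 0)
        ≤ pr D s x * (1 - nb D s x (insert u V) + 3 * (if x ∈ D.B β then 1 else 0))
          * (E * Real.exp (-5 * m + (1 - η) * Hn)) := by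
      intro x hx
      obtain ⟨p1, p2, p3, p4⟩ := prod_gf_le hlog hN0 x (D := D) (s := s)
      rw [← hHn, ← hη] at p2
      have hnone := none_le hD x hU hUc (s := s)
      have hE2 : 0 ≤ E * Real.exp (-5 * m + (1 - η) * Hn) := mul_nonneg heng (Real.exp_pos _).le
      by_cases hall : ∀ v ∈ insert u V, ¬ blk D s x v
      · rw [if_pos hall] at hnone
        rw [if_pos (hall u (Finset.mem_insert_self _ _)), hst x]
        have h5 : E * (Real.exp (-5 * m) * ∏ v ∈ V, gf D R s x v)
            ≤ E * Real.exp (-5 * m + (1 - η) * Hn) := by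
          apply mul_le_mul_of_nonneg_left _ heng
          rw [Real.exp_add]
          exact mul_le_mul_of_nonneg_left p2 (Real.exp_pos _).le
        calc pr D s x * (E * (Real.exp (-5 * m) * ∏ v ∈ V, gf D R s x v))
            ≤ pr D s x * (E * Real.exp (-5 * m + (1 - η) * Hn)) :=
              mul_le_mul_of_nonneg_left h5 (hpr x hx)
          _ = pr D s x * 1 * (E * Real.exp (-5 * m + (1 - η) * Hn)) := by ring
          _ ≤ _ := by
              apply mul_le_mul_of_nonneg_right _ hE2
              exact mul_le_mul_of_nonneg_left hnone (hpr x hx)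
      · rw [if_neg hall] at hnone
        have hzero : (if ¬ blk D s x u then pr D s x * eng D (stepS D R s x) β e u else 0) = 0 := by
          by_cases hbu : blk D s x u
          · rw [if_neg (not_not.2 hbu)]
          · rw [if_pos hbu, hst x]
            push Not at hall
            obtain ⟨v, hv, hbv⟩ := hall
            rw [Finset.mem_insert] at hv
            rcases hv with rfl | hv
            · exact absurd hbv hbu
            · rw [p3 ⟨v, hv, hbv⟩]
              ring
        rw [hzero]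
        exact mul_nonneg (mul_nonneg (hpr x hx) hnone) hE2
    have hsum : ∑ x ∈ lst D s.t, pr D s x *
        (1 - nb D s x (insert u V) + 3 * (if x ∈ D.B β then 1 else 0))
        = 1 - (hb D s u + Ht) + 3 * m := by
      have h6 : ∀ x ∈ lst D s.t, pr D s x *
        (1 - nb D s x (insert u V) + 3 * (if x ∈ D.B β then 1 else 0))
          = pr D s x - pr D s x * nb D s x (insert u V)
            + 3 * (pr D s x * (if x ∈ D.B β then 1 else 0)) := by
        intro x _
        ring
      rw [Finset.sum_congr rfl h6, Finset.sum_add_distrib, Finset.sum_sub_distrib, e2, sum_nb,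
        ← Finset.mul_sum, ← mB_eq, Finset.sum_insert c3, ← hHt', ← hm]
    rw [Finset.sum_filter]
    refine (Finset.sum_le_sum key).trans ?_
    rw [← Finset.sum_mul, hsum]
    -- now real estimates
    have h7 : 1 - (hb D s u + Ht) + 3 * m ≤ Real.exp (-(hb D s u + Ht) + 3 * m) := by
      have := Real.add_one_le_exp (-(hb D s u + Ht) + 3 * m)
      linarith
    have h8 : (1 - (hb D s u + Ht) + 3 * m) * (E * Real.exp (-5 * m + (1 - η) * Hn))
        ≤ E * Real.exp (-(hb D s u) + -(η * Ht + 2 * m)) := by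
      calc (1 - (hb D s u + Ht) + 3 * m) * (E * Real.exp (-5 * m + (1 - η) * Hn))
          ≤ Real.exp (-(hb D s u + Ht) + 3 * m) * (E * Real.exp (-5 * m + (1 - η) * Hn)) :=
            mul_le_mul_of_nonneg_right h7 (mul_nonneg heng (Real.exp_pos _).le)
        _ = E * Real.exp (-(hb D s u + Ht) + 3 * m + (-5 * m + (1 - η) * Hn)) := by
            rw [Real.exp_add (-(hb D s u + Ht) + 3 * m)]
            ring
        _ ≤ E * Real.exp (-(hb D s u) + -(η * Ht + 2 * m)) := by
            apply mul_le_mul_of_nonneg_left _ heng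
            apply Real.exp_le_exp.2
            nlinarith
    refine h8.trans ?_
    apply mul_le_mul_of_nonneg_left _ heng
    rw [Real.exp_add]
    obtain ⟨q, hq⟩ : ∃ y, y = η * Ht + 2 * m := ⟨_, rfl⟩
    have hHt0 : 0 ≤ Ht := le_trans hHn0 hHnt
    have hq0 : 0 ≤ q := by rw [hq]; positivity
    have hq1 : q ≤ 1/100 := by
      rw [hq]
      nlinarith
    rw [← hq]
    have h9 := exp_neg_le hub0 (by linarith)
    have h10 := exp_neg_le hq0 (by linarith)
    obtain ⟨a, ha⟩ : ∃ y, y = hb D s u := ⟨_, rfl⟩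
    rw [← ha] at hub0 hub1 h9 ⊢
    have h11 : Real.exp (-q) ≤ 1 - 98/100 * q := by nlinarith
    calc Real.exp (-a) * Real.exp (-q) ≤ (1 - a + a^2/2) * (1 - 98/100 * q) := by
          apply mul_le_mul h9 h11 (Real.exp_pos _).le
          nlinarith
      _ ≤ 1 - a + a^2/2 - 49/100 * q := by nlinarith [mul_nonneg hq0 hub0]
  · -- second part
    have hHt0 : 0 ≤ Ht := le_trans hHn0 hHnt
    have key : ∀ x ∈ lst D s.t, pr D s x * |eng D (stepS D R s x) β e u - E|
        ≤ pr D s x * (nb D s x V + (11/10 * Ht + 5 * m)) * E := by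
      intro x hx
      obtain ⟨p1, p2, p3, p4⟩ := prod_gf_le hlog hN0 x (D := D) (s := s)
      rw [← hHn, ← hη] at p2
      rw [hst x, mul_assoc]
      apply mul_le_mul_of_nonneg_left _ (hpr x hx)
      have h1 : E * (Real.exp (-5 * m) * ∏ v ∈ V, gf D R s x v) - E
          = E * (Real.exp (-5 * m) * ∏ v ∈ V, gf D R s x v - 1) := by ring
      rw [h1, abs_mul, abs_of_nonneg heng, mul_comm]
      apply mul_le_mul_of_nonneg_right _ heng
      have h5m : 1 - 5 * m ≤ Real.exp (-5 * m) := by
        have := Real.add_one_le_exp (-5 * m)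
        linarith
      have h5m' : Real.exp (-5 * m) ≤ 1 := by
        rw [Real.exp_le_one_iff]
        linarith
      by_cases hall : ∀ v ∈ V, ¬ blk D s x v
      · have h2 := p4 hall
        have h3 : ∏ v ∈ V, gf D R s x v ≤ 1 + 11/10 * Ht := by
          refine p2.trans ?_
          refine le_trans ?_ (exp_le_1 hHt0 (by linarith))
          apply Real.exp_le_exp.2
          nlinarith
        obtain ⟨P, hP⟩ : ∃ y, y = ∏ v ∈ V, gf D R s x v := ⟨_, rfl⟩
        rw [← hP] at h2 h3 ⊢
        have h4 := nb_nonneg D s x V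
        have h5 := Real.exp_pos (-5 * m)
        rw [abs_le]
        constructor
        · nlinarith
        · nlinarith
      · push Not at hall
        obtain ⟨v, hv, hbv⟩ := hall
        rw [p3 ⟨v, hv, hbv⟩, mul_zero, zero_sub, abs_neg, abs_one]
        have h4 : 1 ≤ nb D s x V := by
          rw [nb_eq]
          have : 0 < (V.filter (fun v => blk D s x v)).card := by
            apply Finset.card_pos.2
            exact ⟨v, Finset.mem_filter.2 ⟨hv, hbv⟩⟩
          exact_mod_cast this
        nlinarith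
    refine (Finset.sum_le_sum key).trans ?_
    rw [← Finset.sum_mul]
    have h6 : ∀ x ∈ lst D s.t, pr D s x * (nb D s x V + (11/10 * Ht + 5 * m))
        = pr D s x * nb D s x V + pr D s x * (11/10 * Ht + 5 * m) := fun x _ => by ring
    rw [Finset.sum_congr rfl h6, Finset.sum_add_distrib, ← Finset.sum_mul, e2, sum_nb, ← hHt']
    have h7 : 3 * Real.log R * E * (η * Ht + 2 * m)
        = (3 * (Real.log R * η) * Ht + 6 * Real.log R * m) * E := by ring
    have h8 : Real.log R * η = 1 := by
      rw [hη]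
      field_simp
    rw [h7, h8]
    apply mul_le_mul_of_nonneg_right _ heng
    nlinarith

end

end Pool.Agent.TH987.MP325
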