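import Pool.Agent.TH987.MP325_Base

/-!
Job 1181: main inequality for the functional `YY` (project MP_325b7c_co).
-/

set_option autoImplicit false

namespace Pool.Agent.TH987.MP325

open Pool.Agent.TH490 Finset Classical

noncomputable section

variable {n : ℕ} {X ι : Type} [Fintype X] [Fintype ι]

theorem confA0_sub (D : Nib n X ι) (s : NSt n X ι) (β : ι) (u : X) :
    confA0 D s β u ⊆ confA D s β u := by
  intro e he
  unfold confA0 at he
  unfold confA
  rw [Finset.mem_filter] at he ⊢
  obtain ⟨h1, h2, z, hz, h3, _⟩ := he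
  exact ⟨h1, h2, z, hz, h3⟩

theorem conf_split (D : Nib n X ι) (s : NSt n X ι) (β : ι) (u : X) (f : Finset X → ℝ) :
    ∑ e ∈ (D.conf β).filter (fun e => topc D u e), f e
      = ∑ e ∈ confA0 D s β u, f e + ∑ e ∈ confA D s β u \ confA0 D s β u, f e
        + ∑ e ∈ confB D s β u, f e := by
  have h1 : (D.conf β).filter (fun e => topc D u e) = confA D s β u ∪ confB D s β u := by
    ext e
    unfold confA confB
    rw [Finset.mem_union, Finset.mem_filter, Finset.mem_filter, Finset.mem_filter]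
    constructor
    · rintro ⟨h1, h2⟩
      by_cases h : ∃ z ∈ e, (D.o z : ℕ) = s.t
      · exact Or.inl ⟨h1, h2, h⟩
      · push Not at h
        exact Or.inr ⟨h1, h2, h⟩
    · rintro (⟨h1, h2, _⟩ | ⟨h1, h2, _⟩)
      · exact ⟨h1, h2⟩
      · exact ⟨h1, h2⟩
  have h2 : Disjoint (confA D s β u) (confB D s β u) := by
    rw [Finset.disjoint_left]
    intro e h3 h4
    unfold confA at h3
    unfold confB at h4
    rw [Finset.mem_filter] at h3 h4
    obtain ⟨_, _, z, hz, h5⟩ := h3
    exact h4.2.2 z hz h5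
  rw [h1, Finset.sum_union h2, ← Finset.sum_sdiff (confA0_sub D s β u)]
  ring

/-- sum of a function over the conflicts of a type -/
def SS (C : ι → Finset (Finset X)) (Bs : Finset ι) (f : ι → Finset X → ℝ) : ℝ :=
  ∑ β ∈ Bs, ∑ e ∈ C β, f β e

theorem SS_nonneg {C : ι → Finset (Finset X)} {Bs : Finset ι} {f : ι → Finset X → ℝ}
    (h : ∀ β e, 0 ≤ f β e) : 0 ≤ SS C Bs f :=
  Finset.sum_nonneg (fun β _ => Finset.sum_nonneg (fun e _ => h β e))

theorem SS_le {C : ι → Finset (Finset X)} {Bs : Finset ι} {f g : ι → Finset X → ℝ}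
    (h : ∀ β ∈ Bs, ∀ e ∈ C β, f β e ≤ g β e) : SS C Bs f ≤ SS C Bs g :=
  Finset.sum_le_sum (fun β hβ => Finset.sum_le_sum (fun e he => h β hβ e he))

theorem SS_const_mul (C : ι → Finset (Finset X)) (Bs : Finset ι) (c : ℝ)
    (f : ι → Finset X → ℝ) : SS C Bs (fun β e => c * f β e) = c * SS C Bs f := by
  unfold SS
  simp_rw [Finset.mul_sum]

theorem SS_sub (C : ι → Finset (Finset X)) (Bs : Finset ι)
    (f g : ι → Finset X → ℝ) : SS C Bs (fun β e => f β e - g β e) = SS C Bs f - SS C Bs g := by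
  unfold SS
  simp_rw [Finset.sum_sub_distrib]

theorem SS_add (C : ι → Finset (Finset X)) (Bs : Finset ι)
    (f g : ι → Finset X → ℝ) : SS C Bs (fun β e => f β e + g β e) = SS C Bs f + SS C Bs g := by
  unfold SS
  simp_rw [Finset.sum_add_distrib]

theorem SS_split (D : Nib n X ι) (s : NSt n X ι) (u : X) (Bs : Finset ι)
    (f : ι → Finset X → ℝ) :
    SS (fun β => (D.conf β).filter (fun e => topc D u e)) Bs f
      = SS (fun β => confA0 D s β u) Bs f + SS (fun β => confA D s β u \ confA0 D s β u) Bs f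
        + SS (fun β => confB D s β u) Bs f := by
  unfold SS
  rw [← Finset.sum_add_distrib, ← Finset.sum_add_distrib]
  apply Finset.sum_congr rfl
  intro β _
  exact conf_split D s β u (f β)

theorem SS_comm (C : ι → Finset (Finset X)) (Bs : Finset ι) (S : Finset X) (p : X → ℝ)
    (f : X → ι → Finset X → ℝ) :
    ∑ x ∈ S, p x * SS C Bs (f x) = SS C Bs (fun β e => ∑ x ∈ S, p x * f x β e) := by
  unfold SS
  simp_rw [Finset.mul_sum]
  rw [Finset.sum_comm]
  apply Finset.sum_congr rfl
  intro β _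
  rw [Finset.sum_comm]

theorem abs_SS_le (C : ι → Finset (Finset X)) (Bs : Finset ι)
    (f : ι → Finset X → ℝ) : |SS C Bs f| ≤ SS C Bs (fun β e => |f β e|) := by
  unfold SS
  refine (Finset.abs_sum_le_sum_abs _ _).trans ?_
  exact Finset.sum_le_sum (fun β _ => Finset.abs_sum_le_sum_abs _ _)

/-- the contribution of a set of blocks -/
theorem part {D : Nib n X ι} {R : ℕ} {s : NSt n X ι} (hw : ∀ v, 0 ≤ s.w v) {u : X}
    (Bs : Finset ι) (c : ℝ) (δ κ : ι → Finset X → ℝ)
    (hpr : ∀ x ∈ lst D s.t, 0 ≤ pr D s x)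
    (hsum : ∑ x ∈ lst D s.t, pr D s x = 1)
    (hw' : ∀ x v, 0 ≤ (stepS D R s x).w v)
    (hA : ∀ β, ∀ e ∈ confA D s β u,
      ∑ x ∈ lst D s.t, pr D s x * eng D (stepS D R s x) β e u ≤ (13/100) * eng D s β e u)
    (hA0 : ∀ β, ∀ e ∈ confA0 D s β u, ∀ x ∈ lst D s.t, ¬ blk D s x u →
      eng D (stepS D R s x) β e u = 0)
    (hB1 : ∀ β ∈ Bs, ∀ e ∈ confB D s β u,
      ∑ x ∈ (lst D s.t).filter (fun x => ¬ blk D s x u),
        pr D s x * eng D (stepS D R s x) β e u ≤ c * eng D s β e u - δ β e)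
    (hB2 : ∀ β ∈ Bs, ∀ e ∈ confB D s β u,
      ∑ x ∈ lst D s.t, pr D s x * |eng D (stepS D R s x) β e u - eng D s β e u| ≤ κ β e) :
    (∑ x ∈ (lst D s.t).filter (fun x => ¬ blk D s x u), pr D s x *
        SS (fun β => (D.conf β).filter (fun e => topc D u e)) Bs
          (fun β e => eng D (stepS D R s x) β e u)
      ≤ 13/100 * SS (fun β => confA D s β u \ confA0 D s β u) Bs (fun β e => eng D s β e u)
        + c * SS (fun β => confB D s β u) Bs (fun β e => eng D s β e u)
        - SS (fun β => confB D s β u) Bs δ) ∧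
    (∑ x ∈ (lst D s.t).filter (fun x => ¬ blk D s x u), pr D s x *
        |SS (fun β => (D.conf β).filter (fun e => topc D u e)) Bs
          (fun β e => eng D (stepS D R s x) β e u)
         - SS (fun β => (D.conf β).filter (fun e => topc D u e)) Bs
          (fun β e => eng D s β e u)|
      ≤ SS (fun β => confA0 D s β u) Bs (fun β e => eng D s β e u)
        + 113/100 * SS (fun β => confA D s β u \ confA0 D s β u) Bs
            (fun β e => eng D s β e u)
        + SS (fun β => confB D s β u) Bs κ) := by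
  have hpr' : ∀ x ∈ (lst D s.t).filter (fun x => ¬ blk D s x u), 0 ≤ pr D s x :=
    fun x hx => hpr x (Finset.mem_filter.1 hx).1
  have hen : ∀ x β e, 0 ≤ eng D (stepS D R s x) β e u :=
    fun x β e => eng_nonneg (hw' x) β e u
  have hen0 : ∀ β e, 0 ≤ eng D s β e u := fun β e => eng_nonneg hw β e u
  constructor
  · rw [SS_comm, SS_split D s u]
    have h1 : SS (fun β => confA0 D s β u) Bs (fun β e =>
        ∑ x ∈ (lst D s.t).filter (fun x => ¬ blk D s x u),
          pr D s x * eng D (stepS D R s x) β e u) ≤ 0 := by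
      have : SS (fun β => confA0 D s β u) Bs (fun β e =>
        ∑ x ∈ (lst D s.t).filter (fun x => ¬ blk D s x u),
          pr D s x * eng D (stepS D R s x) β e u) ≤
          SS (fun β => confA0 D s β u) Bs (fun _ _ => 0) := by
        apply SS_le
        intro β _ e he
        apply le_of_eq
        apply Finset.sum_eq_zero
        intro x hx
        rw [Finset.mem_filter] at hx
        rw [hA0 β e he x hx.1 hx.2, mul_zero]
      refine this.trans ?_
      unfold SS
      simp
    have h2 : SS (fun β => confA D s β u \ confA0 D s β u) Bs (fun β e =>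
        ∑ x ∈ (lst D s.t).filter (fun x => ¬ blk D s x u),
          pr D s x * eng D (stepS D R s x) β e u) ≤
        13/100 * SS (fun β => confA D s β u \ confA0 D s β u) Bs
          (fun β e => eng D s β e u) := by
      rw [← SS_const_mul]
      apply SS_le
      intro β _ e he
      refine le_trans ?_ (hA β e (Finset.mem_sdiff.1 he).1)
      apply Finset.sum_le_sum_of_subset_of_nonneg (Finset.filter_subset _ _)
      intro x hx _
      exact mul_nonneg (hpr x hx) (hen x β e)
    have h3 : SS (fun β => confB D s β u) Bs (fun β e =>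
        ∑ x ∈ (lst D s.t).filter (fun x => ¬ blk D s x u),
          pr D s x * eng D (stepS D R s x) β e u) ≤
        c * SS (fun β => confB D s β u) Bs (fun β e => eng D s β e u)
        - SS (fun β => confB D s β u) Bs δ := by
      rw [← SS_const_mul, ← SS_sub]
      exact SS_le (fun β hβ e he => hB1 β hβ e he)
    linarith
  · have h0 : ∀ x ∈ (lst D s.t).filter (fun x => ¬ blk D s x u), pr D s x *
        |SS (fun β => (D.conf β).filter (fun e => topc D u e)) Bs
          (fun β e => eng D (stepS D R s x) β e u)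
         - SS (fun β => (D.conf β).filter (fun e => topc D u e)) Bs
          (fun β e => eng D s β e u)|
        ≤ pr D s x * SS (fun β => (D.conf β).filter (fun e => topc D u e)) Bs
          (fun β e => |eng D (stepS D R s x) β e u - eng D s β e u|) := by
      intro x hx
      apply mul_le_mul_of_nonneg_left _ (hpr' x hx)
      rw [← SS_sub]
      exact abs_SS_le _ _ _
    refine (Finset.sum_le_sum h0).trans ?_
    rw [SS_comm, SS_split D s u]
    have hone : ∑ x ∈ (lst D s.t).filter (fun x => ¬ blk D s x u), pr D s x ≤ 1 := by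
      rw [← hsum]
      apply Finset.sum_le_sum_of_subset_of_nonneg (Finset.filter_subset _ _)
      intro x hx _
      exact hpr x hx
    have h1 : SS (fun β => confA0 D s β u) Bs (fun β e =>
        ∑ x ∈ (lst D s.t).filter (fun x => ¬ blk D s x u),
          pr D s x * |eng D (stepS D R s x) β e u - eng D s β e u|)
        ≤ SS (fun β => confA0 D s β u) Bs (fun β e => eng D s β e u) := by
      apply SS_le
      intro β _ e he
      have : ∀ x ∈ (lst D s.t).filter (fun x => ¬ blk D s x u),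
          pr D s x * |eng D (stepS D R s x) β e u - eng D s β e u|
            = pr D s x * eng D s β e u := by
        intro x hx
        rw [Finset.mem_filter] at hx
        rw [hA0 β e he x hx.1 hx.2, zero_sub, abs_neg, abs_of_nonneg (hen0 β e)]
      rw [Finset.sum_congr rfl this, ← Finset.sum_mul]
      calc _ ≤ 1 * eng D s β e u := mul_le_mul_of_nonneg_right hone (hen0 β e)
        _ = eng D s β e u := one_mul _
    have h2 : SS (fun β => confA D s β u \ confA0 D s β u) Bs (fun β e =>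
        ∑ x ∈ (lst D s.t).filter (fun x => ¬ blk D s x u),
          pr D s x * |eng D (stepS D R s x) β e u - eng D s β e u|)
        ≤ 113/100 * SS (fun β => confA D s β u \ confA0 D s β u) Bs
            (fun β e => eng D s β e u) := by
      rw [← SS_const_mul]
      apply SS_le
      intro β _ e he
      have h3 := hA β e (Finset.mem_sdiff.1 he).1
      calc ∑ x ∈ (lst D s.t).filter (fun x => ¬ blk D s x u),
          pr D s x * |eng D (stepS D R s x) β e u - eng D s β e u|
          ≤ ∑ x ∈ lst D s.t,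
          pr D s x * |eng D (stepS D R s x) β e u - eng D s β e u| := by
            apply Finset.sum_le_sum_of_subset_of_nonneg (Finset.filter_subset _ _)
            intro x hx _
            exact mul_nonneg (hpr x hx) (abs_nonneg _)
        _ ≤ ∑ x ∈ lst D s.t, (pr D s x * eng D (stepS D R s x) β e u
              + pr D s x * eng D s β e u) := by
            apply Finset.sum_le_sum
            intro x hx
            rw [← mul_add]
            apply mul_le_mul_of_nonneg_left _ (hpr x hx)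
            rw [abs_le]
            constructor
            · linarith [hen x β e, hen0 β e]
            · linarith [hen x β e, hen0 β e]
        _ ≤ 113/100 * eng D s β e u := by
            rw [Finset.sum_add_distrib, ← Finset.sum_mul, hsum]
            linarith
    have h3 : SS (fun β => confB D s β u) Bs (fun β e =>
        ∑ x ∈ (lst D s.t).filter (fun x => ¬ blk D s x u),
          pr D s x * |eng D (stepS D R s x) β e u - eng D s β e u|)
        ≤ SS (fun β => confB D s β u) Bs κ := by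
      apply SS_le
      intro β hβ e he
      refine le_trans ?_ (hB2 β hβ e he)
      apply Finset.sum_le_sum_of_subset_of_nonneg (Finset.filter_subset _ _)
      intro x hx _
      exact mul_nonneg (hpr x hx) (abs_nonneg _)
    linarith

/-- the real inequality for the expected increase -/
theorem real_low {b h hT hb η a0 a1 eb qb l lgb TA0 TA1 TB QT P Q G : ℝ}
    (hb0 : 0 < b) (h0 : 0 ≤ h) (hT0 : 0 ≤ hT) (hh : h ≤ hb) (hhb : hb ≤ h + hT)
    (hbs : hb ≤ 1/100) (hTs : hT ≤ 1/100) (hη : η = b / 100) (hη1 : η ≤ 1)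
    (hhs : h ≤ b / 3000)
    (ha0 : 262/100 * h * b ≤ a0) (hTA0 : 8 * hT ≤ TA0) (ha1 : 0 ≤ a1) (heb0 : 0 ≤ eb)
    (heb1 : eb ≤ 1) (hqb : 0 ≤ qb) (hl : 0 ≤ l) (hlg : lgb ≤ h * b) (hTA1 : 0 ≤ TA1)
    (hTB0 : 0 ≤ TB) (hTB1 : TB ≤ 1) (hQT : 0 ≤ QT)
    (hG : G = a0 + a1 + eb + l + TA0 + TA1 + TB) (hG1 : G ≤ 1)
    (hP : P ≤ 13/100 * a1 + (1 - hb + hb^2/2) * eb - 49/100 * qb)
    (hQ : Q ≤ 13/100 * TA1 + (1 - h + h^2/2) * TB - 1/10 * η * QT) :
    29/100 * h * b + 19/10 * hT + 49/100 * a0 + 86/100 * a1 + 49/100 * qb + 49/100 * TA0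
      + 86/100 * TA1 + 1/10 * η * QT ≤
    (1 + (1 - η) * h) * ((1 - hb) - (P + (1 - hb) * (l + lgb)) - Q) - (1 - G) := by
  have hη0 : 0 < η := by rw [hη]; positivity
  have hhb2 : 0 ≤ h * b := by positivity
  have hG0 : 0 ≤ G := by
    rw [hG]
    linarith
  have hhb0 : 0 ≤ hb := h0.trans hh
  have ha00 : 0 ≤ a0 := by linarith
  have hTA00 : 0 ≤ TA0 := by linarith
  obtain ⟨g, hg⟩ : ∃ y, y = 99/100 * a0 + 86/100 * a1 - hb^2/2 + 49/100 * qb - h * b
    + 99/100 * TA0 + 86/100 * TA1 - hT - h^2/2 + 1/10 * η * QT := ⟨_, rfl⟩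
  have hhT : 0 ≤ h * hT := by positivity
  -- M ≥ (1-hb)(1-G) + g
  have hM : (1 - hb) * (1 - G) + g ≤ (1 - hb) - (P + (1 - hb) * (l + lgb)) - Q := by
    have m1 : 0 ≤ (1/100 - hb) * a0 := mul_nonneg (by linarith) ha00
    have m2 : 0 ≤ (1/100 - hb) * a1 := mul_nonneg (by linarith) ha1
    have m3 : 0 ≤ (1/100 - hb) * TA0 := mul_nonneg (by linarith) hTA00
    have m4 : 0 ≤ (1/100 - hb) * TA1 := mul_nonneg (by linarith) hTA1
    have m5 : 0 ≤ (1 - eb) * (hb^2/2) := mul_nonneg (by linarith) (by positivity)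
    have m6 : 0 ≤ (1 - TB) * (h^2/2) := mul_nonneg (by linarith) (by positivity)
    have m7 : 0 ≤ (1 - TB) * (hb - h) := mul_nonneg (by linarith) (by linarith)
    have m8 : 0 ≤ (1 - hb) * (h * b - lgb) := mul_nonneg (by linarith) (by linarith)
    have m9 : 0 ≤ hb * (h * b) := by positivity
    rw [hg, hG]
    linarith
  -- g ≥ 0 and more
  have hsq : hb^2 ≤ 2 * h^2 + 2 * hT^2 := by
    have s1 : hb^2 ≤ (h + hT)^2 := pow_le_pow_left₀ hhb0 hhb 2
    have s2 := sq_nonneg (h - hT)
    linarith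
  have hh2 : h^2 ≤ h * b / 3000 := by
    have := mul_le_mul_of_nonneg_left hhs h0
    linarith
  have hT2 : hT^2 ≤ hT / 100 := by
    have := mul_le_mul_of_nonneg_left hTs hT0
    linarith
  have hηh : η * h = h * b / 100 := by rw [hη]; ring
  have hg1 : 29/100 * h * b + 19/10 * hT + 49/100 * a0 + 86/100 * a1 + 49/100 * qb + 49/100 * TA0
      + 86/100 * TA1 + 1/10 * η * QT + (η * h + h^2 + 101/100 * hT) ≤ g := by
    rw [hg, hηh]
    linarith
  have hηQ : 0 ≤ η * QT := by positivity
  have hηh0 : 0 ≤ η * h := by positivity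
  have hhsq : 0 ≤ h^2 := by positivity
  have hg0 : 0 ≤ g := by linarith
  have hηh1 : 0 ≤ (1 - η) * h := mul_nonneg (by linarith) h0
  have hc : 1 - (η * h + h^2 + 101/100 * hT) ≤ (1 + (1 - η) * h) * (1 - hb) := by
    have k1 : (1 + (1 - η) * h) * (1 - h - hT) ≤ (1 + (1 - η) * h) * (1 - hb) := by
      apply mul_le_mul_of_nonneg_left (by linarith)
      linarith
    refine le_trans ?_ k1
    have k2 : 0 ≤ η * h^2 := by positivity
    have k3 : 0 ≤ η * h * hT := by positivity
    have k4 : h * hT ≤ 1/100 * hT := mul_le_mul_of_nonneg_right (by linarith) hT0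
    linarith
  have hf : 1 ≤ 1 + (1 - η) * h := by linarith
  have h1 : (1 + (1 - η) * h) * ((1 - hb) * (1 - G) + g)
      ≤ (1 + (1 - η) * h) * ((1 - hb) - (P + (1 - hb) * (l + lgb)) - Q) :=
    mul_le_mul_of_nonneg_left hM (by linarith)
  have h2 : g ≤ (1 + (1 - η) * h) * g := by
    have := mul_nonneg hηh1 hg0
    linarith
  have h3 : (1 - (η * h + h^2 + 101/100 * hT)) * (1 - G)
      ≤ (1 + (1 - η) * h) * (1 - hb) * (1 - G) :=
    mul_le_mul_of_nonneg_right hc (by linarith)
  have h4 : 0 ≤ (η * h + h^2 + 101/100 * hT) * G := by positivity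
  linarith

/-- comparison of the two bounds -/
theorem real_up {LR b h hT hb η EA0 EA1 QB TA0 TA1 QT : ℝ}
    (hLR : 1 ≤ LR) (hb0 : 0 < b) (hLb : LR * b = 100) (hLη : LR * η = 1) (h0 : 0 ≤ h)
    (hT0 : 0 ≤ hT) (hhb : hb ≤ h + hT)
    (hEA0 : 0 ≤ EA0) (hEA1 : 0 ≤ EA1) (hQB : 0 ≤ QB) (hTA0 : 0 ≤ TA0) (hTA1 : 0 ≤ TA1)
    (hQT : 0 ≤ QT) :
    hb + h + 101/100 * ((EA0 + 113/100 * EA1 + 3 * LR * QB + h) * b
      + (TA0 + 113/100 * TA1 + 3 * QT)) ≤
    40 * LR * (29/100 * h * b + 19/10 * hT + 49/100 * (EA0 * b) + 86/100 * (EA1 * b)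
      + 49/100 * (QB * b) + 49/100 * TA0 + 86/100 * TA1 + 1/10 * η * QT) := by
  have m1 : 0 ≤ (LR - 1) * (EA0 * b) := mul_nonneg (by linarith) (by positivity)
  have m2 : 0 ≤ (LR - 1) * (EA1 * b) := mul_nonneg (by linarith) (by positivity)
  have m3 : 0 ≤ (LR - 1) * TA0 := mul_nonneg (by linarith) hTA0
  have m4 : 0 ≤ (LR - 1) * TA1 := mul_nonneg (by linarith) hTA1
  have m5 : 0 ≤ (LR - 1) * hT := mul_nonneg (by linarith) hT0
  have m6 : 0 ≤ LR * (QB * b) := by positivity
  have m7 : LR * (h * b) = 100 * h := by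
    calc LR * (h * b) = (LR * b) * h := by ring
      _ = 100 * h := by rw [hLb]
  have m8 : LR * (η * QT) = QT := by
    calc LR * (η * QT) = (LR * η) * QT := by ring
      _ = QT := by rw [hLη, one_mul]
  have m9 : 0 ≤ (LR - 1) * (h * b) := mul_nonneg (by linarith) (by positivity)
  have m10 : 0 ≤ EA0 * b := by positivity
  have m11 : 0 ≤ EA1 * b := by positivity
  linarith

theorem eventually_small_log (K : ℕ) (ε : ℝ) (hε : 0 < ε) : ∃ R₀ : ℕ, ∀ R : ℕ, R₀ ≤ R →
    2 * K * (R : ℝ) ^ (-(99 / 100) : ℝ) * Real.log R ≤ ε := by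
  have h1 : Filter.Tendsto (fun x : ℝ => Real.log x / x ^ (99 / 100 : ℝ)) Filter.atTop
      (nhds 0) := (isLittleO_log_rpow_atTop (by norm_num)).tendsto_div_nhds_zero
  have h2 := (h1.comp tendsto_natCast_atTop_atTop).const_mul (2 * (K:ℝ))
  rw [mul_zero] at h2
  have h3 := h2.eventually (gt_mem_nhds hε)
  rw [Filter.eventually_atTop] at h3
  obtain ⟨R₀, h⟩ := h3
  refine ⟨R₀, fun R hR => ?_⟩
  have h4 := (h R hR).le
  simp only [Function.comp] at h4
  rw [Real.rpow_neg (Nat.cast_nonneg R)]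
  calc 2 * (K:ℝ) * ((R:ℝ) ^ (99 / 100 : ℝ))⁻¹ * Real.log R
      = 2 * (K:ℝ) * (Real.log R / (R:ℝ) ^ (99 / 100 : ℝ)) := by ring
    _ ≤ ε := h4

/-- the step inequality for `YY` -/
theorem nystep : N_elem → N_A → N_Bnormal → N_Btiny → N_ystep := by
  intro hE hA hBn hBt K
  obtain ⟨R₁, h₁⟩ := hE K
  obtain ⟨R₂, h₂⟩ := hA K
  obtain ⟨R₃, h₃⟩ := hBn K
  obtain ⟨R₄, h₄⟩ := hBt K
  obtain ⟨R₅, h₅⟩ := eventually_small K (1/1000) (by norm_num)
  obtain ⟨R₆, h₆⟩ := log_ge 1
  obtain ⟨R₇, h₇⟩ := eventually_small_log K (1/30) (by norm_num)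
  refine ⟨R₁ + R₂ + R₃ + R₄ + R₅ + R₆ + R₇, ?_⟩
  intro R hR n X ι _ _ D hD s hs hsn u hu
  obtain ⟨e1, e2, e3, e4, e5, e6⟩ := h₁ R (by omega) n X ι D hD s hs hsn
  obtain ⟨a1, a2, a3, a4⟩ := h₂ R (by omega) n X ι D hD s hs hsn u hu
  have hbn := h₃ R (by omega) n X ι D hD s hs hsn u hu
  have hbt := h₄ R (by omega) n X ι D hD s hs hsn u hu
  have hsm := h₅ R (by omega)
  have hlog := h₆ R (by omega)
  have hsl := h₇ R (by omega)
  obtain ⟨f1, f2, f3, f4, f5⟩ := e4 u hu
  clear h₁ h₂ h₃ h₄ h₅ h₆ h₇ hR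
  have hpr : ∀ x ∈ lst D s.t, 0 ≤ pr D s x := fun x hx => (e3 x hx).1
  have hN0 : ∀ v, 0 ≤ hN D s v := fun v =>
    Finset.sum_nonneg (fun x hx => hpr x (Finset.mem_filter.1 hx).1)
  have hT0 : 0 ≤ hT D s u :=
    Finset.sum_nonneg (fun x hx => hpr x (Finset.mem_filter.1 hx).1)
  -- notation
  obtain ⟨LR, hLR⟩ : ∃ y, y = Real.log R := ⟨_, rfl⟩
  obtain ⟨η, hη⟩ : ∃ y, y = 1 / LR := ⟨_, rfl⟩
  obtain ⟨b, hbdef⟩ : ∃ y, y = 100 / LR := ⟨_, rfl⟩
  rw [← hLR] at hlog hsl hbn
  rw [← hLR, ← hη] at hbt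
  rw [← hη] at hbn
  have hLR0 : 0 < LR := by linarith
  have hη0 : 0 < η := by rw [hη]; positivity
  have hη1 : η ≤ 1 := by rw [hη, div_le_one hLR0]; exact hlog
  have hb0 : 0 < b := by rw [hbdef]; positivity
  have hLb : LR * b = 100 := by rw [hbdef]; field_simp
  have hLη : LR * η = 1 := by rw [hη]; field_simp
  have hηb : η = b / 100 := by rw [hη, hbdef]; field_simp
  have hw' : ∀ x v, 0 ≤ (stepS D R s x).w v := by
    intro x v
    show 0 ≤ if blk D s x v then 0 else s.w v * (1 + (1 - 1 / Real.log R) * hN D s v)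
    split_ifs
    · exact le_refl _
    · apply mul_nonneg (hs.w_nonneg v)
      rw [← hLR, ← hη]
      have := mul_nonneg (sub_nonneg.2 hη1) (hN0 v)
      linarith
  -- the two parts
  have P1 := part hs.w_nonneg (u := u) (univ.filter (fun β => ¬ D.tiny β))
    (1 - hb D s u + (hb D s u)^2/2)
    (fun β e => 49/100 * (eng D s β e u * (η * Htot D s e u + 2 * mB D s β)))
    (fun β e => 3 * LR * (eng D s β e u * (η * Htot D s e u + 2 * mB D s β)))
    hpr e2 hw' a1 a2
    (fun β hβ e he => by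
      refine ((hbn β (Finset.mem_filter.1 hβ).2 e he).1).trans (le_of_eq ?_)
      ring)
    (fun β hβ e he => by
      refine ((hbn β (Finset.mem_filter.1 hβ).2 e he).2).trans (le_of_eq ?_)
      ring)
  have P2 := part hs.w_nonneg (u := u) (univ.filter (fun β => D.tiny β))
    (1 - hN D s u + (hN D s u)^2/2)
    (fun β e => 1/10 * η * (eng D s β e u * Htot D s e u))
    (fun β e => 3 * (eng D s β e u * Htot D s e u))
    hpr e2 hw' a1 a2
    (fun β hβ e he => by
      refine ((hbt β (Finset.mem_filter.1 hβ).2 e he).1).trans (le_of_eq ?_)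
      ring)
    (fun β hβ e he => by
      refine ((hbt β (Finset.mem_filter.1 hβ).2 e he).2).trans (le_of_eq ?_)
      ring)
  rw [SS_const_mul, SS_const_mul] at P1 P2
  have hen0 : ∀ β e, 0 ≤ eng D s β e u := fun β e => eng_nonneg hs.w_nonneg β e u
  have hHt0 : ∀ e, 0 ≤ Htot D s e u := by
    intro e
    apply Finset.sum_nonneg
    intro v hv
    exact le_trans (hN0 v) (e4 v (Finset.mem_filter.1 hv).2).2.1
  -- abbreviations for the sums
  have hFN : ∀ s' : NSt n X ι, FN D s' u
      = SS (fun β => (D.conf β).filter (fun e => topc D u e)) (univ.filter (fun β => ¬ D.tiny β))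
          (fun β e => eng D s' β e u) := fun _ => rfl
  have hFT : ∀ s' : NSt n X ι, FT D s' u
      = SS (fun β => (D.conf β).filter (fun e => topc D u e)) (univ.filter (fun β => D.tiny β))
          (fun β e => eng D s' β e u) := fun _ => rfl
  simp_rw [← hFN] at P1
  simp_rw [← hFT] at P2
  have sN := hFN s
  have sT := hFT s
  rw [SS_split D s u] at sN sT
  have a3' : 262/100 * hN D s u ≤ SS (fun β => confA0 D s β u)
    (univ.filter (fun β => ¬ D.tiny β)) (fun β e => eng D s β e u) := a3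
  have a4' : 8 * hT D s u ≤ SS (fun β => confA0 D s β u)
    (univ.filter (fun β => D.tiny β)) (fun β e => eng D s β e u) := a4
  clear a3 a4
  obtain ⟨EA0, hEA0⟩ : ∃ y, y = SS (fun β => confA0 D s β u)
    (univ.filter (fun β => ¬ D.tiny β)) (fun β e => eng D s β e u) := ⟨_, rfl⟩
  obtain ⟨EA1, hEA1⟩ : ∃ y, y = SS (fun β => confA D s β u \ confA0 D s β u)
    (univ.filter (fun β => ¬ D.tiny β)) (fun β e => eng D s β e u) := ⟨_, rfl⟩
  obtain ⟨EB, hEB⟩ : ∃ y, y = SS (fun β => confB D s β u)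
    (univ.filter (fun β => ¬ D.tiny β)) (fun β e => eng D s β e u) := ⟨_, rfl⟩
  obtain ⟨QB, hQB⟩ : ∃ y, y = SS (fun β => confB D s β u)
    (univ.filter (fun β => ¬ D.tiny β))
    (fun β e => eng D s β e u * (η * Htot D s e u + 2 * mB D s β)) := ⟨_, rfl⟩
  obtain ⟨TA0, hTA0⟩ : ∃ y, y = SS (fun β => confA0 D s β u)
    (univ.filter (fun β => D.tiny β)) (fun β e => eng D s β e u) := ⟨_, rfl⟩
  obtain ⟨TA1, hTA1⟩ : ∃ y, y = SS (fun β => confA D s β u \ confA0 D s β u)
    (univ.filter (fun β => D.tiny β)) (fun β e => eng D s β e u) := ⟨_, rfl⟩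
  obtain ⟨TB, hTB⟩ : ∃ y, y = SS (fun β => confB D s β u)
    (univ.filter (fun β => D.tiny β)) (fun β e => eng D s β e u) := ⟨_, rfl⟩
  obtain ⟨QT, hQT⟩ : ∃ y, y = SS (fun β => confB D s β u)
    (univ.filter (fun β => D.tiny β))
    (fun β e => eng D s β e u * Htot D s e u) := ⟨_, rfl⟩
  rw [← hEA0, ← hEA1, ← hEB] at sN
  rw [← hTA0, ← hTA1, ← hTB] at sT
  rw [← hEA0] at a3'
  rw [← hTA0] at a4'
  rw [← hEA1, ← hEB, ← hQB, ← hEA0] at P1
  rw [← hTA1, ← hTB, ← hQT, ← hTA0] at P2
  have nEA0 : 0 ≤ EA0 := by rw [hEA0]; exact SS_nonneg hen0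
  have nEA1 : 0 ≤ EA1 := by rw [hEA1]; exact SS_nonneg hen0
  have nEB : 0 ≤ EB := by rw [hEB]; exact SS_nonneg hen0
  have nTA0 : 0 ≤ TA0 := by rw [hTA0]; exact SS_nonneg hen0
  have nTA1 : 0 ≤ TA1 := by rw [hTA1]; exact SS_nonneg hen0
  have nTB : 0 ≤ TB := by rw [hTB]; exact SS_nonneg hen0
  have nQT : 0 ≤ QT := by rw [hQT]; exact SS_nonneg (fun β e => mul_nonneg (hen0 β e) (hHt0 e))
  have nQB : 0 ≤ QB := by
    rw [hQB]
    unfold SS
    apply Finset.sum_nonneg
    intro β hβ
    apply Finset.sum_nonneg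
    intro e _
    apply mul_nonneg (hen0 β e)
    have := mul_nonneg hη0.le (hHt0 e)
    have := (e5 β (Finset.mem_filter.1 hβ).2).1
    linarith
  clear hEA0 hEA1 hEB hQB hTA0 hTA1 hTB hQT hbn hbt a1 a2
  obtain ⟨⟨P1a, P1b⟩, P2a, P2b⟩ := And.intro P1 P2
  clear P1 P2
  -- the functions at `u`
  obtain ⟨h, hh⟩ : ∃ y, y = hN D s u := ⟨_, rfl⟩
  obtain ⟨hT', hhT⟩ : ∃ y, y = hT D s u := ⟨_, rfl⟩
  obtain ⟨hb', hhb⟩ : ∃ y, y = hb D s u := ⟨_, rfl⟩
  obtain ⟨w, hw⟩ : ∃ y, y = s.w u := ⟨_, rfl⟩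
  have hw0 : 0 ≤ w := by rw [hw]; exact hs.w_nonneg u
  have hwst : ∀ x, (stepS D R s x).w u = if blk D s x u then 0 else w * (1 + (1 - η) * h) := by
    intro x
    show (if blk D s x u then 0 else s.w u * (1 + (1 - 1 / Real.log R) * hN D s u)) = _
    rw [← hLR, ← hη, ← hh, ← hw]
  obtain ⟨lg, hlg⟩ : ∃ y, y = Real.log (1 + (1 - η) * h) := ⟨_, rfl⟩
  have hLst : ∀ x, (stepS D R s x).L u = s.L u + lg := by
    intro x
    show s.L u + Real.log (1 + (1 - 1 / Real.log R) * hN D s u) = _
    rw [← hLR, ← hη, ← hh, ← hlg]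
  rw [← hh] at f1 f2 f4 a3' P2a
  rw [← hhT] at f3 f4 hT0 a4'
  rw [← hhb] at f2 f3 f4 f5 P1a
  have hηh : 0 ≤ (1 - η) * h := mul_nonneg (by linarith) f1
  have hηh2 : (1 - η) * h ≤ h := by
    have := mul_nonneg hη0.le f1
    linarith
  have hlg0 : 0 ≤ lg := by
    rw [hlg]
    apply Real.log_nonneg
    linarith
  have hlg1 : lg ≤ h := by
    rw [hlg]
    have := Real.log_le_sub_one_of_pos (show 0 < 1 + (1 - η) * h by linarith)
    linarith
  by_cases hwz : w = 0
  · have hz1 : ∀ x, yt D R (stepS D R s x) u = 0 := by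
      intro x
      unfold yt
      rw [hwst x, hwz]
      split_ifs <;> ring
    have hz2 : yt D R s u = 0 := by
      unfold yt
      rw [← hw, hwz, zero_mul]
    simp [hz1, hz2]
  have hG1 := hs.G_lt u hu.le (by rw [← hw]; exact hwz)
  obtain ⟨G, hG⟩ : ∃ y, y = GG D R s u := ⟨_, rfl⟩
  obtain ⟨l, hl⟩ : ∃ y, y = s.L u * b := ⟨_, rfl⟩
  have hL0 := hs.L_nonneg u
  have nl : 0 ≤ l := by rw [hl]; positivity
  have hdiv : ∀ y : ℝ, y / (Real.log R / 100) = y * b := by
    intro y
    rw [← hLR, hbdef]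
    field_simp
  have hGform : G = EA0 * b + EA1 * b + EB * b + l + TA0 + TA1 + TB := by
    rw [hG]
    unfold GG
    rw [hdiv, sN, sT, hl]
    ring
  rw [← hG] at hG1
  have nA0b : 0 ≤ EA0 * b := by positivity
  have nA1b : 0 ≤ EA1 * b := by positivity
  have nBb : 0 ≤ EB * b := by positivity
  have hG0 : 0 ≤ G := by rw [hGform]; linarith
  have hyt : yt D R s u = w * (1 - G) := by
    unfold yt
    rw [← hw, ← hG, max_eq_right (by linarith)]
  -- probability of not being blocked
  have hpu : ∑ x ∈ (lst D s.t).filter (fun x => ¬ blk D s x u), pr D s x = 1 - hb' := by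
    have := Finset.sum_filter_add_sum_filter_not (lst D s.t) (fun x => blk D s x u) (pr D s)
    rw [e2] at this
    rw [hhb]
    unfold hb
    linarith
  have hpu0 : 0 ≤ 1 - hb' := by linarith
  have hpr' : ∀ x ∈ (lst D s.t).filter (fun x => ¬ blk D s x u), 0 ≤ pr D s x :=
    fun x hx => hpr x (Finset.mem_filter.1 hx).1
  -- functions after the step
  have hG' : ∀ x, GG D R (stepS D R s x) u = (FN D (stepS D R s x) u + (s.L u + lg)) * b
      + FT D (stepS D R s x) u := by
    intro x
    unfold GG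
    rw [hdiv, hLst]
  have hGs : G = (FN D s u + s.L u) * b + FT D s u := by
    rw [hG]
    unfold GG
    rw [hdiv]
  obtain ⟨c, hc⟩ : ∃ y, y = 1 + (1 - η) * h := ⟨_, rfl⟩
  have hc1 : 1 ≤ c := by rw [hc]; linarith
  have hc2 : c ≤ 101/100 := by rw [hc]; linarith
  -- split of the sums
  have hsplit : ∀ F : X → ℝ, ∑ x ∈ lst D s.t, F x
      = ∑ x ∈ (lst D s.t).filter (fun x => blk D s x u), F x
        + ∑ x ∈ (lst D s.t).filter (fun x => ¬ blk D s x u), F x := fun F =>
    (Finset.sum_filter_add_sum_filter_not (lst D s.t) (fun x => blk D s x u) F).symm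
  have hblk : ∀ x ∈ (lst D s.t).filter (fun x => blk D s x u),
      yt D R (stepS D R s x) u = 0 := by
    intro x hx
    unfold yt
    rw [hwst x, if_pos (Finset.mem_filter.1 hx).2, zero_mul]
  have hunb : ∀ x ∈ (lst D s.t).filter (fun x => ¬ blk D s x u),
      yt D R (stepS D R s x) u = w * c * max 0 (1 - GG D R (stepS D R s x) u) := by
    intro x hx
    unfold yt
    rw [hwst x, if_neg (Finset.mem_filter.1 hx).2, ← hc]
  have hbs : ∑ x ∈ (lst D s.t).filter (fun x => blk D s x u), pr D s x = hb' := by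
    rw [hhb]
    rfl
  -- lower bound for the expected increase
  have low : w * (29/100 * h * b + 19/10 * hT' + 49/100 * (EA0 * b) + 86/100 * (EA1 * b)
      + 49/100 * (QB * b) + 49/100 * TA0 + 86/100 * TA1 + 1/10 * η * QT)
      ≤ ∑ x ∈ lst D s.t, pr D s x * (yt D R (stepS D R s x) u - yt D R s u) := by
    have hEB1 : EB * b ≤ 1 := by linarith
    have hTB1 : TB ≤ 1 := by linarith
    have r := real_low (b := b) (h := h) (hT := hT') (hb := hb') (η := η) (a0 := EA0 * b)
      (a1 := EA1 * b) (eb := EB * b) (qb := QB * b) (l := l) (lgb := lg * b) (TA0 := TA0)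
      (TA1 := TA1) (TB := TB) (QT := QT)
      (P := (∑ x ∈ (lst D s.t).filter (fun x => ¬ blk D s x u),
        pr D s x * FN D (stepS D R s x) u) * b)
      (Q := ∑ x ∈ (lst D s.t).filter (fun x => ¬ blk D s x u),
        pr D s x * FT D (stepS D R s x) u) (G := G)
      hb0 f1 hT0 f2 f4 (by linarith) (by linarith) hηb hη1
      (by
        have k1 : h * LR ≤ 1/30 := by
          refine le_trans ?_ hsl
          exact mul_le_mul_of_nonneg_right (f2.trans f5) hLR0.le
        rw [hbdef, div_div, le_div_iff₀ (by positivity)]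
        linarith)
      (by
        have := mul_le_mul_of_nonneg_right a3' hb0.le
        linarith)
      a4' nA1b nBb hEB1 (by positivity) nl
      (mul_le_mul_of_nonneg_right hlg1 hb0.le) nTA1 nTB hTB1 nQT hGform hG1.le
      (by
        have := mul_le_mul_of_nonneg_right P1a hb0.le
        linarith)
      (by linarith)
    have hwr := mul_le_mul_of_nonneg_left r hw0
    refine hwr.trans ?_
    -- now the sum
    rw [hsplit]
    have k1 : ∑ x ∈ (lst D s.t).filter (fun x => blk D s x u),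
        pr D s x * (yt D R (stepS D R s x) u - yt D R s u) = - (hb' * (w * (1 - G))) := by
      have : ∀ x ∈ (lst D s.t).filter (fun x => blk D s x u),
          pr D s x * (yt D R (stepS D R s x) u - yt D R s u)
            = pr D s x * (- (w * (1 - G))) := by
        intro x hx
        rw [hblk x hx, hyt, zero_sub]
      rw [Finset.sum_congr rfl this, ← Finset.sum_mul, hbs]
      ring
    have k2 : ∑ x ∈ (lst D s.t).filter (fun x => ¬ blk D s x u),
        (pr D s x * (w * c * (1 - (s.L u + lg) * b) - w * (1 - G))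
          - (w * c * b) * (pr D s x * FN D (stepS D R s x) u)
          - (w * c) * (pr D s x * FT D (stepS D R s x) u))
        ≤ ∑ x ∈ (lst D s.t).filter (fun x => ¬ blk D s x u),
        pr D s x * (yt D R (stepS D R s x) u - yt D R s u) := by
      apply Finset.sum_le_sum
      intro x hx
      rw [hunb x hx, hyt]
      have k3 : w * c * (1 - GG D R (stepS D R s x) u)
          ≤ w * c * max 0 (1 - GG D R (stepS D R s x) u) :=
        mul_le_mul_of_nonneg_left (le_max_right _ _) (by positivity)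
      rw [hG' x] at k3 ⊢
      have k4 := mul_le_mul_of_nonneg_left k3 (hpr' x hx)
      refine le_trans (le_of_eq ?_) (le_trans (sub_le_sub_right k4
        (pr D s x * (w * (1 - G)))) (le_of_eq ?_))
      · ring
      · ring
    rw [Finset.sum_sub_distrib, Finset.sum_sub_distrib, ← Finset.sum_mul, ← Finset.mul_sum,
      ← Finset.mul_sum, hpu] at k2
    rw [k1]
    refine le_trans (le_of_eq ?_) (add_le_add_right k2 _)
    rw [hc, hl]
    ring
  -- upper bound for the expected absolute change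
  have up : ∑ x ∈ lst D s.t, pr D s x * |yt D R (stepS D R s x) u - yt D R s u|
      ≤ w * (hb' + h + 101/100 * ((EA0 + 113/100 * EA1 + 3 * LR * QB + h) * b
      + (TA0 + 113/100 * TA1 + 3 * QT))) := by
    rw [hsplit]
    have k1 : ∑ x ∈ (lst D s.t).filter (fun x => blk D s x u),
        pr D s x * |yt D R (stepS D R s x) u - yt D R s u| ≤ w * hb' := by
      have : ∀ x ∈ (lst D s.t).filter (fun x => blk D s x u),
          pr D s x * |yt D R (stepS D R s x) u - yt D R s u|
            ≤ pr D s x * w := by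
        intro x hx
        apply mul_le_mul_of_nonneg_left _ (hpr x (Finset.mem_filter.1 hx).1)
        rw [hblk x hx, hyt, zero_sub, abs_neg, abs_of_nonneg (by
          apply mul_nonneg hw0
          linarith)]
        have := mul_nonneg hw0 hG0
        linarith
      refine (Finset.sum_le_sum this).trans ?_
      rw [← Finset.sum_mul, hbs, mul_comm]
    have k2 : ∑ x ∈ (lst D s.t).filter (fun x => ¬ blk D s x u),
        pr D s x * |yt D R (stepS D R s x) u - yt D R s u| ≤
        ∑ x ∈ (lst D s.t).filter (fun x => ¬ blk D s x u),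
        (pr D s x * (w * (h + 101/100 * (h * b)))
          + (w * (101/100) * b) * (pr D s x * |FN D (stepS D R s x) u - FN D s u|)
          + (w * (101/100)) * (pr D s x * |FT D (stepS D R s x) u - FT D s u|)) := by
      apply Finset.sum_le_sum
      intro x hx
      rw [hunb x hx, hyt]
      obtain ⟨dN, hdN⟩ : ∃ y, y = |FN D (stepS D R s x) u - FN D s u| := ⟨_, rfl⟩
      obtain ⟨dT, hdT⟩ : ∃ y, y = |FT D (stepS D R s x) u - FT D s u| := ⟨_, rfl⟩
      have hdN0 : 0 ≤ dN := by rw [hdN]; exact abs_nonneg _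
      have hdT0 : 0 ≤ dT := by rw [hdT]; exact abs_nonneg _
      have k3 : |max 0 (1 - GG D R (stepS D R s x) u) - (1 - G)| ≤ (dN + h) * b + dT := by
        have k4 : (1 - G) = max (1 - G) 0 := (max_eq_left (by linarith)).symm
        rw [k4, max_comm]
        refine (abs_max_sub_max_le_abs _ _ _).trans ?_
        rw [sub_sub_sub_cancel_left, hG' x, hGs]
        have k5 : (FN D s u + s.L u) * b + FT D s u - ((FN D (stepS D R s x) u + (s.L u + lg)) * b
            + FT D (stepS D R s x) u) = -((FN D (stepS D R s x) u - FN D s u) * b) - lg * b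
              - (FT D (stepS D R s x) u - FT D s u) := by ring
        rw [k5]
        have k6 := abs_sub (-((FN D (stepS D R s x) u - FN D s u) * b) - lg * b)
          (FT D (stepS D R s x) u - FT D s u)
        have k7 := abs_sub (-((FN D (stepS D R s x) u - FN D s u) * b)) (lg * b)
        rw [abs_neg, abs_mul, abs_of_pos hb0, ← hdN] at k7
        rw [← hdT] at k6
        rw [abs_of_nonneg (by positivity : 0 ≤ lg * b)] at k7
        have k8 : lg * b ≤ h * b := mul_le_mul_of_nonneg_right hlg1 hb0.le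
        linarith
      rw [← hdN, ← hdT]
      have k4 : |w * c * max 0 (1 - GG D R (stepS D R s x) u) - w * (1 - G)|
          ≤ w * (h + 101/100 * ((dN + h) * b + dT)) := by
        have k5 : w * c * max 0 (1 - GG D R (stepS D R s x) u) - w * (1 - G)
          = w * (c * (max 0 (1 - GG D R (stepS D R s x) u) - (1 - G)) + (c - 1) * (1 - G)) := by
          ring
        rw [k5, abs_mul, abs_of_nonneg hw0]
        apply mul_le_mul_of_nonneg_left _ hw0
        refine (abs_add_le _ _).trans ?_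
        rw [abs_mul, abs_of_nonneg (by linarith : 0 ≤ c), abs_of_nonneg (by
          apply mul_nonneg <;> linarith : 0 ≤ (c - 1) * (1 - G))]
        have k6 : (c - 1) * (1 - G) ≤ h := by
          have k8 : c - 1 ≤ h := by rw [hc]; linarith
          have k9 := mul_nonneg (sub_nonneg.2 hc1) hG0
          linarith
        have k7 : c * |max 0 (1 - GG D R (stepS D R s x) u) - (1 - G)|
            ≤ 101/100 * ((dN + h) * b + dT) :=
          mul_le_mul hc2 k3 (abs_nonneg _) (by norm_num)
        linarith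
      have k5 := mul_le_mul_of_nonneg_left k4 (hpr' x hx)
      refine k5.trans (le_of_eq ?_)
      ring
    rw [Finset.sum_add_distrib, Finset.sum_add_distrib, ← Finset.sum_mul, ← Finset.mul_sum,
      ← Finset.mul_sum, hpu] at k2
    have k3 : (w * (101/100) * b) * (∑ x ∈ (lst D s.t).filter (fun x => ¬ blk D s x u),
        pr D s x * |FN D (stepS D R s x) u - FN D s u|)
        ≤ (w * (101/100) * b) * (EA0 + 113/100 * EA1 + 3 * LR * QB) :=
      mul_le_mul_of_nonneg_left P1b (by positivity)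
    have k4 : (w * (101/100)) * (∑ x ∈ (lst D s.t).filter (fun x => ¬ blk D s x u),
        pr D s x * |FT D (stepS D R s x) u - FT D s u|)
        ≤ (w * (101/100)) * (TA0 + 113/100 * TA1 + 3 * QT) :=
      mul_le_mul_of_nonneg_left P2b (by positivity)
    have k5 : (1 - hb') * (w * (h + 101/100 * (h * b))) ≤ w * (h + 101/100 * (h * b)) := by
      have k8 : 0 ≤ w * (h + 101/100 * (h * b)) := by positivity
      have k9 := mul_nonneg (f1.trans f2) k8
      linarith
    linarith
  have r := real_up (LR := LR) (b := b) (h := h) (hT := hT') (hb := hb') (η := η) (EA0 := EA0)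
    (EA1 := EA1) (QB := QB) (TA0 := TA0) (TA1 := TA1) (QT := QT) hlog hb0 hLb hLη f1 hT0 f4
    nEA0 nEA1 nQB nTA0 nTA1 nQT
  calc _ ≤ _ := up
    _ ≤ w * (40 * LR * (29/100 * h * b + 19/10 * hT' + 49/100 * (EA0 * b) + 86/100 * (EA1 * b)
      + 49/100 * (QB * b) + 49/100 * TA0 + 86/100 * TA1 + 1/10 * η * QT)) :=
        mul_le_mul_of_nonneg_left r hw0
    _ = 40 * LR * (w * (29/100 * h * b + 19/10 * hT' + 49/100 * (EA0 * b) + 86/100 * (EA1 * b)
      + 49/100 * (QB * b) + 49/100 * TA0 + 86/100 * TA1 + 1/10 * η * QT)) := by ring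
    _ ≤ 40 * LR * ∑ x ∈ lst D s.t, pr D s x * (yt D R (stepS D R s x) u - yt D R s u) :=
        mul_le_mul_of_nonneg_left low (by positivity)
    _ = _ := by rw [hLR]

end

end Pool.Agent.TH987.MP325
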