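import Pool.Agent.TH987.Tot
import Pool.Agent.W424.NC.NearC

/-!
The bound for the second derivative in the window.
-/

namespace Pool.Agent.TH987

open H973N H974 H12S Finset
open H973N.NP

theorem far_small (c : ℝ) (s : ℕ) : ∃ j0 : ℕ, ∀ j : ℕ, j0 ≤ j →
    c * (16:ℝ)^(j + s) * (2 * (1/4)^(2^j)) ≤ 1 := by
  have h1 : Filter.Tendsto (fun j : ℕ => (|c| * 16^s * 2 * 5040) * ((1:ℝ)/8)^j) Filter.atTop
      (nhds ((|c| * 16^s * 2 * 5040) * 0)) :=
    (tendsto_pow_atTop_nhds_zero_of_lt_one (by norm_num) (by norm_num)).const_mul _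
  rw [mul_zero] at h1
  have h2 := (h1.eventually (ge_mem_nhds (show (0:ℝ) < 1 by norm_num)))
  obtain ⟨j0, hj0⟩ := Filter.eventually_atTop.1 h2
  refine ⟨j0, fun j hj => ?_⟩
  refine le_trans ?_ (hj0 j hj)
  have h3 := pow7_le (2^j)
  have h4 : ((1:ℝ)/4)^(2^j) ≤ 5040 * (1/128)^j := by
    rw [one_div_pow, one_div_pow, ← div_eq_mul_one_div, div_le_div_iff₀ (by positivity)
      (by positivity), one_mul]
    have : (((2^j : ℕ)) : ℝ)^7 = 128^j := by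
      push_cast
      rw [← pow_mul, mul_comm j 7, pow_mul]; norm_num
    rw [this] at h3
    exact h3
  calc c * (16:ℝ)^(j + s) * (2 * (1/4)^(2^j)) ≤ |c| * (16:ℝ)^(j + s) * (2 * (5040 * (1/128)^j)) := by
        apply mul_le_mul
        · exact mul_le_mul_of_nonneg_right (le_abs_self c) (by positivity)
        · linarith
        · positivity
        · positivity
    _ = |c| * 16^s * 2 * 5040 * (16^j * (1/128)^j) := by rw [pow_add]; ring
    _ = _ := by rw [← mul_pow]; norm_num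

theorem phi2_bound (κ A E : ℝ) (hκ : 0 < κ) (hA : 1 ≤ A) (hE : 1 ≤ E) : ∃ C : ℝ, 0 < C ∧
    ∀ K0 : ℕ, ∃ I0 : ℕ, ∀ I : ℕ, I0 ≤ I → ∀ (q : ℝ) (n N : ℕ), Sc κ A E q n K0 N →
    phi2 (boxE (2^K0)) (boxE (8 * 2^I)) q ≤ C * 4^K0 * ((2:ℝ)^K0) ^ (1/4 : ℝ) := by
  obtain ⟨C, hC, hnear⟩ := near_total κ A E hκ hA hE
  refine ⟨C + 1, by positivity, ?_⟩
  intro K0
  obtain ⟨s, hs⟩ : ∃ s : ℕ, E ≤ 2^s := by
    obtain ⟨s, hs⟩ := pow_unbounded_of_one_lt E (show (1:ℝ) < 2 by norm_num)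
    exact ⟨s, hs.le⟩
  obtain ⟨t, ht⟩ : ∃ t : ℕ, t = 2 + K0 + s := ⟨_, rfl⟩
  obtain ⟨j0, hj0⟩ := far_small (18 * 4^K0 * (18 * 64)^2) t
  refine ⟨j0 + t + 7, ?_⟩
  intro I hI q n N hSc
  have h0 : 0 ≤ q := by linarith [hSc.win.lo]
  have h1 : q ≤ 1 := by linarith [hSc.win.hi]
  have hok : Ok (fun _ : Edg => q) := fun _ => ⟨h0, h1⟩
  obtain ⟨j, hj⟩ : ∃ j : ℕ, j = I - t := ⟨_, rfl⟩
  have hIj : I = j + t := by omega
  have hK0I : K0 ≤ I := by omega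
  set S := boxE (8 * 2^I) with hS
  set G := boxE (2^K0) with hG
  have hGS : G ⊆ S := by
    rw [hG, hS]
    apply boxE_mono
    have : 2^K0 ≤ 2^I := Nat.pow_le_pow_right (by norm_num) hK0I
    omega
  have hGabs : ∀ e ∈ G, |e.1| ≤ 2^K0 ∧ |e.2.1| ≤ 2^K0 := by
    intro e he
    have := boxE_abs he
    push_cast at this
    exact this
  have hGcard : (G.card : ℝ) ≤ 18 * 4^K0 := by
    have := card_box (2^K0) Nat.one_le_two_pow G (fun g hg => by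
      have := boxE_abs hg
      exact this)
    refine this.trans (le_of_eq ?_)
    push_cast
    rw [← pow_mul, mul_comm K0 2, pow_mul]
    norm_num
  have hScard : (S.card : ℝ) ≤ 18 * 64 * 4^I := by
    have := card_box (8 * 2^I) (by have := Nat.one_le_two_pow (n := I); omega) S (fun g hg => by
      have := boxE_abs hg
      exact this)
    refine this.trans (le_of_eq ?_)
    push_cast
    rw [mul_pow, ← pow_mul, mul_comm I 2, pow_mul]
    norm_num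
    ring
  -- the crossing bound
  have hN2I : 4 * (2^j * N) ≤ 2^I := by
    have h3 : ((4 * (2^j * N) : ℕ) : ℝ) ≤ ((2^I : ℕ) : ℝ) := by
      push_cast
      calc (4:ℝ) * (2^j * N) ≤ 4 * (2^j * (2^s * 2^K0)) := by
            have : (N:ℝ) ≤ 2^s * 2^K0 :=
              hSc.hNE.trans (mul_le_mul_of_nonneg_right hs (by positivity))
            have h2j : (0:ℝ) ≤ 2^j := by positivity
            nlinarith [mul_le_mul_of_nonneg_left this h2j]
        _ = 2^I := by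
            rw [hIj, ht, show (4:ℝ) = 2^2 by norm_num, ← pow_add, ← pow_add, ← pow_add]
            congr 1; omega
    exact_mod_cast h3
  have hjN : 2 ≤ 2^j * N := by
    calc 2 ≤ N := hSc.hN
      _ ≤ 2^j * N := Nat.le_mul_of_pos_left _ (by positivity)
  have hcross : ∀ e ∈ G, ∀ f k : Edg, 2^I ≤ dst e f → tt q S e f k ≤ 2 * (1/4)^(2^j) := by
    intro e he f k hf
    obtain ⟨g1, g2⟩ := hGabs e he
    have hpos : (1:ℤ) ≤ 2^K0 := one_le_pow₀ (by norm_num)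
    have hKI : (2:ℤ)^K0 ≤ 2^I := pow_le_pow_right₀ (by norm_num) hK0I
    have e2 : 2^(j+1) * N = 2 * (2^j * N) := by rw [pow_succ]; ring
    have c1 : (2^j * N - 1) < (2 * (2^j * N) - 1) := by omega
    have c2 : (2 * (2^j * N) - 1) < (4 * (2^j * N) - 1) := by omega
    refine (tt_le h0 h1 S e f k).trans ?_
    refine (crude h0 h1 (R1 := 2^j * N - 1) (R2 := 2 * (2^j * N) - 1)
      (R3 := 4 * (2^j * N) - 1) c1 c2 (S := S) ?_ ?_).trans ?_
    · have hR3 : (((4 * (2^j * N) - 1 : ℕ)) : ℤ) ≤ 2^I := by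
        have : 4 * (2^j * N) - 1 ≤ 2^I := by omega
        exact_mod_cast this
      have a1 := abs_le.1 g1
      have a2 := abs_le.1 g2
      rw [hS]
      unfold blk bp boxE
      push_cast
      push_cast at hR3
      apply RE_subset <;> linarith
    · intro hfb
      have := dst_bp hfb
      rw [FPX.dst_comm] at this
      have hR3 : (((4 * (2^j * N) - 1 : ℕ)) : ℤ) < 2^I := by
        have : 4 * (2^j * N) - 1 < 2^I := by omega
        exact_mod_cast this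
      linarith
    · have b1 : bet q (2^j * N - 1) (2 * (2^j * N) - 1) ≤ (1/4)^(2^j) :=
        W424.NC.pr_nblk_pow h0 h1 hSc.hN hSc.he j (Finset.Subset.refl _)
      have b2 : bet q (2 * (2^j * N) - 1) (4 * (2^j * N) - 1) ≤ (1/4)^(2^j) := by
        have h3 := W424.NC.pr_nblk_pow h0 h1 hSc.hN hSc.he (j+1)
          (S := annE (2^(j+1) * N - 1) (2 * (2^(j+1) * N) - 1)) (Finset.Subset.refl _)
        rw [e2, show 2 * (2 * (2^j * N)) = 4 * (2^j * N) by ring] at h3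
        refine (show bet q (2 * (2^j * N) - 1) (4 * (2^j * N) - 1) ≤ _ from h3).trans ?_
        apply pow_le_pow_of_le_one (by norm_num) (by norm_num)
        exact Nat.pow_le_pow_right (by norm_num) (by omega)
      linarith
  have hfar : ∀ e ∈ G, ∀ f k : Edg, tt q S e f k ≤
      ind (dst e f < 2^I ∧ dst e k < 2^I) * tt q S e f k + 2 * (1/4)^(2^j) := by
    intro e he f k
    have hp : (0:ℝ) < 2 * (1/4)^(2^j) := by positivity
    by_cases h : dst e f < 2^I ∧ dst e k < 2^I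
    · rw [ind_of h]; linarith
    · rw [ind_not_of h, zero_mul, zero_add]
      by_cases h2 : dst e f < 2^I
      · have h3 : 2^I ≤ dst e k := by
          by_contra h4
          exact h ⟨h2, not_le.1 h4⟩
        rw [tt_comm]
        exact hcross e he k f h3
      · exact hcross e he f k (not_lt.1 h2)
  have n1 := near_split h0 h1 G S hGS (2^I)
  have n2 := hnear q n K0 N hSc I (by omega) hK0I
  have hone : (1:ℝ) ≤ ((2:ℝ)^K0) ^ (1/4 : ℝ) :=
    Real.one_le_rpow (one_le_pow₀ (by norm_num)) (by norm_num)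
  have h4K : (1:ℝ) ≤ 4^K0 := one_le_pow₀ (by norm_num)
  calc phi2 G S q ≤ ∑ e ∈ G, ∑ f ∈ S, ∑ k ∈ S, tt q S e f k := phi2_le h0 h1 G S
    _ ≤ ∑ e ∈ G, ∑ f ∈ S, ∑ k ∈ S,
        (ind (dst e f < 2^I ∧ dst e k < 2^I) * tt q S e f k + 2 * (1/4)^(2^j)) :=
        Finset.sum_le_sum fun e he => Finset.sum_le_sum fun f _ => Finset.sum_le_sum fun k _ =>
          hfar e he f k
    _ = ∑ e ∈ G, ∑ f ∈ S, ∑ k ∈ S, ind (dst e f < 2^I ∧ dst e k < 2^I) * tt q S e f k +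
        (G.card : ℝ) * ((S.card : ℝ) * ((S.card : ℝ) * (2 * (1/4)^(2^j)))) := by
        simp only [Finset.sum_add_distrib, Finset.sum_const, nsmul_eq_mul]
    _ ≤ C * 4^K0 * ((2:ℝ)^K0) ^ (1/4 : ℝ) + 1 := by
        apply add_le_add (n1.trans n2)
        have hf := hj0 j (by omega)
        refine le_trans ?_ hf
        have hp : (0:ℝ) ≤ 2 * (1/4)^(2^j) := by positivity
        obtain ⟨P, hP⟩ : ∃ P : ℝ, P = 2 * (1/4)^(2^j) := ⟨_, rfl⟩
        rw [← hP] at hp ⊢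
        have hS0 : (0:ℝ) ≤ (S.card : ℝ) := Nat.cast_nonneg _
        calc (G.card : ℝ) * ((S.card : ℝ) * ((S.card : ℝ) * P))
            ≤ (18 * 4^K0) * ((18 * 64 * 4^I) * ((18 * 64 * 4^I) * P)) := by
              apply mul_le_mul hGcard _ (mul_nonneg hS0 (mul_nonneg hS0 hp)) (by positivity)
              apply mul_le_mul hScard _ (mul_nonneg hS0 hp) (by positivity)
              exact mul_le_mul_of_nonneg_right hScard hp
          _ = 18 * 4^K0 * (18 * 64)^2 * (16:ℝ)^(j + t) * P := by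
              rw [← hIj]
              have : (16:ℝ)^I = 4^I * 4^I := by rw [← mul_pow]; norm_num
              rw [this]
              ring
    _ ≤ (C + 1) * 4^K0 * ((2:ℝ)^K0) ^ (1/4 : ℝ) := by
        have : (1:ℝ) ≤ 4^K0 * ((2:ℝ)^K0) ^ (1/4 : ℝ) := one_le_mul_of_one_le_of_one_le h4K hone
        nlinarith

/-- The scales in the window. -/
theorem scale_exists : ∃ κ A E B x0 : ℝ, 0 < κ ∧ 1 ≤ A ∧ 1 ≤ E ∧ 0 < B ∧ 0 < x0 ∧ x0 ≤ 1/4 ∧
    ∀ x : ℝ, 0 < x → x ≤ x0 → ∃ K0 : ℕ, (2:ℝ)^K0 ≤ B * x^(-(4/3 : ℝ)) ∧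
      ∀ q : ℝ, 1/2 - x ≤ q → q ≤ 1/2 - x/4 → ∃ N : ℕ, Sc κ A E q (12 * 2^K0) K0 N := by
  obtain ⟨κ, b, c, C, hκ, hb, hc, hC, hnear⟩ := W424.NC.nearS
  obtain ⟨E0, hE0, hfar⟩ := W424.NC.farN
  obtain ⟨x0, hx0⟩ : ∃ x0 : ℝ, x0 = min (1/4) (b * 12^(-(3/4 : ℝ))) := ⟨_, rfl⟩
  have hx0p : 0 < x0 := by rw [hx0]; exact lt_min (by norm_num) (by positivity)
  refine ⟨κ, max 1 C, max 1 (E0 * (4:ℝ)^(4/3 : ℝ) * 24 * b^(-(4/3 : ℝ))), b^(4/3 : ℝ), x0, hκ,
    le_max_left _ _, le_max_left _ _, by positivity, hx0p, by rw [hx0]; exact min_le_left _ _, ?_⟩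
  intro x hx hxx0
  obtain ⟨L, hL⟩ : ∃ L : ℝ, L = (b / x)^(4/3 : ℝ) := ⟨_, rfl⟩
  have hbx : 0 < b / x := by positivity
  have hL0 : 0 < L := by rw [hL]; positivity
  have hL12 : 12 ≤ L := by
    have h1 : x ≤ b * 12^(-(3/4 : ℝ)) := hxx0.trans (by rw [hx0]; exact min_le_right _ _)
    have h2 : (12:ℝ)^(3/4 : ℝ) ≤ b / x := by
      rw [le_div_iff₀ hx]
      calc (12:ℝ)^(3/4 : ℝ) * x ≤ 12^(3/4 : ℝ) * (b * 12^(-(3/4 : ℝ))) :=
            mul_le_mul_of_nonneg_left h1 (by positivity)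
        _ = b * (12^(3/4 : ℝ) * 12^(-(3/4 : ℝ))) := by ring
        _ = b := by rw [← Real.rpow_add (by norm_num)]; norm_num
    have h3 : ((12:ℝ)^(3/4 : ℝ))^(4/3 : ℝ) ≤ (b / x)^(4/3 : ℝ) :=
      Real.rpow_le_rpow (by positivity) h2 (by norm_num)
    rw [← Real.rpow_mul (by norm_num)] at h3
    norm_num at h3
    rw [hL]
    exact h3
  obtain ⟨K0, hK0⟩ : ∃ K0 : ℕ, K0 = Nat.log 2 ⌊L / 12⌋₊ := ⟨_, rfl⟩
  have hfl : ⌊L / 12⌋₊ ≠ 0 := by
    have : 1 ≤ ⌊L / 12⌋₊ := by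
      rw [Nat.one_le_floor_iff]
      linarith
    omega
  have k1 : (2:ℝ)^K0 ≤ L / 12 := by
    have h1 : 2^K0 ≤ ⌊L / 12⌋₊ := by rw [hK0]; exact Nat.pow_log_le_self 2 hfl
    have h2 : ((2^K0 : ℕ) : ℝ) ≤ (⌊L / 12⌋₊ : ℝ) := by exact_mod_cast h1
    push_cast at h2
    exact h2.trans (Nat.floor_le (by positivity))
  have k2 : L / 12 < 2 * 2^K0 := by
    have h1 : ⌊L / 12⌋₊ < 2^(K0+1) := by rw [hK0]; exact Nat.lt_pow_succ_log_self (by norm_num) _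
    have h2 : (⌊L / 12⌋₊ : ℝ) + 1 ≤ ((2^(K0+1) : ℕ) : ℝ) := by exact_mod_cast h1
    push_cast at h2
    rw [pow_succ] at h2
    have := Nat.lt_floor_add_one (L / 12)
    linarith
  have hLx : L = b^(4/3 : ℝ) * x^(-(4/3 : ℝ)) := by
    rw [hL, Real.div_rpow hb.le hx.le, Real.rpow_neg hx.le]
    rfl
  refine ⟨K0, ?_, ?_⟩
  · rw [← hLx]
    linarith
  intro q hq1 hq2
  have hx4 : x ≤ 1/4 := hxx0.trans (by rw [hx0]; exact min_le_left _ _)
  have hn1 : 1 ≤ 12 * 2^K0 := by have := Nat.one_le_two_pow (n := K0); omega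
  have hwin : |q - 1/2| ≤ b * (((12 * 2^K0 : ℕ)) : ℝ)^(-(3/4 : ℝ)) := by
    have h1 : |q - 1/2| ≤ x := by
      rw [abs_le]; constructor <;> linarith
    refine h1.trans ?_
    have h2 : (((12 * 2^K0 : ℕ)) : ℝ) ≤ L := by push_cast; linarith
    have hnpos : (0:ℝ) < (((12 * 2^K0 : ℕ)) : ℝ) := by exact_mod_cast hn1
    have h3 : L^(-(3/4 : ℝ)) ≤ (((12 * 2^K0 : ℕ)) : ℝ)^(-(3/4 : ℝ)) :=
      Real.rpow_le_rpow_of_nonpos hnpos h2 (by norm_num)
    have h4 : L^(-(3/4 : ℝ)) = x / b := by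
      rw [hL, ← Real.rpow_mul hbx.le]
      norm_num
      rw [Real.rpow_neg_one, inv_div]
    rw [h4] at h3
    calc x = b * (x / b) := by field_simp
      _ ≤ _ := mul_le_mul_of_nonneg_left h3 hb.le
  obtain ⟨hW, ha⟩ := hnear (12 * 2^K0) hn1 q hwin
  obtain ⟨N, hN2, hNE, _, heps⟩ := hfar q (by linarith) (by linarith)
  refine ⟨N, ⟨hW, le_rfl, ?_, hN2, ?_, heps⟩⟩
  · intro k hk
    have h1 : 2^k ≤ 12 * 2^K0 := by
      have : 2^k ≤ 2^K0 := Nat.pow_le_pow_right (by norm_num) hk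
      omega
    have h2 := (ha (2^k) Nat.one_le_two_pow h1).2
    push_cast at h2
    refine h2.trans ?_
    exact mul_le_mul_of_nonneg_right (le_max_right _ _) (by positivity)
  · have hs : x / 4 ≤ 1/2 - q := by linarith
    have hs0 : 0 < x / 4 := by positivity
    have h1 : (x/4)^(4/3 : ℝ) ≤ (1/2 - q)^(4/3 : ℝ) := Real.rpow_le_rpow hs0.le hs (by norm_num)
    have h2 : (N:ℝ) * (x/4)^(4/3 : ℝ) ≤ E0 :=
      (mul_le_mul_of_nonneg_left h1 (Nat.cast_nonneg N)).trans hNE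
    have h3 : (N:ℝ) ≤ E0 * (4:ℝ)^(4/3 : ℝ) * x^(-(4/3 : ℝ)) := by
      have h4 : (x/4)^(4/3 : ℝ) * ((4:ℝ)^(4/3 : ℝ) * x^(-(4/3 : ℝ))) = 1 := by
        rw [Real.div_rpow hx.le (by norm_num), Real.rpow_neg hx.le]
        have h5 : (0:ℝ) < x^(4/3 : ℝ) := by positivity
        have h6 : (0:ℝ) < (4:ℝ)^(4/3 : ℝ) := by positivity
        field_simp
      have h5 : 0 ≤ (4:ℝ)^(4/3 : ℝ) * x^(-(4/3 : ℝ)) := by positivity
      calc (N:ℝ) = ((N:ℝ) * (x/4)^(4/3 : ℝ)) * ((4:ℝ)^(4/3 : ℝ) * x^(-(4/3 : ℝ))) := by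
            rw [mul_assoc, h4, mul_one]
        _ ≤ E0 * ((4:ℝ)^(4/3 : ℝ) * x^(-(4/3 : ℝ))) := mul_le_mul_of_nonneg_right h2 h5
        _ = _ := by ring
    have h4 : x^(-(4/3 : ℝ)) ≤ 24 * b^(-(4/3 : ℝ)) * 2^K0 := by
      have h5 : x^(-(4/3 : ℝ)) = b^(-(4/3 : ℝ)) * L := by
        rw [hLx, ← mul_assoc, ← Real.rpow_add hb]
        norm_num
      rw [h5]
      have h6 : 0 < b^(-(4/3 : ℝ)) := by positivity
      nlinarith
    calc (N:ℝ) ≤ E0 * (4:ℝ)^(4/3 : ℝ) * x^(-(4/3 : ℝ)) := h3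
      _ ≤ E0 * (4:ℝ)^(4/3 : ℝ) * (24 * b^(-(4/3 : ℝ)) * 2^K0) := by
          apply mul_le_mul_of_nonneg_left h4
          have : 0 ≤ E0 := by linarith
          positivity
      _ = (E0 * (4:ℝ)^(4/3 : ℝ) * 24 * b^(-(4/3 : ℝ))) * 2^K0 := by ring
      _ ≤ _ := mul_le_mul_of_nonneg_right (le_max_right _ _) (by positivity)

end Pool.Agent.TH987
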