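import Mathlib

/-!
Functions with small chord defects are differentiable with Lipschitz derivative.
-/

namespace Pool.Agent.TH987

open Filter Topology

theorem slope_lip {g : ℝ → ℝ} {A B M : ℝ}
    (h : ∀ u w v, A ≤ u → u ≤ w → w ≤ v → v ≤ B →
      |(v - u) * g w - (v - w) * g u - (w - u) * g v| ≤ M * ((v - u) * (v - w) * (w - u)))
    {a t t' : ℝ} (ha : A ≤ a) (ha' : a ≤ B) (ht : A ≤ t) (ht' : t' ≤ B) (htt : t < t')
    (hta : t ≠ a) (hta' : t' ≠ a) :
    |(g t - g a) / (t - a) - (g t' - g a) / (t' - a)| ≤ M * (t' - t) := by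
  have h1 : t - a ≠ 0 := sub_ne_zero.2 hta
  have h2 : t' - a ≠ 0 := sub_ne_zero.2 hta'
  have key : ∀ P Q : ℝ, 0 < P → |Q| ≤ M * (P * (t' - t)) →
      ((g t - g a) / (t - a) - (g t' - g a) / (t' - a)) * P = Q →
      |(g t - g a) / (t - a) - (g t' - g a) / (t' - a)| ≤ M * (t' - t) := by
    intro P Q hP hQ he
    rw [← he, abs_mul, abs_of_pos hP] at hQ
    have : |(g t - g a) / (t - a) - (g t' - g a) / (t' - a)| * P ≤ (M * (t' - t)) * P := by
      refine hQ.trans (le_of_eq ?_)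
      ring
    exact le_of_mul_le_mul_right this hP
  rcases lt_or_gt_of_ne hta with c1 | c1
  · rcases lt_or_gt_of_ne hta' with c2 | c2
    · have h3 := h t t' a ht htt.le c2.le ha'
      apply key ((a - t) * (a - t')) _ (mul_pos (by linarith) (by linarith))
        (by refine h3.trans (le_of_eq ?_); ring)
      field_simp
      ring
    · have h3 := h t a t' ht c1.le c2.le ht'
      apply key ((t' - a) * (a - t)) _ (mul_pos (by linarith) (by linarith))
        (by refine h3.trans (le_of_eq ?_); ring)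
      field_simp
      ring
  · have c2 : a < t' := c1.trans htt
    have h3 := h a t t' ha c1.le htt.le ht'
    apply key ((t' - a) * (t - a)) _ (mul_pos (by linarith) (by linarith))
      (by refine h3.trans (le_of_eq ?_); ring)
    field_simp
    ring

theorem slope_lip' {g : ℝ → ℝ} {A B M : ℝ} 
    (h : ∀ u w v, A ≤ u → u ≤ w → w ≤ v → v ≤ B →
      |(v - u) * g w - (v - w) * g u - (w - u) * g v| ≤ M * ((v - u) * (v - w) * (w - u)))
    {a t t' : ℝ} (ha : A ≤ a) (ha' : a ≤ B) (ht : A ≤ t) (ht1 : t ≤ B) (ht' : t' ≤ B)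
    (ht2 : A ≤ t') (hta : t ≠ a) (hta' : t' ≠ a) :
    |(g t - g a) / (t - a) - (g t' - g a) / (t' - a)| ≤ M * |t' - t| := by
  rcases lt_trichotomy t t' with c | c | c
  · rw [abs_of_pos (sub_pos.2 c)]
    exact slope_lip h ha ha' ht ht' c hta hta'
  · rw [c, sub_self, sub_self, abs_zero, mul_zero]
  · rw [abs_sub_comm t' t, abs_of_pos (sub_pos.2 c), abs_sub_comm]
    exact slope_lip h ha ha' ht2 ht1 c hta' hta

theorem diff_of_chord {g : ℝ → ℝ} {A B M : ℝ} (hM : 0 ≤ M)
    (h : ∀ u w v, A ≤ u → u ≤ w → w ≤ v → v ≤ B →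
      |(v - u) * g w - (v - w) * g u - (w - u) * g v| ≤ M * ((v - u) * (v - w) * (w - u)))
    {a : ℝ} (ha : A < a) (ha' : a < B) :
    HasDerivAt g (deriv g a) a ∧ ∀ t, A ≤ t → t ≤ B → t ≠ a →
      |(g t - g a) / (t - a) - deriv g a| ≤ M * |t - a| := by
  obtain ⟨s, hs⟩ : ∃ s : ℕ → ℝ, s = fun n : ℕ => a + (B - a) / ((n:ℝ) + 1) := ⟨_, rfl⟩
  have hBa : 0 < B - a := by linarith
  have hsa : ∀ n, a < s n := by
    intro n
    rw [hs]
    simp only
    have : 0 < (B - a) / ((n:ℝ) + 1) := by positivity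
    linarith
  have hsB : ∀ n, s n ≤ B := by
    intro n
    rw [hs]
    simp only
    have : (B - a) / ((n:ℝ) + 1) ≤ B - a := by
      apply div_le_self hBa.le
      have : (0:ℝ) ≤ n := by positivity
      linarith
    linarith
  have hslim : Tendsto s atTop (𝓝 a) := by
    rw [hs]
    have h1 : Tendsto (fun n : ℕ => (B - a) / ((n:ℝ) + 1)) atTop (𝓝 0) := by
      have := (tendsto_one_div_add_atTop_nhds_zero_nat (𝕜 := ℝ)).const_mul (B - a)
      rw [mul_zero] at this
      refine this.congr ?_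
      intro n
      ring
    have := h1.const_add a
    rwa [add_zero] at this
  obtain ⟨σ, hσ⟩ : ∃ σ : ℕ → ℝ, σ = fun n => (g (s n) - g a) / (s n - a) := ⟨_, rfl⟩
  have hc : CauchySeq σ := by
    rw [Metric.cauchySeq_iff]
    intro ε hε
    have hsc := hslim.cauchySeq
    rw [Metric.cauchySeq_iff] at hsc
    obtain ⟨N, hN⟩ := hsc (ε / (M + 1)) (by positivity)
    refine ⟨N, ?_⟩
    intro m hm n hn
    have h1 := hN n hn m hm
    rw [Real.dist_eq] at h1 ⊢
    have h2 := slope_lip' h ha.le ha'.le (ha.le.trans (hsa m).le) (hsB m) (hsB n)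
      (ha.le.trans (hsa n).le) (hsa m).ne' (hsa n).ne'
    rw [hσ]
    refine h2.trans_lt ?_
    rw [lt_div_iff₀ (by positivity)] at h1
    have := abs_nonneg (s n - s m)
    nlinarith
  obtain ⟨L, hL⟩ := cauchySeq_tendsto_of_complete hc
  have hbound : ∀ t, A ≤ t → t ≤ B → t ≠ a → |(g t - g a) / (t - a) - L| ≤ M * |t - a| := by
    intro t h1 h2 h3
    have h4 : Tendsto (fun n => |(g t - g a) / (t - a) - σ n|) atTop
        (𝓝 (|(g t - g a) / (t - a) - L|)) := (hL.const_sub _).abs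
    have h5 : Tendsto (fun n => M * |s n - t|) atTop (𝓝 (M * |a - t|)) :=
      ((hslim.sub_const t).abs).const_mul M
    rw [abs_sub_comm t a]
    refine le_of_tendsto_of_tendsto' h4 h5 ?_
    intro n
    rw [hσ]
    exact slope_lip' h ha.le ha'.le h1 h2 (hsB n) (ha.le.trans (hsa n).le) h3 (hsa n).ne'
  have hd : HasDerivAt g L a := by
    rw [hasDerivAt_iff_tendsto_slope, tendsto_iff_norm_sub_tendsto_zero]
    have h1 : Tendsto (fun t => M * |t - a|) (𝓝[≠] a) (𝓝 0) := by
      have h2 : Tendsto (fun t : ℝ => M * |t - a|) (𝓝 a) (𝓝 (M * |a - a|)) := by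
        apply Continuous.tendsto
        fun_prop
      rw [sub_self, abs_zero, mul_zero] at h2
      exact h2.mono_left nhdsWithin_le_nhds
    refine squeeze_zero' (Eventually.of_forall (fun t => norm_nonneg _)) ?_ h1
    have h2 : ∀ᶠ t in 𝓝[≠] a, A < t ∧ t < B :=
      nhdsWithin_le_nhds ((lt_mem_nhds ha).and (gt_mem_nhds ha'))
    filter_upwards [h2, self_mem_nhdsWithin] with t h3 h4
    rw [Real.norm_eq_abs, slope_def_field]
    exact hbound t h3.1.le h3.2.le h4
  rw [hd.deriv]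
  exact ⟨hd, hbound⟩

theorem deriv_lip_of_chord {g : ℝ → ℝ} {A B M : ℝ} (hM : 0 ≤ M)
    (h : ∀ u w v, A ≤ u → u ≤ w → w ≤ v → v ≤ B →
      |(v - u) * g w - (v - w) * g u - (w - u) * g v| ≤ M * ((v - u) * (v - w) * (w - u)))
    {a b : ℝ} (ha : A < a) (ha' : a < B) (hb : A < b) (hb' : b < B) :
    |deriv g a - deriv g b| ≤ 2 * M * |a - b| := by
  by_cases hab : a = b
  · rw [hab, sub_self, sub_self, abs_zero, mul_zero]
  have h1 := (diff_of_chord hM h ha ha').2 b hb.le hb'.le (Ne.symm hab)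
  have h2 := (diff_of_chord hM h hb hb').2 a ha.le ha'.le hab
  have h3 : (g b - g a) / (b - a) = (g a - g b) / (a - b) := by
    rw [← neg_sub (g a), ← neg_sub a, neg_div_neg_eq]
  rw [h3, abs_sub_comm b a] at h1
  have h4 : deriv g a - deriv g b = ((g a - g b) / (a - b) - deriv g b) -
      ((g a - g b) / (a - b) - deriv g a) := by ring
  rw [h4]
  refine (abs_sub _ _).trans ?_
  linarith

end Pool.Agent.TH987
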