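import Pool.Agent.TH987.Kap
import Pool.Agent.TH987.Slope

/-!
Regularity of the mean number of clusters per vertex near the critical point.
-/

namespace Pool.Agent.TH987

open H973N H974 H12S Finset Filter Topology
open H973N.NP

theorem gg_deriv_half {b D : ℝ}
    (h : ∀ q, 0 ≤ q → q ≤ 1 → |gg q - 1/2 - b * (q - 1/2)| ≤ D * |q - 1/2|^(5/3 : ℝ)) :
    HasDerivAt gg b (1/2) := by
  rw [hasDerivAt_iff_tendsto_slope, tendsto_iff_norm_sub_tendsto_zero]
  have h1 : Tendsto (fun t : ℝ => D * |t - 1/2|^(2/3 : ℝ)) (𝓝[≠] (1/2)) (𝓝 0) := by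
    have h2 : Tendsto (fun t : ℝ => D * |t - 1/2|^(2/3 : ℝ)) (𝓝 (1/2))
        (𝓝 (D * |(1/2 : ℝ) - 1/2|^(2/3 : ℝ))) := by
      apply Tendsto.const_mul
      apply Tendsto.rpow_const
      · apply Continuous.tendsto
        fun_prop
      · right; norm_num
    rw [sub_self, abs_zero, Real.zero_rpow (by norm_num), mul_zero] at h2
    exact h2.mono_left nhdsWithin_le_nhds
  refine squeeze_zero' (Eventually.of_forall (fun t => norm_nonneg _)) ?_ h1
  have h2 : ∀ᶠ t : ℝ in 𝓝[≠] (1/2), 0 < t ∧ t < 1 :=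
    nhdsWithin_le_nhds ((lt_mem_nhds (by norm_num)).and (gt_mem_nhds (by norm_num)))
  filter_upwards [h2, self_mem_nhdsWithin] with t h3 h4
  have h5 : t - 1/2 ≠ 0 := sub_ne_zero.2 h4
  have h6 : 0 < |t - 1/2| := abs_pos.2 h5
  have h7 := h t h3.1.le h3.2.le
  rw [Real.norm_eq_abs, slope_def_field, gg_half]
  have h8 : (gg t - 1/2) / (t - 1/2) - b = (gg t - 1/2 - b * (t - 1/2)) / (t - 1/2) := by
    rw [sub_div _ (b * (t - 1/2)), mul_div_assoc b, div_self h5, mul_one]
  rw [h8, abs_div, div_le_iff₀ h6]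
  refine h7.trans (le_of_eq ?_)
  rw [mul_assoc]
  congr 1
  nth_rewrite 3 [← Real.rpow_one |t - 1/2|]
  rw [← Real.rpow_add h6]
  norm_num

theorem gg_deriv_dual {q L : ℝ} (h0 : 0 < q) (h1 : q < 1) (h : HasDerivAt gg L (1 - q)) :
    HasDerivAt gg L q := by
  have h2 : HasDerivAt (fun t => 1 - gg (1 - t)) L q := by
    have h3 := (h.comp_const_sub 1 q).const_sub 1
    simpa using h3
  refine h2.congr_of_eventuallyEq ?_
  have h3 : ∀ᶠ t in 𝓝 q, 0 < t ∧ t < 1 := (lt_mem_nhds h0).and (gt_mem_nhds h1)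
  filter_upwards [h3] with t ht
  have := gg_dual ht.1.le ht.2.le
  linarith

theorem deriv_gg_dual {q : ℝ} (h0 : 0 < q) (h1 : q < 1) : deriv gg (1 - q) = deriv gg q := by
  have h2 : (fun t => 1 - gg (1 - t)) =ᶠ[𝓝 q] gg := by
    have h3 : ∀ᶠ t in 𝓝 q, 0 < t ∧ t < 1 := (lt_mem_nhds h0).and (gt_mem_nhds h1)
    filter_upwards [h3] with t ht
    have := gg_dual ht.1.le ht.2.le
    linarith
  rw [← h2.deriv_eq, deriv_const_sub, deriv_comp_const_sub, neg_neg]

/-- The regularity of `gg` at the critical point. -/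
theorem gg_C11 : ∃ b C x1 : ℝ, 0 < C ∧ 0 < x1 ∧ x1 ≤ 1/8 ∧
    (∀ q, 0 ≤ q → q ≤ 1 → |gg q - 1/2 - b * (q - 1/2)| ≤ C * |q - 1/2|^(5/3 : ℝ)) ∧
    HasDerivAt gg b (1/2) ∧
    (∀ q, |q - 1/2| < x1 → DifferentiableAt ℝ gg q) ∧
    (∀ q, |q - 1/2| < x1 → |deriv gg q - b| ≤ C * |q - 1/2|^(2/3 : ℝ)) ∧
    (∀ q q', q ≠ 1/2 → |q - 1/2| < x1 → |q' - q| ≤ |q - 1/2| / 4 →
      |deriv gg q' - deriv gg q| ≤ C * |q - 1/2|^(-(1/3) : ℝ) * |q' - q|) := by
  obtain ⟨b, D, hD, hb⟩ := gg_expand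
  obtain ⟨C, x0, hC, hx0, hx04, hch⟩ := chordS
  have hhalf := gg_deriv_half hb
  have hx1 : 0 < x0 / 2 := by linarith
  -- left of the critical point
  have hM : ∀ y : ℝ, 0 < y → C * (2*y)^(-(1/3 : ℝ)) ≤ C * y^(-(1/3 : ℝ)) := by
    intro y hy
    apply mul_le_mul_of_nonneg_left _ hC.le
    exact Real.rpow_le_rpow_of_nonpos hy (by linarith) (by norm_num)
  have hchy : ∀ y : ℝ, 0 < y → y < x0/2 → ∀ u w v, 1/2 - 2*y ≤ u → u ≤ w → w ≤ v →
      v ≤ 1/2 - y/2 →
      |(v - u) * gg w - (v - w) * gg u - (w - u) * gg v| ≤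
        C * (2*y)^(-(1/3 : ℝ)) * ((v - u) * (v - w) * (w - u)) := by
    intro y hy hy1 u w v h1 h2 h3 h4
    exact hch (2*y) (by linarith) (by linarith) u v w h1 h2 h3 (by linarith)
  have hdl : ∀ y : ℝ, 0 < y → y < x0/2 → HasDerivAt gg (deriv gg (1/2 - y)) (1/2 - y) := by
    intro y hy hy1
    exact (diff_of_chord (by positivity) (hchy y hy hy1) (a := 1/2 - y) (by linarith)
      (by linarith)).1
  have hdb : ∀ y : ℝ, 0 < y → y < x0/2 → |deriv gg (1/2 - y) - b| ≤
      (C + 4 * D) * y^(2/3 : ℝ) := by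
    intro y hy hy1
    have h1 := (diff_of_chord (by positivity) (hchy y hy hy1) (a := 1/2 - y) (by linarith)
      (by linarith)).2 (1/2 - y/2) (by linarith) (by linarith) (by linarith)
    have e1 : (1/2 - y/2 - (1/2 - y)) = y/2 := by ring
    rw [e1, abs_of_pos (by linarith : 0 < y/2)] at h1
    have h2 := hb (1/2 - y) (by linarith) (by linarith)
    have h3 := hb (1/2 - y/2) (by linarith) (by linarith)
    have e2 : (1/2 - y - 1/2) = -y := by ring
    have e3 : (1/2 - y/2 - 1/2) = -(y/2) := by ring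
    rw [e2, abs_neg, abs_of_pos hy] at h2
    rw [e3, abs_neg, abs_of_pos (by linarith : 0 < y/2)] at h3
    have h4 : (y/2)^(5/3 : ℝ) ≤ y^(5/3 : ℝ) :=
      Real.rpow_le_rpow (by linarith) (by linarith) (by norm_num)
    have h5 : y^(5/3 : ℝ) = y * y^(2/3 : ℝ) := by
      nth_rewrite 2 [← Real.rpow_one y]
      rw [← Real.rpow_add hy]
      norm_num
    have h6 : |(gg (1/2 - y/2) - gg (1/2 - y)) / (y/2) - b| ≤ 4 * D * y^(2/3 : ℝ) := by
      have e4 : (gg (1/2 - y/2) - gg (1/2 - y)) / (y/2) - b =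
          ((gg (1/2 - y/2) - 1/2 - b * -(y/2)) - (gg (1/2 - y) - 1/2 - b * -y)) / (y/2) := by
        field_simp
        ring
      rw [e4, abs_div, abs_of_pos (by linarith : 0 < y/2), div_le_iff₀ (by linarith)]
      refine (abs_sub _ _).trans ?_
      rw [h5] at h2 h4
      calc _ ≤ D * (y/2)^(5/3 : ℝ) + D * (y * y^(2/3 : ℝ)) := add_le_add h3 h2
        _ ≤ D * (y * y^(2/3 : ℝ)) + D * (y * y^(2/3 : ℝ)) :=
            add_le_add_left (mul_le_mul_of_nonneg_left h4 hD.le) _
        _ = _ := by ring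
    have h7 : C * (2*y)^(-(1/3 : ℝ)) * (y/2) ≤ C * y^(2/3 : ℝ) := by
      calc C * (2*y)^(-(1/3 : ℝ)) * (y/2) ≤ C * y^(-(1/3 : ℝ)) * (y/2) :=
            mul_le_mul_of_nonneg_right (hM y hy) (by linarith)
        _ ≤ C * y^(-(1/3 : ℝ)) * y := by
            apply mul_le_mul_of_nonneg_left (by linarith) (by positivity)
        _ = C * y^(2/3 : ℝ) := by
            rw [mul_assoc]
            congr 1
            nth_rewrite 2 [← Real.rpow_one y]
            rw [← Real.rpow_add hy]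
            norm_num
    have h8 : deriv gg (1/2 - y) - b = ((gg (1/2 - y/2) - gg (1/2 - y)) / (y/2) - b) -
        ((gg (1/2 - y/2) - gg (1/2 - y)) / (y/2) - deriv gg (1/2 - y)) := by ring
    rw [h8]
    refine (abs_sub _ _).trans ?_
    linarith
  have hlip : ∀ y y' : ℝ, 0 < y → y < x0/2 → |y' - y| ≤ y/4 →
      |deriv gg (1/2 - y') - deriv gg (1/2 - y)| ≤ 2 * C * y^(-(1/3) : ℝ) * |y' - y| := by
    intro y y' hy hy1 hyy
    rw [abs_le] at hyy
    have h1 := deriv_lip_of_chord (by positivity) (hchy y hy hy1) (a := 1/2 - y')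
      (b := 1/2 - y) (by linarith) (by linarith) (by linarith) (by linarith)
    have e1 : 1/2 - y' - (1/2 - y) = -(y' - y) := by ring
    rw [e1, abs_neg] at h1
    refine h1.trans ?_
    apply mul_le_mul_of_nonneg_right _ (abs_nonneg _)
    have := hM y hy
    linarith
  refine ⟨b, 2 * C + 4 * D, x0/2, by positivity, hx1, by linarith, ?_, hhalf, ?_, ?_, ?_⟩
  · intro q h0 h1
    refine (hb q h0 h1).trans ?_
    apply mul_le_mul_of_nonneg_right (by linarith) (by positivity)
  · intro q hq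
    rw [abs_lt] at hq
    rcases lt_trichotomy q (1/2) with c | c | c
    · have := hdl (1/2 - q) (by linarith) (by linarith)
      rw [sub_sub_cancel] at this
      exact this.differentiableAt
    · rw [c]; exact hhalf.differentiableAt
    · have := hdl (q - 1/2) (by linarith) (by linarith)
      rw [show 1/2 - (q - 1/2) = 1 - q by ring] at this
      exact (gg_deriv_dual (by linarith) (by linarith) this).differentiableAt
  · intro q hq
    have hq' := hq
    rw [abs_lt] at hq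
    rcases lt_trichotomy q (1/2) with c | c | c
    · have := hdb (1/2 - q) (by linarith) (by linarith)
      rw [sub_sub_cancel] at this
      rw [abs_sub_comm q, abs_of_pos (by linarith : 0 < 1/2 - q)]
      refine this.trans ?_
      exact mul_le_mul_of_nonneg_right (by linarith) (Real.rpow_nonneg (by linarith) _)
    · rw [c, hhalf.deriv]
      norm_num
    · have := hdb (q - 1/2) (by linarith) (by linarith)
      rw [show 1/2 - (q - 1/2) = 1 - q by ring, deriv_gg_dual (by linarith) (by linarith)] at this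
      rw [abs_of_pos (by linarith : 0 < q - 1/2)]
      refine this.trans ?_
      exact mul_le_mul_of_nonneg_right (by linarith) (Real.rpow_nonneg (by linarith) _)
  · intro q q' hne hq hqq
    have hq' := hq
    rw [abs_lt] at hq
    rcases lt_or_gt_of_ne hne with c | c
    · rw [abs_sub_comm q, abs_of_pos (by linarith : 0 < 1/2 - q)] at hqq ⊢
      have h1 := hlip (1/2 - q) (1/2 - q') (by linarith) (by linarith) (by
        rw [show 1/2 - q' - (1/2 - q) = -(q' - q) by ring, abs_neg]; exact hqq)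
      rw [sub_sub_cancel, sub_sub_cancel, show 1/2 - q' - (1/2 - q) = -(q' - q) by ring,
        abs_neg] at h1
      refine h1.trans ?_
      apply mul_le_mul_of_nonneg_right _ (abs_nonneg _)
      exact mul_le_mul_of_nonneg_right (by linarith) (Real.rpow_nonneg (by linarith) _)
    · rw [abs_of_pos (by linarith : 0 < q - 1/2)] at hqq ⊢
      have hqq2 := hqq
      rw [abs_le] at hqq2
      have h1 := hlip (q - 1/2) (q' - 1/2) (by linarith) (by linarith) (by
        rw [show q' - 1/2 - (q - 1/2) = q' - q by ring]; exact hqq)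
      rw [show 1/2 - (q' - 1/2) = 1 - q' by ring, show 1/2 - (q - 1/2) = 1 - q by ring,
        show q' - 1/2 - (q - 1/2) = q' - q by ring, deriv_gg_dual (by linarith) (by linarith),
        deriv_gg_dual (by linarith) (by linarith)] at h1
      refine h1.trans ?_
      apply mul_le_mul_of_nonneg_right _ (abs_nonneg _)
      exact mul_le_mul_of_nonneg_right (by linarith) (Real.rpow_nonneg (by linarith) _)

/-! ### The mean number of clusters per vertex -/

theorem kap_deriv {q : ℝ} (h0 : 0 < q) (h1 : q < 1) : HasDerivAt kap (-2 + 2 * gg q) q := by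
  have h2 : HasDerivAt (fun u => ∫ t in (0:ℝ)..u, gg t) (gg q) q := by
    apply intervalIntegral.integral_hasDerivAt_right
    · exact gg_int ⟨le_rfl, zero_le_one⟩ ⟨h0.le, h1.le⟩
    · exact ContinuousAt.stronglyMeasurableAtFilter isOpen_Ioo
        (fun x hx => gg_cont hx.1 hx.2) q ⟨h0, h1⟩
    · exact gg_cont h0 h1
  have h3 : HasDerivAt (fun q : ℝ => 1 - 2 * q) (-2) q := by
    have := ((hasDerivAt_id q).const_mul 2).const_sub 1
    simpa using this
  exact h3.add (h2.const_mul 2)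

theorem deriv_kap {q : ℝ} (h0 : 0 < q) (h1 : q < 1) :
    deriv kap =ᶠ[𝓝 q] (fun t => -2 + 2 * gg t) := by
  have h3 : ∀ᶠ t in 𝓝 q, 0 < t ∧ t < 1 := (lt_mem_nhds h0).and (gt_mem_nhds h1)
  filter_upwards [h3] with t ht
  exact (kap_deriv ht.1 ht.2).deriv

theorem deriv2_kap {q : ℝ} (h0 : 0 < q) (h1 : q < 1) :
    deriv (deriv kap) q = 2 * deriv gg q := by
  rw [(deriv_kap h0 h1).deriv_eq, deriv_const_add, deriv_const_mul_field]

theorem kap_R {b D : ℝ} (hD : 0 < D)
    (h : ∀ q, 0 ≤ q → q ≤ 1 → |gg q - 1/2 - b * (q - 1/2)| ≤ D * |q - 1/2|^(5/3 : ℝ))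
    {p : ℝ} (h0 : 0 ≤ p) (h1 : p ≤ 1) :
    |kap p - kap (1/2) - (-1) * (p - 1/2) - 1/2 * (2 * b) * (p - 1/2)^2| ≤
      2 * D * |p - 1/2|^(8/3 : ℝ) := by
  have hp : p ∈ Set.Icc (0:ℝ) 1 := ⟨h0, h1⟩
  have hh : (1/2 : ℝ) ∈ Set.Icc (0:ℝ) 1 := by constructor <;> norm_num
  have hz : (0:ℝ) ∈ Set.Icc (0:ℝ) 1 := by constructor <;> norm_num
  have e1 : (∫ t in (0:ℝ)..p, gg t) - ∫ t in (0:ℝ)..(1/2), gg t = ∫ t in (1/2 : ℝ)..p, gg t :=
    intervalIntegral.integral_interval_sub_left (gg_int hz hp) (gg_int hz hh)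
  have hc : IntervalIntegrable (fun t : ℝ => (1/2 : ℝ)) MeasureTheory.volume (1/2) p :=
    continuous_const.intervalIntegrable _ _
  have hl : IntervalIntegrable (fun t : ℝ => b * (t - 1/2)) MeasureTheory.volume (1/2) p :=
    (by fun_prop : Continuous (fun t : ℝ => b * (t - 1/2))).intervalIntegrable _ _
  have e2 : ∫ t in (1/2 : ℝ)..p, (gg t - 1/2 - b * (t - 1/2)) =
      (∫ t in (1/2 : ℝ)..p, gg t) - 1/2 * (p - 1/2) - b * ((p - 1/2)^2 / 2) := by
    rw [intervalIntegral.integral_sub ((gg_int hh hp).sub hc) hl,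
      intervalIntegral.integral_sub (gg_int hh hp) hc]
    congr 1
    · congr 1
      rw [intervalIntegral.integral_const, smul_eq_mul]
      ring
    · rw [intervalIntegral.integral_const_mul]
      congr 1
      rw [intervalIntegral.integral_comp_sub_right (fun t => t)]
      rw [integral_id]
      ring
  have e3 : kap p - kap (1/2) - (-1) * (p - 1/2) - 1/2 * (2 * b) * (p - 1/2)^2 =
      2 * ∫ t in (1/2 : ℝ)..p, (gg t - 1/2 - b * (t - 1/2)) := by
    rw [e2, ← e1]
    unfold kap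
    ring
  have h5 : ‖∫ t in (1/2 : ℝ)..p, (gg t - 1/2 - b * (t - 1/2))‖ ≤
      D * |p - 1/2|^(5/3 : ℝ) * |p - 1/2| := by
    apply intervalIntegral.norm_integral_le_of_norm_le_const
    intro t ht
    rw [Real.norm_eq_abs]
    have ht2 : 0 ≤ t ∧ t ≤ 1 ∧ |t - 1/2| ≤ |p - 1/2| := by
      rcases le_total (1/2) p with c | c
      · rw [Set.uIoc_of_le c] at ht
        refine ⟨by linarith [ht.1], by linarith [ht.2], ?_⟩
        rw [abs_of_nonneg (by linarith [ht.1]), abs_of_nonneg (by linarith)]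
        linarith [ht.2]
      · rw [Set.uIoc_of_ge c] at ht
        refine ⟨by linarith [ht.1], by linarith [ht.2], ?_⟩
        rw [abs_sub_comm t, abs_sub_comm p, abs_of_nonneg (by linarith [ht.2]),
          abs_of_nonneg (by linarith)]
        linarith [ht.1]
    refine (h t ht2.1 ht2.2.1).trans ?_
    exact mul_le_mul_of_nonneg_left (Real.rpow_le_rpow (abs_nonneg _) ht2.2.2 (by norm_num)) hD.le
  rw [e3, abs_mul, abs_of_pos (by norm_num : (0:ℝ) < 2)]
  rw [Real.norm_eq_abs] at h5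
  have h6 : D * |p - 1/2|^(5/3 : ℝ) * |p - 1/2| = D * |p - 1/2|^(8/3 : ℝ) := by
    rcases eq_or_lt_of_le (abs_nonneg (p - 1/2)) with c | c
    · rw [← c, Real.zero_rpow (by norm_num), Real.zero_rpow (by norm_num)]
      ring
    · rw [mul_assoc]
      congr 1
      nth_rewrite 2 [← Real.rpow_one |p - 1/2|]
      rw [← Real.rpow_add c]
      norm_num
  rw [h6] at h5
  linarith

end Pool.Agent.TH987
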