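import Pool.Agent.H974R2.Static
import Pool.Agent.H973R3.NC.Defs

/-!
The number of clusters meeting a finite set of vertices; third differences.
-/

namespace Pool.Agent.TH987

open H973N H974 H12S Finset

theorem reachIns {F : Set Edg} {e : Edg} {x y : Vtx} : Reach (insert e F) x y ↔
    Reach F x y ∨ (Reach F x (src e) ∧ Reach F (tgt e) y) ∨
      (Reach F x (tgt e) ∧ Reach F (src e) y) := GR_insert (s := src) (t := tgt)

/-- The vertices of `V` connected to `v`. -/
noncomputable def cls (V : Finset Vtx) (F : Set Edg) (v : Vtx) : Finset Vtx := by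
  classical exact V.filter (fun w => Reach F v w)

/-- The number of clusters which meet `V`. -/
noncomputable def nc (V : Finset Vtx) (F : Set Edg) : ℕ := (V.image (cls V F)).card

theorem mem_cls {V : Finset Vtx} {F : Set Edg} {v w : Vtx} :
    w ∈ cls V F v ↔ w ∈ V ∧ Reach F v w := by
  classical
  unfold cls
  simp only [Finset.mem_filter]

theorem cls_eq {V : Finset Vtx} {F : Set Edg} {v w : Vtx} (hw : w ∈ V) :
    cls V F v = cls V F w ↔ Reach F v w := by
  constructor
  · intro h
    have : w ∈ cls V F w := mem_cls.2 ⟨hw, Reach.refl _ _⟩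
    rw [← h] at this
    exact (mem_cls.1 this).2
  · intro h
    ext x
    rw [mem_cls, mem_cls]
    exact ⟨fun ⟨h1, h2⟩ => ⟨h1, h.symm.trans h2⟩, fun ⟨h1, h2⟩ => ⟨h1, h.trans h2⟩⟩

theorem nc_insert_of_reach {V : Finset Vtx} {F : Set Edg} {e : Edg}
    (h : Reach F (src e) (tgt e)) : nc V (insert e F) = nc V F := by
  have : cls V (insert e F) = cls V F := by
    funext v
    ext w
    rw [mem_cls, mem_cls, reachIns]
    constructor
    · rintro ⟨h1, h2 | ⟨h2, h3⟩ | ⟨h2, h3⟩⟩
      · exact ⟨h1, h2⟩
      · exact ⟨h1, h2.trans (h.trans h3)⟩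
      · exact ⟨h1, h2.trans (h.symm.trans h3)⟩
    · rintro ⟨h1, h2⟩
      exact ⟨h1, Or.inl h2⟩
  unfold nc
  rw [this]

theorem nc_insert_of_not {V : Finset Vtx} {F : Set Edg} {e : Edg} (hs : src e ∈ V)
    (ht : tgt e ∈ V) (h : ¬ Reach F (src e) (tgt e)) : nc V (insert e F) + 1 = nc V F := by
  classical
  set A := cls V F (src e) with hA
  set B := cls V F (tgt e) with hB
  have hAB : A ≠ B := by
    intro h'
    exact h ((cls_eq ht).1 h')
  have hAm : A ∈ V.image (cls V F) := Finset.mem_image_of_mem _ hs
  have hBm : B ∈ V.image (cls V F) := Finset.mem_image_of_mem _ ht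
  -- the new classes
  have hnew : V.image (cls V (insert e F)) =
      insert (A ∪ B) (((V.image (cls V F)).erase A).erase B) := by
    have key1 : ∀ v ∈ V, (Reach F v (src e) ∨ Reach F v (tgt e)) →
        cls V (insert e F) v = A ∪ B := by
      intro v _ hv
      ext w
      rw [mem_cls, Finset.mem_union, hA, hB, mem_cls, mem_cls, reachIns]
      rcases hv with hv | hv
      · constructor
        · rintro ⟨h1, h2 | ⟨h2, h3⟩ | ⟨h2, h3⟩⟩
          · exact Or.inl ⟨h1, hv.symm.trans h2⟩
          · exact Or.inr ⟨h1, h3⟩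
          · exact absurd (hv.symm.trans h2) h
        · rintro (⟨h1, h2⟩ | ⟨h1, h2⟩)
          · exact ⟨h1, Or.inl (hv.trans h2)⟩
          · exact ⟨h1, Or.inr (Or.inl ⟨hv, h2⟩)⟩
      · constructor
        · rintro ⟨h1, h2 | ⟨h2, h3⟩ | ⟨h2, h3⟩⟩
          · exact Or.inr ⟨h1, hv.symm.trans h2⟩
          · exact absurd (h2.symm.trans hv) h
          · exact Or.inl ⟨h1, h3⟩
        · rintro (⟨h1, h2⟩ | ⟨h1, h2⟩)
          · exact ⟨h1, Or.inr (Or.inr ⟨hv, h2⟩)⟩
          · exact ⟨h1, Or.inl (hv.trans h2)⟩
    have key2 : ∀ v, ¬ Reach F v (src e) → ¬ Reach F v (tgt e) →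
        cls V (insert e F) v = cls V F v := by
      intro v h1 h2
      ext w
      rw [mem_cls, mem_cls, reachIns]
      constructor
      · rintro ⟨h3, h4 | ⟨h4, _⟩ | ⟨h4, _⟩⟩
        · exact ⟨h3, h4⟩
        · exact absurd h4 h1
        · exact absurd h4 h2
      · rintro ⟨h3, h4⟩
        exact ⟨h3, Or.inl h4⟩
    ext X
    rw [Finset.mem_image, Finset.mem_insert, Finset.mem_erase, Finset.mem_erase, Finset.mem_image]
    constructor
    · rintro ⟨v, hv, rfl⟩
      by_cases h1 : Reach F v (src e) ∨ Reach F v (tgt e)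
      · exact Or.inl (key1 v hv h1)
      · push Not at h1
        rw [key2 v h1.1 h1.2]
        refine Or.inr ⟨?_, ?_, v, hv, rfl⟩
        · intro h2
          rw [hB] at h2
          exact h1.2 ((cls_eq ht).1 h2)
        · intro h2
          rw [hA] at h2
          exact h1.1 ((cls_eq hs).1 h2)
    · rintro (rfl | ⟨h1, h2, v, hv, rfl⟩)
      · exact ⟨src e, hs, key1 _ hs (Or.inl (Reach.refl _ _))⟩
      · refine ⟨v, hv, key2 v ?_ ?_⟩
        · intro h3
          exact h2 ((cls_eq hs).2 h3)
        · intro h3
          exact h1 ((cls_eq ht).2 h3)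
  unfold nc
  have hnot : A ∪ B ∉ ((V.image (cls V F)).erase A).erase B := by
    intro h1
    rw [Finset.mem_erase, Finset.mem_erase, Finset.mem_image] at h1
    obtain ⟨h1, h2, v, hv, h3⟩ := h1
    have hsA : src e ∈ A := by rw [hA, mem_cls]; exact ⟨hs, Reach.refl _ _⟩
    have : src e ∈ cls V F v := by rw [h3]; exact Finset.mem_union_left _ hsA
    rw [mem_cls] at this
    apply h2
    rw [← h3, hA]
    exact (cls_eq hs).2 this.2
  rw [hnew, Finset.card_insert_of_notMem hnot,
    Finset.card_erase_of_mem (Finset.mem_erase.2 ⟨hAB.symm, hBm⟩),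
    Finset.card_erase_of_mem hAm]
  have : 2 ≤ (V.image (cls V F)).card := by
    have h2 : ({A, B} : Finset (Finset Vtx)) ⊆ V.image (cls V F) := by
      intro X hX
      rw [Finset.mem_insert, Finset.mem_singleton] at hX
      rcases hX with rfl | rfl
      · exact hAm
      · exact hBm
    have h3 := Finset.card_le_card h2
    rwa [Finset.card_pair hAB] at h3
  omega

/-- The number of clusters, as a real number. -/
noncomputable def kk (V : Finset Vtx) (F : Finset Edg) : ℝ := (nc V (↑F : Set Edg) : ℝ)

/-- The ends of `e` are connected off `e`. -/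
def fE (e : Edg) (F : Finset Edg) : Prop := Reach (↑(F.erase e) : Set Edg) (src e) (tgt e)

theorem fE_mono (e : Edg) : ∀ F G : Finset Edg, F ⊆ G → fE e F → fE e G := by
  intro F G h hF
  exact Reach.mono (by exact_mod_cast Finset.erase_subset_erase _ h) hF

theorem fE_erase (e : Edg) (F : Finset Edg) : fE e (F.erase e) ↔ fE e F := by
  unfold fE
  rw [Finset.erase_idem]

theorem fE_insert (e : Edg) (F : Finset Edg) : fE e (insert e F) ↔ fE e F := by
  unfold fE
  rw [Finset.erase_insert_eq_erase]

theorem kk_insert {V : Finset Vtx} {F : Finset Edg} {e : Edg} (hs : src e ∈ V) (ht : tgt e ∈ V)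
    (he : e ∉ F) : kk V (insert e F) = kk V F - ind (¬ fE e F) := by
  have h1 : F.erase e = F := Finset.erase_eq_of_notMem he
  unfold kk fE
  rw [h1, Finset.coe_insert]
  by_cases h : Reach (↑F : Set Edg) (src e) (tgt e)
  · rw [nc_insert_of_reach h, ind_not_of (by simpa using h), sub_zero]
  · have h2 := nc_insert_of_not hs ht h
    rw [ind_of h]
    have h3 : ((nc V (insert e (↑F : Set Edg)) : ℕ) : ℝ) + 1 = nc V (↑F : Set Edg) := by
      exact_mod_cast h2
    linarith

/-- The indicator of `fE e` through the number of clusters. -/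
theorem ind_fE {V : Finset Vtx} {F : Finset Edg} {e : Edg} (hs : src e ∈ V) (ht : tgt e ∈ V)
    (he : e ∉ F) : ind (fE e F) = 1 + kk V (insert e F) - kk V F := by
  rw [kk_insert hs ht he, ind_not]
  ring

/-- Second difference of the indicator of `g` in the directions `f` and `k`. -/
noncomputable def D2 (g : Finset Edg → Prop) (f k : Edg) (F0 : Finset Edg) : ℝ :=
  ind (g (insert f (insert k F0))) - ind (g (insert f F0)) - ind (g (insert k F0)) + ind (g F0)

theorem SD_iff_D2 {g : Finset Edg → Prop} (hg : ∀ F G : Finset Edg, F ⊆ G → g F → g G)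
    {f k : Edg} (hfk : f ≠ k) {F0 F : Finset Edg} (h0 : F0 = (F.erase f).erase k) :
    SD g f k F ↔ D2 g f k F0 ≠ 0 := by
  have e11 : insert f (insert k F) = insert f (insert k F0) := by
    rw [h0]; ext x; simp only [mem_insert, mem_erase]; tauto
  have e10 : insert f (F.erase k) = insert f F0 := by
    rw [h0]; ext x; simp only [mem_insert, mem_erase]; tauto
  have e01 : insert k (F.erase f) = insert k F0 := by
    rw [h0]; ext x; simp only [mem_insert, mem_erase]; tauto
  have e01' : (insert k F).erase f = insert k F0 := by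
    rw [Finset.erase_insert_of_ne hfk.symm, e01]
  have e10' : (insert f F).erase k = insert f F0 := by
    rw [Finset.erase_insert_of_ne hfk, e10]
  have e00 : (F.erase k).erase f = F0 := by
    rw [h0, Finset.erase_right_comm]
  have e11' : insert k (insert f F) = insert f (insert k F0) := by
    rw [Finset.insert_comm, e11]
  have m1 : g F0 → g (insert f F0) := hg _ _ (Finset.subset_insert _ _)
  have m2 : g F0 → g (insert k F0) := hg _ _ (Finset.subset_insert _ _)
  have m3 : g (insert f F0) → g (insert f (insert k F0)) :=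
    hg _ _ (Finset.insert_subset_insert _ (Finset.subset_insert _ _))
  have m4 : g (insert k F0) → g (insert f (insert k F0)) :=
    hg _ _ (Finset.subset_insert _ _)
  unfold SD Pf D2
  rw [e11, e10, e01, e01', e10', e00, e11', ← h0]
  by_cases c00 : g F0
  · have c10 := m1 c00
    have c01 := m2 c00
    have c11 := m3 c10
    simp [c00, c10, c01, c11, ind_of]
  · by_cases c10 : g (insert f F0)
    · have c11 := m3 c10
      by_cases c01 : g (insert k F0)
      · simp [c00, c10, c01, c11, ind_of, ind_not_of]
      · simp [c00, c10, c01, c11, ind_of, ind_not_of]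
    · by_cases c01 : g (insert k F0)
      · have c11 := m4 c01
        simp [c00, c10, c01, c11, ind_of, ind_not_of]
      · by_cases c11 : g (insert f (insert k F0))
        · simp [c00, c10, c01, c11, ind_of, ind_not_of]
        · simp [c00, c10, c01, c11, ind_not_of]

theorem D2_fE {V : Finset Vtx} {e f k : Edg} (hs : src e ∈ V) (ht : tgt e ∈ V) (hef : e ≠ f)
    (hek : e ≠ k) {F0 : Finset Edg} (h0 : e ∉ F0) :
    D2 (fE e) f k F0 = kk V (insert e (insert f (insert k F0))) - kk V (insert f (insert k F0))
      - kk V (insert e (insert f F0)) + kk V (insert f F0) - kk V (insert e (insert k F0))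
      + kk V (insert k F0) + kk V (insert e F0) - kk V F0 := by
  unfold D2
  have n1 : e ∉ insert f (insert k F0) := by
    simp only [mem_insert]; tauto
  have n2 : e ∉ insert f F0 := by
    simp only [mem_insert]; tauto
  have n3 : e ∉ insert k F0 := by
    simp only [mem_insert]; tauto
  rw [ind_fE hs ht n1, ind_fE hs ht n2, ind_fE hs ht n3, ind_fE hs ht h0]
  ring

/-- The second difference of `fE e` does not see `e`. -/
theorem D2_fE_erase {e f k : Edg} (hef : e ≠ f) (hek : e ≠ k) (F0 : Finset Edg) :
    D2 (fE e) f k F0 = D2 (fE e) f k (F0.erase e) := by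
  have h1 : (insert f (insert k F0)).erase e = insert f (insert k (F0.erase e)) := by
    rw [Finset.erase_insert_of_ne hef.symm, Finset.erase_insert_of_ne hek.symm]
  have h2 : (insert f F0).erase e = insert f (F0.erase e) := by
    rw [Finset.erase_insert_of_ne hef.symm]
  have h3 : (insert k F0).erase e = insert k (F0.erase e) := by
    rw [Finset.erase_insert_of_ne hek.symm]
  unfold D2
  rw [← h1, ← h2, ← h3, ind_congr (fE_erase e _), ind_congr (fE_erase e _),
    ind_congr (fE_erase e _), ind_congr (fE_erase e _)]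

/-- Third differences are symmetric. -/
theorem SD_swap {e f k : Edg} (hef : e ≠ f) (hek : e ≠ k) (hfk : f ≠ k) (F : Finset Edg) :
    SD (fE e) f k F ↔ SD (fE f) e k F := by
  classical
  obtain ⟨V, hV⟩ : ∃ V : Finset Vtx, V = {src e, tgt e, src f, tgt f} := ⟨_, rfl⟩
  have m1 : src e ∈ V := by rw [hV]; simp
  have m2 : tgt e ∈ V := by rw [hV]; simp
  have m3 : src f ∈ V := by rw [hV]; simp
  have m4 : tgt f ∈ V := by rw [hV]; simp
  rw [SD_iff_D2 (fE_mono e) hfk rfl, SD_iff_D2 (fE_mono f) hek rfl,
    D2_fE_erase hef hek, D2_fE_erase hef.symm hfk]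
  have h1 : ((F.erase f).erase k).erase e = ((F.erase e).erase k).erase f := by
    ext x; simp only [mem_erase]; tauto
  have n1 : e ∉ ((F.erase e).erase k).erase f := by
    simp only [mem_erase]; tauto
  have n2 : f ∉ ((F.erase e).erase k).erase f := by
    simp only [mem_erase]; tauto
  rw [h1, D2_fE m1 m2 hef hek n1, D2_fE m3 m4 hef.symm hfk n2]
  have c1 : insert f (insert e (insert k (((F.erase e).erase k).erase f))) =
      insert e (insert f (insert k (((F.erase e).erase k).erase f))) := Finset.insert_comm _ _ _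
  have c2 : insert f (insert e (((F.erase e).erase k).erase f)) =
      insert e (insert f (((F.erase e).erase k).erase f)) := Finset.insert_comm _ _ _
  rw [c1, c2]
  apply not_congr
  constructor
  · intro h
    linarith
  · intro h
    linarith

theorem SD_comm {g : Finset Edg → Prop} {f k : Edg} (F : Finset Edg) :
    SD g f k F ↔ SD g k f F := by
  unfold SD
  rw [Finset.insert_comm f k F, Finset.erase_right_comm (a := f) (b := k)]
  tauto

theorem not_SD_self {e k : Edg} (F : Finset Edg) : ¬ SD (fE e) e k F := by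
  rintro ⟨h1 | h1, _⟩
  · exact h1.2 ((fE_erase _ _).2 ((fE_insert _ _).1 h1.1))
  · exact h1.2 ((fE_erase _ _).2 ((fE_insert _ _).1 h1.1))

theorem not_SD_self' {e k : Edg} (F : Finset Edg) : ¬ SD (fE e) k e F := by
  rw [SD_comm]
  exact not_SD_self F

end Pool.Agent.TH987
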