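import Pool.Agent.TH987.Cond
import Pool.Agent.W424.NC.ArmUp

/-!
Counting lemmas and the decay factor.
-/

namespace Pool.Agent.TH987

open H973N H974 H12S Finset
open H973N.NP

theorem dst_nonneg (e g : Edg) : 0 ≤ dst e g := by
  unfold dst
  exact (abs_nonneg _).trans (le_max_left _ _)

/-- number of edges near a given edge -/
theorem card_dst (e : Edg) (m : ℕ) (hm : 1 ≤ m) (T : Finset Edg) :
    ((T.filter (fun g => dst e g ≤ m)).card : ℝ) ≤ 18 * (m : ℝ) ^ 2 := by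
  have h1 : T.filter (fun g => dst e g ≤ m) ⊆
      (Finset.Icc (e.1 - m) (e.1 + m)) ×ˢ
        ((Finset.Icc (e.2.1 - m) (e.2.1 + m)) ×ˢ (Finset.univ : Finset Bool)) := by
    intro g hg
    rw [Finset.mem_filter] at hg
    obtain ⟨⟨h1, h2⟩, h3, h4⟩ := dst_le hg.2
    rw [Finset.mem_product, Finset.mem_product, Finset.mem_Icc, Finset.mem_Icc]
    exact ⟨⟨by linarith, by linarith⟩, ⟨by linarith, by linarith⟩, Finset.mem_univ _⟩
  have h2 := Finset.card_le_card h1
  rw [Finset.card_product, Finset.card_product, Int.card_Icc, Int.card_Icc, Finset.card_univ,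
    Fintype.card_bool] at h2
  have e1 : ∀ x : ℤ, (x + (m : ℤ) + 1 - (x - m)).toNat = 2 * m + 1 := by
    intro x
    rw [show x + (m : ℤ) + 1 - (x - m) = ((2 * m + 1 : ℕ) : ℤ) by push_cast; ring]
    exact Int.toNat_natCast _
  rw [e1, e1] at h2
  have h3 : (2 * m + 1) * ((2 * m + 1) * 2) ≤ 18 * m ^ 2 := by nlinarith
  exact_mod_cast h2.trans h3

theorem card_box (m : ℕ) (hm : 1 ≤ m) (T : Finset Edg)
    (hT : ∀ g ∈ T, |g.1| ≤ m ∧ |g.2.1| ≤ m) : (T.card : ℝ) ≤ 18 * (m : ℝ) ^ 2 := by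
  have h := card_dst (0, 0, true) m hm T
  have e1 : T.filter (fun g => dst (0, 0, true) g ≤ m) = T := by
    apply Finset.filter_true_of_mem
    intro g hg
    obtain ⟨h1, h2⟩ := hT g hg
    unfold dst
    simp only
    rw [zero_sub, zero_sub, abs_neg, abs_neg]
    exact max_le h1 h2
  rwa [e1] at h

theorem boxE_abs {m : ℕ} {g : Edg} (hg : g ∈ boxE m) : |g.1| ≤ m ∧ |g.2.1| ≤ m := by
  unfold boxE at hg
  obtain ⟨⟨h1, h2⟩, h3, h4⟩ := RE_weak hg
  exact ⟨abs_le.2 ⟨h1, h2⟩, abs_le.2 ⟨h3, h4⟩⟩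

theorem pow7_le (X : ℕ) : (X:ℝ)^7 ≤ 5040 * 4^X := by
  have h1 := Real.pow_div_factorial_le_exp (X:ℝ) (Nat.cast_nonneg X) 7
  have h2 : Real.exp (X:ℝ) ≤ 4^X := by
    have h3 : Real.exp (X:ℝ) = (Real.exp 1)^X := by
      rw [← Real.exp_nat_mul, mul_one]
    rw [h3]
    apply pow_le_pow_left₀ (Real.exp_pos _).le
    have := Real.exp_one_lt_d9
    linarith
  have h4 : ((7).factorial : ℝ) = 5040 := by norm_num [Nat.factorial]
  rw [h4, div_le_iff₀ (by norm_num)] at h1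
  nlinarith

/-- The decay factor. -/
theorem beta_bound {E : ℝ} (hE : 1 ≤ E) {q : ℝ} (h0 : 0 ≤ q) (h1 : q ≤ 1) {K0 N : ℕ}
    (hN : 2 ≤ N) (hNE : (N:ℝ) ≤ E * 2^K0) (he : eps (1 - q) N ≤ 1/100) {i : ℕ} (hi : 7 ≤ i) :
    ∃ R1 R2 : ℕ, 2^(min (i - 7) K0) ≤ R1 ∧ R1 < R2 ∧ R2 ≤ 2^(i - 2) ∧
      bet q R1 R2 ≤ 5040 * E^7 * (1/128)^((i - 7) - K0) := by
  have hE7 : 1 ≤ E^7 := one_le_pow₀ hE
  have hpi3 : 2^(i-2) = 2 * 2^(i-3) := by
    rw [← pow_succ']; congr 1; omega
  have hKle : 2^(min (i-7) K0) ≤ 2^(i-7) := Nat.pow_le_pow_right (by norm_num) (min_le_left _ _)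
  have hpi7 : 2^(i-3) = 16 * 2^(i-7) := by
    rw [show (16:ℕ) = 2^4 by norm_num, ← pow_add]; congr 1; omega
  have hpos7 : 1 ≤ 2^(i-7) := Nat.one_le_two_pow
  by_cases hd : i - 7 ≤ K0
  · refine ⟨2^(i-3), 2^(i-2), by omega, by omega, le_rfl, ?_⟩
    have e1 : (i - 7) - K0 = 0 := by omega
    rw [e1, pow_zero, mul_one]
    have := bet_le_one h0 h1 (2^(i-3)) (2^(i-2))
    nlinarith
  · push Not at hd
    obtain ⟨d, hd'⟩ : ∃ d, d = (i - 7) - K0 := ⟨_, rfl⟩
    have hi' : i = K0 + 7 + d := by omega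
    rw [← hd']
    have hd128 : (0:ℝ) < (1/128)^d := by positivity
    by_cases hNi : N ≤ 2^(i-3)
    · obtain ⟨j, hj⟩ : ∃ j, j = Nat.log 2 (2^(i-3) / N) := ⟨_, rfl⟩
      have hne : 2^(i-3) / N ≠ 0 := by
        have : 0 < 2^(i-3) / N := Nat.div_pos hNi (by omega)
        omega
      have j1 : 2^j ≤ 2^(i-3) / N := by rw [hj]; exact Nat.pow_log_le_self 2 hne
      have j2 : 2^(i-3) / N < 2^(j+1) := by
        rw [hj]; exact Nat.lt_pow_succ_log_self (by norm_num) _
      have j1' : 2^j * N ≤ 2^(i-3) := (Nat.le_div_iff_mul_le (by omega)).1 j1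
      have j2' : 2^(i-3) < 2^(j+1) * N := (Nat.div_lt_iff_lt_mul (by omega)).1 j2
      have hpj : 2^(j+1) = 2 * 2^j := by rw [pow_succ']
      refine ⟨2^j * N - 1, 2 * (2^j * N) - 1, ?_, ?_, ?_, ?_⟩
      · have : 2 * (2^j * N) = 2^(j+1) * N := by rw [hpj]; ring
        omega
      · have : 2 ≤ 2^j * N := by
          calc 2 ≤ N := hN
            _ ≤ 2^j * N := Nat.le_mul_of_pos_left _ (by positivity)
        omega
      · omega
      · have h3 := W424.NC.pr_nblk_pow h0 h1 hN he j (S := annE (2^j * N - 1) (2 * (2^j * N) - 1))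
          (Finset.Subset.refl _)
        have h4 : bet q (2^j * N - 1) (2 * (2^j * N) - 1) ≤ (1/4)^(2^j) := h3
        refine h4.trans ?_
        -- `2^d * 8 ≤ E * 2^j`
        have h5 : (2:ℝ)^d * 8 ≤ E * 2^j := by
          have h6 : (2:ℝ)^(i-3) ≤ 2^(j+1) * N := by exact_mod_cast j2'.le
          have h7 : (2:ℝ)^(i-3) = 2^K0 * (2^d * 16) := by
            rw [show (16:ℝ) = 2^4 by norm_num, ← pow_add, ← pow_add]
            congr 1; omega
          rw [h7] at h6
          have h8 : (2:ℝ)^(j+1) * N ≤ 2^(j+1) * (E * 2^K0) :=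
            mul_le_mul_of_nonneg_left hNE (by positivity)
          have h9 : (2:ℝ)^K0 * (2^d * 16) ≤ 2^K0 * (2 * (E * 2^j)) := by
            calc (2:ℝ)^K0 * (2^d * 16) ≤ 2^(j+1) * (E * 2^K0) := h6.trans h8
              _ = 2^K0 * (2 * (E * 2^j)) := by rw [pow_succ]; ring
          have h10 := le_of_mul_le_mul_left h9 (by positivity)
          linarith
        have h6 : (2:ℝ)^d ≤ E * 2^j := by
          have : (0:ℝ) < 2^d := by positivity
          linarith
        have h7 : ((2:ℝ)^d)^7 ≤ E^7 * ((2^j : ℕ) : ℝ)^7 := by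
          rw [← mul_pow]
          apply pow_le_pow_left₀ (by positivity)
          push_cast
          exact h6
        have h8 := pow7_le (2^j)
        have h9 : ((2:ℝ)^d)^7 ≤ E^7 * (5040 * 4^(2^j)) :=
          h7.trans (mul_le_mul_of_nonneg_left h8 (by positivity))
        have h10 : ((2:ℝ)^d)^7 = 128^d := by
          rw [← pow_mul, mul_comm d 7, pow_mul]; norm_num
        rw [h10] at h9
        have h11 : (0:ℝ) < 128^d := by positivity
        have h12 : (0:ℝ) < 4^(2^j) := by positivity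
        rw [one_div_pow, one_div_pow, ← div_eq_mul_one_div, div_le_div_iff₀ h12 h11, one_mul]
        linarith
    · push Not at hNi
      refine ⟨2^(i-3), 2^(i-2), by omega, by omega, le_rfl, ?_⟩
      have hb := bet_le_one h0 h1 (2^(i-3)) (2^(i-2))
      refine hb.trans ?_
      have h6 : (2:ℝ)^(i-3) ≤ N := by exact_mod_cast hNi.le
      have h7 : (2:ℝ)^(i-3) = 2^K0 * (2^d * 16) := by
        rw [show (16:ℝ) = 2^4 by norm_num, ← pow_add, ← pow_add]
        congr 1; omega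
      rw [h7] at h6
      have h9 : (2:ℝ)^K0 * (2^d * 16) ≤ 2^K0 * E := by linarith
      have h10 := le_of_mul_le_mul_left h9 (by positivity)
      have h5 : (2:ℝ)^d ≤ E := by
        have : (0:ℝ) < 2^d := by positivity
        linarith
      have h8 : ((2:ℝ)^d)^7 ≤ E^7 := pow_le_pow_left₀ (by positivity) h5 7
      have h11 : ((2:ℝ)^d)^7 = 128^d := by
        rw [← pow_mul, mul_comm d 7, pow_mul]; norm_num
      rw [h11] at h8
      have h12 : (0:ℝ) < 128^d := by positivity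
      rw [one_div_pow, ← div_eq_mul_one_div, le_div_iff₀ h12]
      linarith

end Pool.Agent.TH987
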