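import Pool.Agent.TH987.Far

/-!
Sums of third differences with a centre edge far from the other two.
-/

namespace Pool.Agent.TH987

open H973N H974 H12S Finset
open H973N.NP

theorem L4_inter {ρ : ℕ} {c : Edg} (F : Finset Edg) :
    L4 ρ c (↑F : Set Edg) ↔ L4 ρ c (↑(F ∩ blk (bp c) ρ) : Set Edg) := by
  apply L4_congr'
  intro x hx _
  rw [Finset.mem_inter]
  exact ⟨fun h => ⟨h, hx⟩, fun h => h.1⟩

/-- Arms and annulus. -/
theorem pr_good {q : ℝ} (h0 : 0 ≤ q) (h1 : q ≤ 1) {c : Edg} {ρ R1 R2 R' : ℕ} (hρ1 : ρ ≤ R1)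
    (h12 : R1 < R2) (h2 : R2 ≤ R') :
    PQ q (blk (bp c) R') (fun w => L4 ρ c (↑w : Set Edg) ∧ ¬ BlkAt c R1 R2 w) ≤
      a4 q ρ * bet q R1 R2 := by
  have hs1 : blk (bp c) ρ ⊆ blk (bp c) R' := blk_mono (by omega)
  have hs2 : ring c R1 R2 ⊆ blk (bp c) R' :=
    Finset.sdiff_subset.trans (blk_mono h2)
  have hd : Disjoint (blk (bp c) ρ) (ring c R1 R2) := by
    unfold ring
    exact (Finset.disjoint_of_subset_left (blk_mono hρ1) Finset.disjoint_sdiff)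
  have h := Pr_indep (p := fun _ : Edg => q) (A := fun w => L4 ρ c (↑w : Set Edg))
    (B := fun w => ¬ BlkAt c R1 R2 w) hs1 hs2 hd (fun F _ => L4_inter F)
    (fun F _ => BlkAt_local h12 F)
  have e1 : PQ q (blk (bp c) R') (fun w => L4 ρ c (↑w : Set Edg) ∧ ¬ BlkAt c R1 R2 w) = _ := h
  rw [e1]
  have e2 : Pr (fun _ => q) (blk (bp c) R') (fun w => ¬ BlkAt c R1 R2 w) = bet q R1 R2 :=
    pr_BlkAt h12 hs2
  rw [e2]
  exact mul_le_mul_of_nonneg_right (pr_L4 h0 h1 hs1) (bet_nonneg h0 h1 _ _)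

/-- Conditioning on the box around the centre. -/
theorem pr_split {q : ℝ} {c A B : Edg} {R' : ℕ} (hR' : 1 ≤ R') {S : Finset Edg}
    (hS : blk (bp c) R' ⊆ S) (hA : A ∉ blk (bp c) R') (hB : B ∉ blk (bp c) R') :
    PQ q S (SD (fE c) A B) = Ex (fun _ => q) (blk (bp c) R')
      (fun w => PQ q (S \ blk (bp c) R') (SD (CO {src c} {tgt c} ↑(w.erase c)) A B)) := by
  have hU : S = blk (bp c) R' ∪ (S \ blk (bp c) R') := by rw [Finset.union_sdiff_of_subset hS]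
  have hd : Disjoint (blk (bp c) R') (S \ blk (bp c) R') := Finset.disjoint_sdiff
  have hcb : c ∈ blk (bp c) R' := self_blk hR'
  unfold PQ Pr
  conv_lhs => rw [hU]
  rw [Ex_union hd]
  apply Ex_congr
  intro w hw
  apply Ex_congr
  intro F hF
  apply ind_congr
  refine SD_union (fun h => hA (hw h)) (fun h => hB (hw h)) ?_ ?_ ?_
  · rintro rfl; exact hA hcb
  · rintro rfl; exact hB hcb
  · intro h; exact (Finset.mem_sdiff.1 (hF h)).2 hcb

theorem cond_gen {q : ℝ} (h0 : 0 ≤ q) (h1 : q ≤ 1) {c : Edg} {ρ R1 R2 R' : ℕ} (hρ : 1 ≤ ρ)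
    (hρ1 : ρ ≤ R1) (h12 : R1 < R2) (h2 : R2 ≤ R') {S : Finset Edg} (hS : blk (bp c) R' ⊆ S)
    {P : Finset (Edg × Edg)} (hP : ∀ p ∈ P, p.1 ∉ blk (bp c) R' ∧ p.2 ∉ blk (bp c) R')
    {X : ℝ} (hX0 : 0 ≤ X)
    (hX : ∀ w, w ⊆ blk (bp c) R' → ∑ p ∈ P,
      PQ q (S \ blk (bp c) R') (SD (CO {src c} {tgt c} ↑(w.erase c)) p.1 p.2) ≤ X) :
    ∑ p ∈ P, PQ q S (SD (fE c) p.1 p.2) ≤ a4 q ρ * bet q R1 R2 * X := by
  have hok : Ok (fun _ : Edg => q) := fun _ => ⟨h0, h1⟩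
  have hR' : 1 ≤ R' := by omega
  have e1 : ∑ p ∈ P, PQ q S (SD (fE c) p.1 p.2) = Ex (fun _ => q) (blk (bp c) R') (fun w =>
      ∑ p ∈ P, PQ q (S \ blk (bp c) R') (SD (CO {src c} {tgt c} ↑(w.erase c)) p.1 p.2)) := by
    rw [Ex_sum]
    apply Finset.sum_congr rfl
    intro p hp
    exact pr_split hR' hS (hP p hp).1 (hP p hp).2
  rw [e1]
  have e2 : Ex (fun _ => q) (blk (bp c) R') (fun w =>
      ∑ p ∈ P, PQ q (S \ blk (bp c) R') (SD (CO {src c} {tgt c} ↑(w.erase c)) p.1 p.2)) ≤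
      Ex (fun _ => q) (blk (bp c) R') (fun w =>
        ind (L4 ρ c (↑w : Set Edg) ∧ ¬ BlkAt c R1 R2 w) * X) := by
    apply Ex_mono hok
    intro w hw
    by_cases hg : L4 ρ c (↑w : Set Edg) ∧ ¬ BlkAt c R1 R2 w
    · rw [ind_of hg, one_mul]
      exact hX w hw
    · rw [ind_not_of hg, zero_mul]
      apply le_of_eq
      apply Finset.sum_eq_zero
      intro p hp
      unfold PQ Pr
      rw [Ex_congr (g := fun _ => (0:ℝ)), Ex_const]
      intro F hF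
      apply ind_not_of
      intro hSD
      apply hg
      refine good_of_SD hw ?_ (hP p hp).1 (hP p hp).2 hSD hρ (by omega) h12 h2
      intro x hx
      exact (Finset.mem_sdiff.1 (hF hx)).2
  refine e2.trans ?_
  rw [Ex_mul_right]
  exact mul_le_mul_of_nonneg_right (pr_good h0 h1 hρ1 h12 h2) hX0

theorem dst_bp {c x : Edg} {R : ℕ} (h : x ∈ blk (bp c) R) : dst x c ≤ R := by
  unfold blk bp at h
  obtain ⟨⟨h1, h2⟩, h3, h4⟩ := RE_weak h
  simp only at h1 h2 h3 h4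
  unfold dst
  apply max_le <;> rw [abs_le] <;> constructor <;> linarith

theorem RE_disj {A c : Edg} {R M : ℕ} (h : (R:ℤ) + M < dst A c) :
    Disjoint (RE (A.1 - M) (A.1 + M) (A.2.1 - M) (A.2.1 + M)) (blk (bp c) R) := by
  rw [Finset.disjoint_left]
  intro x hx hx'
  obtain ⟨⟨h1, h2⟩, h3, h4⟩ := RE_weak hx
  unfold blk bp at hx'
  obtain ⟨⟨r1, r2⟩, r3, r4⟩ := RE_weak hx'
  simp only at r1 r2 r3 r4
  have : dst A c ≤ R + M := by
    unfold dst
    apply max_le <;> rw [abs_le] <;> constructor <;> linarith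
  linarith

theorem Off_ends {A c : Edg} {M : ℤ} (h : M + 1 ≤ dst A c) :
    Off (A.1 - M) (A.1 + M) (A.2.1 - M) (A.2.1 + M) {src c} {tgt c} := by
  intro v hv
  rintro ⟨⟨h1, h2⟩, h3, h4⟩
  have hc : (c.1 ≤ v.1 ∧ v.1 ≤ c.1 + 1) ∧ (c.2.1 ≤ v.2 ∧ v.2 ≤ c.2.1 + 1) := by
    obtain ⟨x, y, b⟩ := c
    rcases hv with hv | hv
    · rw [Set.mem_singleton_iff] at hv
      rw [hv, src_mk]
      simp only
      omega
    · rw [Set.mem_singleton_iff] at hv
      rw [hv]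
      cases b
      · rw [tgt_false]; simp only; omega
      · rw [tgt_true]; simp only; omega
  have : dst A c < M + 1 := by
    unfold dst
    rw [max_lt_iff, abs_lt, abs_lt]
    refine ⟨⟨?_, ?_⟩, ?_, ?_⟩ <;> linarith
  linarith

/-- Near pairs far from a centre edge. -/
theorem center_near (κ : ℝ) (hκ : 0 < κ) : ∃ C : ℝ, 0 < C ∧ ∀ (q : ℝ) (n : ℕ), Win q κ n →
    ∀ (c : Edg) (K Λ R1 R2 R' : ℕ), 1 ≤ Λ → 12 * 2^K ≤ n → 2^K ≤ R1 → R1 < R2 → R2 ≤ R' →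
    ∀ (S : Finset Edg), blk (bp c) R' ⊆ S → ∀ (z : ℤ × ℤ) (G : Finset Edg),
    (∀ e ∈ G, |e.1 - z.1| ≤ Λ * 2^K ∧ |e.2.1 - z.2| ≤ Λ * 2^K) →
    (∀ e ∈ G, RE (e.1 - 24 * 2 ^ K) (e.1 + 24 * 2 ^ K) (e.2.1 - 24 * 2 ^ K)
      (e.2.1 + 24 * 2 ^ K) ⊆ S) →
    (∀ e ∈ G, (R' : ℤ) + 24 * 2^K < dst e c) →
    ∑ e ∈ G, ∑ g ∈ S.erase e, ind (dst e g ≤ 4 * 2^K) * PQ q S (SD (fE c) e g) ≤
      a4 q (2^K) * bet q R1 R2 * (C * Λ * W2s q K) := by
  obtain ⟨C, hC, h⟩ := near_gen κ hκ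
  refine ⟨C, hC, ?_⟩
  intro q n hW c K Λ R1 R2 R' hΛ hn hR1 h12 h2 S hS z G hG hGS hGc
  classical
  have h0 : 0 ≤ q := by linarith [hW.lo]
  have h1 : q ≤ 1 := by linarith [hW.hi]
  have hok : Ok (fun _ : Edg => q) := fun _ => ⟨h0, h1⟩
  have hpw : (1:ℤ) ≤ 2^K := one_le_pow₀ (by norm_num)
  have hR'1 : 1 ≤ R' := by omega
  set Bc := blk (bp c) R' with hBc
  set P : Finset (Edg × Edg) := (G ×ˢ S).filter (fun p => p.2 ≠ p.1 ∧ dst p.1 p.2 ≤ 4 * 2^K)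
    with hPdef
  have hW2 : 0 ≤ W2s q K := by
    unfold W2s
    have : ∀ k, 0 ≤ a4 q (2^k) := fun k => FPX.a4_nonneg h0 h1 (2^k)
    positivity
  -- rewriting of double sums
  have conv : ∀ (T : Finset Edg) (hT : T ⊆ S) (hTP : ∀ p ∈ P, p.2 ∈ T) (φ : Edg → Edg → ℝ),
      ∑ e ∈ G, ∑ g ∈ T.erase e, ind (dst e g ≤ 4 * 2^K) * φ e g = ∑ p ∈ P, φ p.1 p.2 := by
    intro T hT hTP φ
    have e1 : ∀ e ∈ G, ∑ g ∈ T.erase e, ind (dst e g ≤ 4 * 2^K) * φ e g =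
        ∑ g ∈ S, if (g ≠ e ∧ dst e g ≤ 4 * 2^K) then φ e g else 0 := by
      intro e he
      have e2 : ∑ g ∈ T.erase e, ind (dst e g ≤ 4 * 2^K) * φ e g =
          ∑ g ∈ T.erase e, if (g ≠ e ∧ dst e g ≤ 4 * 2^K) then φ e g else 0 := by
        apply Finset.sum_congr rfl
        intro g hg
        have hge := (Finset.mem_erase.1 hg).1
        by_cases hd : dst e g ≤ 4 * 2^K
        · rw [ind_of hd, one_mul, if_pos ⟨hge, hd⟩]
        · rw [ind_not_of hd, zero_mul, if_neg (fun h => hd h.2)]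
      rw [e2]
      apply Finset.sum_subset ((Finset.erase_subset _ _).trans hT)
      intro g hg hgT
      apply if_neg
      rintro ⟨h3, h4⟩
      apply hgT
      rw [Finset.mem_erase]
      refine ⟨h3, hTP (e, g) ?_⟩
      rw [hPdef, Finset.mem_filter, Finset.mem_product]
      exact ⟨⟨he, hg⟩, h3, h4⟩
    rw [Finset.sum_congr rfl e1, hPdef, Finset.sum_filter, Finset.sum_product]
  have hPfar : ∀ p ∈ P, p.1 ∉ Bc ∧ p.2 ∉ Bc := by
    intro p hp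
    rw [hPdef, Finset.mem_filter, Finset.mem_product] at hp
    obtain ⟨⟨hp1, hp2⟩, hp3, hp4⟩ := hp
    have h5 := hGc _ hp1
    refine ⟨fun h => ?_, fun h => ?_⟩
    · have := dst_bp h
      linarith
    · have h6 := dst_bp h
      have h7 := FPX.dst_tri p.1 p.2 c
      linarith
  have hconv1 := conv S (Finset.Subset.refl _) (fun p hp => by
    rw [hPdef, Finset.mem_filter, Finset.mem_product] at hp
    exact hp.1.2) (fun e g => PQ q S (SD (fE c) e g))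
  rw [hconv1]
  refine cond_gen h0 h1 Nat.one_le_two_pow hR1 h12 h2 hS hPfar (by positivity) ?_
  intro w hw
  rw [← conv (S \ Bc) Finset.sdiff_subset (fun p hp => by
    have h3 := (hPfar p hp).2
    rw [hPdef, Finset.mem_filter, Finset.mem_product] at hp
    exact Finset.mem_sdiff.2 ⟨hp.1.2, h3⟩)
    (fun e g => PQ q (S \ Bc) (SD (CO {src c} {tgt c} ↑(w.erase c)) e g))]
  refine h q n hW (S \ Bc) {src c} {tgt c} ↑(w.erase c) ?_ z K Λ hΛ hn G hG ?_ ?_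
  · rw [Set.disjoint_left]
    intro x hx hx'
    rw [Finset.mem_coe] at hx hx'
    exact (Finset.mem_sdiff.1 hx').2 (hw (Finset.mem_of_mem_erase hx))
  · intro e he
    rw [Finset.subset_sdiff]
    refine ⟨hGS e he, ?_⟩
    have := RE_disj (A := e) (c := c) (R := R') (M := 24 * 2^K) (by push_cast; exact hGc e he)
    push_cast at this
    exact this
  · intro e he
    apply Off_ends
    have := hGc e he
    have h3 : (1:ℤ) ≤ R' := by exact_mod_cast hR'1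
    linarith

/-- Separated triples. -/
theorem center_sep {q : ℝ} (h0 : 0 ≤ q) (h1 : q ≤ 1) {c A B : Edg} {ρ R1 R2 R' : ℕ} (hρ : 1 ≤ ρ)
    (hρ1 : ρ ≤ R1) (h12 : R1 < R2) (h2 : R2 ≤ R') {S : Finset Edg} (hS : blk (bp c) R' ⊆ S)
    (hA : blk (bp A) ρ ⊆ S) (hB : blk (bp B) ρ ⊆ S) (hAc : (R':ℤ) + ρ < dst A c)
    (hBc : (R':ℤ) + ρ < dst B c) (hAB : 2 * (ρ:ℤ) < dst A B) :
    PQ q S (SD (fE c) A B) ≤ a4 q ρ * bet q R1 R2 * (a4 q ρ)^2 := by
  classical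
  have hok : Ok (fun _ : Edg => q) := fun _ => ⟨h0, h1⟩
  have hρ' : (1 : ℤ) ≤ ρ := by exact_mod_cast hρ
  set Bc := blk (bp c) R' with hBcdef
  have hda : Disjoint (blk (bp A) ρ) Bc := by
    have := RE_disj (A := A) (c := c) (R := R') (M := ρ) hAc
    exact this
  have hdb : Disjoint (blk (bp B) ρ) Bc := by
    have := RE_disj (A := B) (c := c) (R := R') (M := ρ) hBc
    exact this
  have hAn : A ∉ Bc := fun h => Finset.disjoint_left.1 hda (self_blk hρ) h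
  have hBn : B ∉ Bc := fun h => Finset.disjoint_left.1 hdb (self_blk hρ) h
  have hdab : ∀ x ∈ blk (bp B) ρ, x ∉ blk (bp A) ρ := by
    intro x hx hx'
    have h3 := dst_bp hx
    have h4 := dst_bp hx'
    have h5 := FPX.dst_tri A x B
    rw [FPX.dst_comm A x] at h5
    linarith
  have hBA : B ∉ blk (bp A) ρ := hdab B (self_blk hρ)
  have hAB' : A ∉ blk (bp B) ρ := fun h => hdab A h (self_blk hρ)
  have key := cond_gen (P := {(A, B)}) h0 h1 hρ hρ1 h12 h2 hS (fun p hp => by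
    rw [Finset.mem_singleton] at hp
    rw [hp]
    exact ⟨hAn, hBn⟩) (X := (a4 q ρ)^2) (sq_nonneg _) (fun w hw => by
    rw [Finset.sum_singleton]
    have hO : ∀ x ∈ (↑(w.erase c) : Set Edg), x ∈ Bc := by
      intro x hx
      rw [Finset.mem_coe] at hx
      exact hw (Finset.mem_of_mem_erase hx)
    have hOA : ∀ x ∈ (↑(w.erase c) : Set Edg), x ∉ blk (bp A) ρ := fun x hx h =>
      Finset.disjoint_left.1 hda h (hO x hx)
    have hOB : ∀ x ∈ (↑(w.erase c) : Set Edg), x ∉ blk (bp B) ρ := fun x hx h =>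
      Finset.disjoint_left.1 hdb h (hO x hx)
    have hR' : (1:ℤ) ≤ R' := by
      have : 1 ≤ R' := by omega
      exact_mod_cast this
    have hIA : Off (A.1 - ρ) (A.1 + ρ) (A.2.1 - ρ) (A.2.1 + ρ) {src c} {tgt c} :=
      Off_ends (by linarith)
    have hIB : Off (B.1 - ρ) (B.1 + ρ) (B.2.1 - ρ) (B.2.1 + ρ) {src c} {tgt c} :=
      Off_ends (by linarith)
    have hA' : blk (bp A) ρ ⊆ S \ Bc := Finset.subset_sdiff.2 ⟨hA, hda⟩
    have hB' : blk (bp B) ρ ⊆ S \ Bc := Finset.subset_sdiff.2 ⟨hB, hdb⟩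
    have step1 : PQ q (S \ Bc) (SD (CO {src c} {tgt c} ↑(w.erase c)) A B) ≤
        PQ q (S \ Bc) (fun F => L4 ρ A ↑F ∧ (L4 ρ B ↑F ∧ True)) := by
      refine Pr_mono hok ?_
      intro F _ hF
      exact ⟨SD_L4_O hρ hOA hIA hBA hF.1, SD_L4_O hρ hOB hIB hAB' hF.2.1, trivial⟩
    refine step1.trans ?_
    refine (indep_L4 h0 h1 hA' ?_).trans ?_
    · intro F hF
      apply and_congr_left
      intro _
      apply L4_congr'
      intro x hx _
      rw [Finset.mem_inter, Finset.mem_sdiff]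
      exact ⟨fun h => ⟨h, hF h, hdab x hx⟩, fun h => h.1⟩
    · have ha : 0 ≤ a4 q ρ := FPX.a4_nonneg h0 h1 ρ
      rw [sq]
      apply mul_le_mul_of_nonneg_left _ ha
      refine (indep_L4 h0 h1 hB' (fun F _ => Iff.rfl)).trans ?_
      calc a4 q ρ * PQ q (S \ Bc) (fun _ => True) ≤ a4 q ρ * 1 :=
            mul_le_mul_of_nonneg_left (Pr_le_one hok _ _) ha
        _ = a4 q ρ := mul_one _)
  rw [Finset.sum_singleton] at key
  exact key

end Pool.Agent.TH987
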