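import Pool.Agent.TH987.Cond
import Pool.Agent.H973R3.NC.DV

/-!
Derivatives of the sum of the connection probabilities off an edge; the chord inequality.
-/

namespace Pool.Agent.TH987

open H973N H974 H12S Finset
open H973N.NP

/-- The sum over `G` of the probabilities that the two ends of an edge are connected off it. -/
noncomputable def phi (G S : Finset Edg) (q : ℝ) : ℝ := ∑ e ∈ G, Pr (fun _ => q) S (fE e)

/-- Its derivative. -/
noncomputable def phi1 (G S : Finset Edg) (q : ℝ) : ℝ :=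
  ∑ e ∈ G, ∑ f ∈ S, Pr (fun _ => q) S (Pf (fE e) f)

/-- The bound for the second derivative. -/
noncomputable def phi2 (G S : Finset Edg) (q : ℝ) : ℝ :=
  ∑ e ∈ G, ∑ f ∈ S, ∑ k ∈ S.erase f, PQ q S (SD (fE e) f k)

theorem phi_deriv (G S : Finset Edg) (q : ℝ) : HasDerivAt (phi G S) (phi1 G S q) q := by
  have h := HasDerivAt.fun_sum (u := G) (x := q)
    (A := fun e => fun q : ℝ => Pr (fun _ => q) S (fE e))
    (A' := fun e => ∑ f ∈ S, Pr (fun _ => q) S (Pf (fE e) f))
    (fun e _ => deriv_f S (fE e) (fE_mono e) q)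
  exact h

theorem phi1_deriv (G S : Finset Edg) (q : ℝ) (h0 : 0 ≤ q) (h1 : q ≤ 1) :
    ∃ D : ℝ, HasDerivAt (phi1 G S) D q ∧ |D| ≤ phi2 G S q := by
  have h := fun e => deriv_T S S (Finset.Subset.refl _) (fE e) (fE_mono e) q h0 h1
  choose D hD hDle using h
  refine ⟨∑ e ∈ G, D e, ?_, ?_⟩
  · exact HasDerivAt.fun_sum (u := G) (x := q)
      (A := fun e => fun q : ℝ => ∑ f ∈ S, Pr (fun _ => q) S (Pf (fE e) f))
      (A' := fun e => D e) (fun e _ => hD e)
  · refine (abs_sum_le_sum_abs _ _).trans ?_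
    exact Finset.sum_le_sum (fun e _ => hDle e)

/-- Chord inequality. -/
theorem chord_of_deriv {φ φ1 : ℝ → ℝ} {u v M : ℝ} (hM : 0 ≤ M)
    (h1 : ∀ q, u ≤ q → q ≤ v → HasDerivAt φ (φ1 q) q)
    (h2 : ∀ q, u ≤ q → q ≤ v → ∃ D, HasDerivAt φ1 D q ∧ |D| ≤ M) {w : ℝ} (hw : u ≤ w)
    (hw' : w ≤ v) :
    |(v - u) * φ w - (v - w) * φ u - (w - u) * φ v| ≤ M * ((v - u) * (v - w) * (w - u)) := by
  rcases eq_or_lt_of_le hw with rfl | hw
  · have : (v - u) * φ u - (v - u) * φ u - (u - u) * φ v = 0 := by ring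
    rw [this, abs_zero]
    simp
  rcases eq_or_lt_of_le hw' with rfl | hw'
  · have : (w - u) * φ w - (w - w) * φ u - (w - u) * φ w = 0 := by ring
    rw [this, abs_zero]
    simp
  obtain ⟨x, hx, hxs⟩ := exists_hasDerivAt_eq_slope φ φ1 hw
    (fun q hq => (h1 q hq.1 (hq.2.trans hw'.le)).continuousAt.continuousWithinAt)
    (fun q hq => h1 q hq.1.le (hq.2.le.trans hw'.le))
  obtain ⟨y, hy, hys⟩ := exists_hasDerivAt_eq_slope φ φ1 hw'
    (fun q hq => (h1 q (hw.le.trans hq.1) hq.2).continuousAt.continuousWithinAt)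
    (fun q hq => h1 q (hw.le.trans hq.1.le) hq.2.le)
  have hxy : x < y := hx.2.trans hy.1
  have hL : |φ1 y - φ1 x| ≤ M * (y - x) := by
    have hlip := Convex.norm_image_sub_le_of_norm_hasDerivWithin_le (f := φ1)
      (f' := fun q => if h : u ≤ q ∧ q ≤ v then (h2 q h.1 h.2).choose else 0) (s := Set.Icc u v)
      (C := M) (x := x) (y := y) ?_ ?_ (convex_Icc u v) ⟨by linarith [hx.1], by linarith [hy.2]⟩
      ⟨by linarith [hx.1], by linarith [hy.2]⟩
    · rw [Real.norm_eq_abs, Real.norm_eq_abs, abs_of_pos (sub_pos.2 hxy)] at hlip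
      exact hlip
    · intro q hq
      simp only [hq.1, hq.2, and_self, dif_pos]
      exact (h2 q hq.1 hq.2).choose_spec.1.hasDerivWithinAt
    · intro q hq
      simp only [hq.1, hq.2, and_self, dif_pos]
      rw [Real.norm_eq_abs]
      exact (h2 q hq.1 hq.2).choose_spec.2
  have hwu : 0 < w - u := by linarith
  have hvw : 0 < v - w := by linarith
  have e1 : φ w - φ u = φ1 x * (w - u) := by
    rw [hxs]; field_simp
  have e2 : φ v - φ w = φ1 y * (v - w) := by
    rw [hys]; field_simp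
  have e3 : (v - u) * φ w - (v - w) * φ u - (w - u) * φ v =
      (v - w) * (w - u) * (φ1 x - φ1 y) := by
    have : (v - u) * φ w - (v - w) * φ u - (w - u) * φ v =
        (v - w) * (φ w - φ u) - (w - u) * (φ v - φ w) := by ring
    rw [this, e1, e2]; ring
  rw [e3, abs_mul, abs_of_pos (mul_pos hvw hwu), abs_sub_comm]
  have hyx : y - x ≤ v - u := by linarith [hx.1, hy.2]
  calc (v - w) * (w - u) * |φ1 y - φ1 x| ≤ (v - w) * (w - u) * (M * (y - x)) :=
        mul_le_mul_of_nonneg_left hL (mul_pos hvw hwu).le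
    _ ≤ (v - w) * (w - u) * (M * (v - u)) :=
        mul_le_mul_of_nonneg_left (mul_le_mul_of_nonneg_left hyx hM) (mul_pos hvw hwu).le
    _ = M * ((v - u) * (v - w) * (w - u)) := by ring

/-! ### Far triples -/

/-- A far triple: one of two consecutive annuli around `e` is crossed. -/
theorem crude {q : ℝ} (h0 : 0 ≤ q) (h1 : q ≤ 1) {e f k : Edg} {R1 R2 R3 : ℕ} (h12 : R1 < R2)
    (h23 : R2 < R3) {S : Finset Edg} (hS : blk (bp e) R3 ⊆ S) (hf : f ∉ blk (bp e) R3) :
    PQ q S (SD (fE e) f k) ≤ bet q R1 R2 + bet q R2 R3 := by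
  have hok : Ok (fun _ : Edg => q) := fun _ => ⟨h0, h1⟩
  have s1 : ring e R1 R2 ⊆ S := (Finset.sdiff_subset.trans (blk_mono h23.le)).trans hS
  have s2 : ring e R2 R3 ⊆ S := Finset.sdiff_subset.trans hS
  rw [← pr_BlkAt h12 s1, ← pr_BlkAt h23 s2]
  refine le_trans ?_ (Pr_or_le hok _ _ _)
  refine Pr_mono hok ?_
  intro F _ hF
  obtain ⟨X, hXF, hP⟩ : ∃ X : Finset Edg, X ⊆ insert k F ∧ Pf (fE e) f X := by
    rcases hF.1 with h | h
    · exact ⟨_, (Finset.erase_subset _ _).trans (Finset.subset_insert _ _), h⟩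
    · exact ⟨_, Finset.Subset.refl _, h⟩
  obtain ⟨p1, p2⟩ := hP
  unfold fE at p1 p2
  obtain ⟨v, hv, hr⟩ : ∃ v, far e R3 v ∧ Reach (↑(insert k F) : Set Edg) (src e) v := by
    have h3 : (↑((insert f X).erase e) : Set Edg) ⊆
        insert f (↑((X.erase f).erase e) : Set Edg) := by
      intro x hx
      rw [Finset.mem_coe, Finset.mem_erase, Finset.mem_insert] at hx
      by_cases hxf : x = f
      · exact Or.inl hxf
      · right
        rw [Finset.mem_coe, Finset.mem_erase, Finset.mem_erase]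
        exact ⟨hx.1, hxf, hx.2.resolve_left hxf⟩
    have hsub : (↑((X.erase f).erase e) : Set Edg) ⊆ ↑(insert k F) := by
      intro x hx
      rw [Finset.mem_coe] at hx
      exact Finset.mem_coe.2 (hXF (Finset.mem_of_mem_erase (Finset.mem_of_mem_erase hx)))
    obtain ⟨fs, ft⟩ := end_far hf
    rcases reachIns.1 (p1.mono h3) with h4 | ⟨h4, _⟩ | ⟨h4, _⟩
    · exact absurd h4 p2
    · exact ⟨_, fs, h4.mono hsub⟩
    · exact ⟨_, ft, h4.mono hsub⟩
  have n1 : ¬ BlkAt e R1 R2 (insert k F) := nblk_at h12 hr (far_mono (by exact_mod_cast h23.le) hv)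
  have n2 : ¬ BlkAt e R2 R3 (insert k F) := nblk_at h23 hr hv
  by_cases hk : k ∈ ring e R1 R2
  · right
    have hk2 : k ∉ ring e R2 R3 := by
      intro h
      exact (Finset.mem_sdiff.1 h).2 (Finset.mem_sdiff.1 hk).1
    rw [BlkAt_local h23] at n2 ⊢
    rwa [Finset.insert_inter_of_notMem hk2] at n2
  · left
    rw [BlkAt_local h12] at n1 ⊢
    rwa [Finset.insert_inter_of_notMem hk] at n1

end Pool.Agent.TH987
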