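import Pool.Agent.TH987.Lim
import Pool.Agent.H974R2.Plan4
import Pool.Agent.W424.NC.Stab

/-!
Planar duality for the connection of the two ends of an edge off the edge.
-/

namespace Pool.Agent.TH987

open H973N H974 H12S Finset Filter Topology
open H973N.NP

/-! ### A primal path and a dual path around the same edge cannot coexist -/

/-- indicator of the faces on the ray -/
def rayb (f : Vtx) (x y : ℤ) : ZMod 2 := if f.2 = y ∧ x ≤ f.1 then 1 else 0

/-- potential of a dual path -/
def Pot (f f' : Vtx) (w : Vtx → ZMod 2) (N : Edg → ZMod 2) : Prop :=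
  (∀ x y : ℤ, w (x, y) + w (x + 1, y) = N (x, y, true)) ∧
  ∀ x y : ℤ, w (x, y) + w (x, y + 1) = N (x, y, false) + rayb f x y + rayb f' x y

theorem z2_two (z : ZMod 2) : z + z = 0 := by
  revert z; decide

open Classical in
theorem pot_step {f f' f'' : Vtx} {w : Vtx → ZMod 2} {N : Edg → ZMod 2} (h : Pot f f' w N)
    (g0 : Edg) (hg : (dsrc g0 = f' ∧ dtgt g0 = f'') ∨ (dsrc g0 = f'' ∧ dtgt g0 = f')) :
    ∃ w', Pot f f'' w' (fun g => N g + if g = g0 then 1 else 0) := by
  obtain ⟨h1, h2⟩ := h
  obtain ⟨x0, y0, c⟩ := g0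
  cases c with
  | true =>
    refine ⟨fun v => w v + if v.2 = y0 ∧ v.1 ≤ x0 then 1 else 0, ?_, ?_⟩
    · intro x y
      have e1 : (if y = y0 ∧ x ≤ x0 then (1 : ZMod 2) else 0) + (if y = y0 ∧ x + 1 ≤ x0 then 1 else 0) =
          if ((x, y, true) : Edg) = (x0, y0, true) then 1 else 0 := by
        simp only [Prod.mk.injEq, and_true]
        split_ifs <;> first | rfl | (exfalso; omega) | decide
      have e2 := h1 x y
      simp only
      linear_combination e1 + e2
    · intro x y
      have e1 : (if y = y0 ∧ x ≤ x0 then (1 : ZMod 2) else 0) + (if y + 1 = y0 ∧ x ≤ x0 then 1 else 0) =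
          rayb (x0, y0) x y + rayb (x0, y0 - 1) x y := by
        unfold rayb
        simp only
        split_ifs <;> first | rfl | (exfalso; omega) | decide
      have e2 := h2 x y
      have e3 : rayb f' x y + rayb f'' x y = rayb (x0, y0) x y + rayb (x0, y0 - 1) x y := by
        rw [dsrc_true, dtgt_mk] at hg
        rcases hg with ⟨ha, hb⟩ | ⟨ha, hb⟩
        · rw [← ha, ← hb, add_comm]
        · rw [← ha, ← hb]
      have e4 := z2_two (rayb f' x y)
      simp only [Prod.mk.injEq, Bool.false_eq_true, and_false, if_false]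
      linear_combination e1 + e2 - e3 + e4
  | false =>
    refine ⟨w, ?_, ?_⟩
    · intro x y
      simp only [Prod.mk.injEq, Bool.true_eq_false, and_false, if_false, add_zero]
      exact h1 x y
    · intro x y
      have e1 : rayb (x0, y0) x y + rayb (x0 - 1, y0) x y =
          if ((x, y, false) : Edg) = (x0, y0, false) then 1 else 0 := by
        unfold rayb
        simp only [Prod.mk.injEq, and_true]
        split_ifs <;> first | rfl | (exfalso; omega) | decide
      have e2 := h2 x y
      have e3 : rayb f' x y + rayb f'' x y = rayb (x0, y0) x y + rayb (x0 - 1, y0) x y := by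
        rw [dsrc_false, dtgt_mk] at hg
        rcases hg with ⟨ha, hb⟩ | ⟨ha, hb⟩
        · rw [← ha, ← hb, add_comm]
        · rw [← ha, ← hb]
      have e4 := z2_two (rayb f' x y)
      have e5 := z2_two (rayb f'' x y)
      simp only
      linear_combination e2 + e3 + e1 - e5

open Classical in
theorem pot_path {G : Set Edg} {f f' : Vtx} (h : DReach G f f') :
    ∃ (w : Vtx → ZMod 2) (N : Edg → ZMod 2), (∀ g, g ∉ G → N g = 0) ∧ Pot f f' w N := by
  have h' : Relation.ReflTransGen (DAdj G) f f' := h
  clear h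
  induction h' with
  | refl =>
    refine ⟨fun _ => 0, fun _ => 0, fun _ _ => rfl, fun x y => by simp, fun x y => ?_⟩
    have := z2_two (rayb f x y)
    simp only
    linear_combination -this
  | tail _ hb ih =>
    obtain ⟨w, N, hN, hP⟩ := ih
    obtain ⟨g0, hg0, hg⟩ := hb
    obtain ⟨w', hP'⟩ := pot_step hP g0 hg
    refine ⟨w', _, ?_, hP'⟩
    intro g hgG
    have : g ≠ g0 := fun h => hgG (h ▸ hg0)
    simp only [if_neg this, add_zero]
    exact hN g hgG

open Classical in
theorem no_loop {F : Set Edg} {e : Edg} (he : e ∈ F) (hd : DReach Fᶜ (dsrc e) (dtgt e)) :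
    ¬ Reach (F \ {e}) (src e) (tgt e) := by
  intro hr
  obtain ⟨w, N, hN, hP⟩ := pot_path hd
  obtain ⟨w', h1, h2⟩ := pot_step (f'' := dsrc e) hP e (Or.inr ⟨rfl, rfl⟩)
  have key : ∀ g : Edg, w' (src g) + w' (tgt g) = N g + if g = e then 1 else 0 := by
    rintro ⟨x, y, c⟩
    cases c with
    | true =>
      rw [src_mk, tgt_true]
      exact h1 x y
    | false =>
      rw [src_mk, tgt_false]
      have := h2 x y
      have e1 := z2_two (rayb (dsrc e) x y)
      linear_combination this + e1
  have hN0 : ∀ g ∈ F, N g = 0 := fun g hg => hN g (fun h => h hg)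
  have hconst : ∀ u v, Reach (F \ {e}) u v → w' u = w' v := by
    intro u v huv
    have h' : Relation.ReflTransGen (Adj (F \ {e})) u v := huv
    clear huv
    induction h' with
    | refl => rfl
    | tail _ hb ih =>
      obtain ⟨g, ⟨hg1, hg2⟩, hg⟩ := hb
      have h3 := key g
      have hg3 : g ≠ e := hg2
      rw [hN0 g hg1, if_neg hg3, add_zero] at h3
      have h4 : w' (src g) = w' (tgt g) := by
        have := z2_two (w' (tgt g))
        linear_combination h3 - this
      rw [ih]
      rcases hg with ⟨ha, hb⟩ | ⟨ha, hb⟩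
      · rw [← ha, ← hb, h4]
      · rw [← ha, ← hb, h4]
  have h3 := key e
  rw [hN0 e he, if_pos rfl, zero_add, hconst _ _ hr, z2_two] at h3
  exact absurd h3 (by decide)

/-! ### The dual loop around a finite cluster -/

theorem reach_inR {a b c d : ℤ} {F : Set Edg} (hF : F ⊆ ↑(RE a b c d)) {u v : Vtx}
    (hu : inR a b c d u) (h : Reach F u v) : inR a b c d v := by
  induction h with
  | refl => exact hu
  | @tail w w' _ hs ih =>
    obtain ⟨⟨x0, y0, bo⟩, heF, hcase⟩ := hs
    have hm := hF heF
    unfold inR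
    cases bo
    · simp only [Finset.mem_coe, mem_RE_false] at hm
      simp only [src_mk, tgt_false] at hcase
      rcases hcase with ⟨h3, h4⟩ | ⟨h3, h4⟩
      · rw [← h4]; simp only; omega
      · rw [← h3]; simp only; omega
    · simp only [Finset.mem_coe, mem_RE_true] at hm
      simp only [src_mk, tgt_true] at hcase
      rcases hcase with ⟨h3, h4⟩ | ⟨h3, h4⟩
      · rw [← h4]; simp only; omega
      · rw [← h3]; simp only; omega

/-- A dual path around the cluster of an end of `e`. -/
theorem dual_loop {a b c d : ℤ} {F : Set Edg} (hF : F ⊆ ↑(RE a b c d)) {e : Edg}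
    (he : e ∈ RE a b c d) (hno : ¬ ∃ w ∈ bdR a b c d, Reach F (src e) w)
    (huv : ¬ Reach F (src e) (tgt e)) :
    DReach ((↑(RE a b c d) \ F) \ {e}) (dsrc e) (dtgt e) := by
  by_contra hcon
  set W : Vtx → Prop := fun w => Reach F (src e) w with hW
  set G : Set Edg := (bdry W ∩ ↑(RE a b c d)) \ {e} with hG
  have hGsub : G ⊆ (↑(RE a b c d) \ F) \ {e} := by
    rintro g ⟨⟨hg1, hg2⟩, hg3⟩
    refine ⟨⟨hg2, ?_⟩, hg3⟩
    intro hgF
    apply hg1
    constructor
    · intro h
      exact h.trans (Adj.reach ⟨g, hgF, Or.inl ⟨rfl, rfl⟩⟩)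
    · intro h
      exact h.trans (Adj.reach ⟨g, hgF, Or.inr ⟨rfl, rfl⟩⟩)
  have heW : e ∈ bdry W := by
    intro h
    exact huv (h.mp (Reach.refl _ _))
  have hsrcR : inR a b c d (src e) := by
    obtain ⟨x, y, _ | _⟩ := e
    · rw [mem_RE_false] at he
      unfold inR
      simp only [src_mk]
      omega
    · rw [mem_RE_true] at he
      unfold inR
      simp only [src_mk]
      omega
  have hstrict : ∀ w, W w → (a < w.1 ∧ w.1 < b) ∧ (c < w.2 ∧ w.2 < d) := by
    intro w hw
    have h1 := reach_inR hF hsrcR hw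
    have h2 : ¬ (w.1 = a ∨ w.1 = b ∨ w.2 = c ∨ w.2 = d) := fun h => hno ⟨w, ⟨h1, h⟩, hw⟩
    unfold inR at h1
    omega
  have hface : ∀ g : Edg, (W (src g) ∨ W (tgt g)) →
      dsrc g ∉ outF a b c d ∧ dtgt g ∉ outF a b c d := by
    rintro ⟨x, y, _ | _⟩ hg
    · simp only [src_mk, tgt_false] at hg
      unfold outF
      simp only [dsrc_false, dtgt_mk, Set.mem_setOf_eq]
      rcases hg with hg | hg
      · have := hstrict _ hg; simp only at this; omega
      · have := hstrict _ hg; simp only at this; omega
    · simp only [src_mk, tgt_true] at hg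
      unfold outF
      simp only [dsrc_true, dtgt_mk, Set.mem_setOf_eq]
      rcases hg with hg | hg
      · have := hstrict _ hg; simp only at this; omega
      · have := hstrict _ hg; simp only at this; omega
  set C : Vtx → Prop := fun f => DReach G (dsrc e) f with hC
  have hCf0 : C (dsrc e) := DReach.refl _ _
  have hCcl : ∀ g ∈ G, (C (dsrc g) ↔ C (dtgt g)) := by
    intro g hg
    constructor
    · intro h; exact h.trans (DAdj.reach ⟨g, hg, Or.inl ⟨rfl, rfl⟩⟩)
    · intro h; exact h.trans (DAdj.reach ⟨g, hg, Or.inr ⟨rfl, rfl⟩⟩)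
  have hbW : ∀ g : Edg, g ∈ bdry W → (W (src g) ∨ W (tgt g)) := by
    intro g hg
    unfold bdry at hg
    simp only [Set.mem_setOf_eq] at hg
    tauto
  have hCout : ∀ f ∈ outF a b c d, ¬ C f := by
    intro f hf h
    have key : ∀ f, DReach G (dsrc e) f → f ∉ outF a b c d := by
      intro f hf
      induction hf with
      | refl => exact (hface e (hbW e heW)).1
      | tail _ hs _ =>
        obtain ⟨g, hg, hcase⟩ := hs
        have h3 := hface g (hbW g hg.1.1)
        rcases hcase with ⟨_, h4⟩ | ⟨h4, _⟩
        · rw [← h4]; exact h3.2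
        · rw [← h4]; exact h3.1
    exact key f h hf
  set Z : Edg → ZMod 2 := fun g => b2 (g ∈ G ∧ C (dtgt g)) with hZ
  have hZG : ∀ g, Z g ≠ 0 → g ∈ G ∧ C (dtgt g) := by
    intro g hg
    by_contra hcon
    exact hg (b2_not_of hcon)
  have hswap : ∀ g, Z g = b2 (g ∈ G ∧ C (dsrc g)) := by
    intro g
    apply b2_congr
    constructor
    · rintro ⟨h1, h2⟩; exact ⟨h1, (hCcl g h1).mpr h2⟩
    · rintro ⟨h1, h2⟩; exact ⟨h1, (hCcl g h1).mp h2⟩
  -- boundary of the chain
  have hbdZ : ∀ x y, bd Z x y = b2 (C (x, y)) *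
      (b2 (dsrc e = (x, y)) + b2 (dtgt e = (x, y))) := by
    intro x y
    by_cases hxy : C (x, y)
    · have hin : ¬ (x < a ∨ b ≤ x ∨ y < c ∨ d ≤ y) := fun h => hCout (x, y) h hxy
      push Not at hin
      have hone : ∀ g : Edg, g ∈ RE a b c d → (C (dtgt g) ∨ C (dsrc g)) →
          Z g = b2 (W (src g)) + b2 (W (tgt g)) + b2 (g = e) := by
        intro g hgR hCg
        have h1 : Z g = b2 (g ∈ G) := by
          rcases hCg with h | h
          · exact b2_congr ⟨fun k => k.1, fun k => ⟨k, h⟩⟩
          · rw [hswap]; exact b2_congr ⟨fun k => k.1, fun k => ⟨k, h⟩⟩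
        rw [h1, ← b2_iff_add]
        by_cases hge : g = e
        · subst hge
          rw [b2_of (rfl : g = g), b2_of (show ¬ (W (src g) ↔ W (tgt g)) from heW),
            b2_not_of (fun h => h.2 rfl)]
          rfl
        · rw [b2_not_of hge, add_zero]
          apply b2_congr
          constructor
          · intro h; exact h.1.1
          · intro h; exact ⟨⟨h, hgR⟩, hge⟩
      have m1 := hone (x, y, true) (by simp only [mem_RE_true]; omega) (Or.inl (by simpa using hxy))
      have m2 := hone (x, y + 1, true) (by simp only [mem_RE_true]; omega)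
        (Or.inr (by simpa using hxy))
      have m3 := hone (x, y, false) (by simp only [mem_RE_false]; omega)
        (Or.inl (by simpa using hxy))
      have m4 := hone (x + 1, y, false) (by simp only [mem_RE_false]; omega)
        (Or.inr (by simpa using hxy))
      simp only [src_mk, tgt_true, tgt_false] at m1 m2 m3 m4
      have hs := bd_single e x y
      unfold bd at hs ⊢
      rw [m1, m2, m3, m4, b2_of hxy, ← hs]
      have k1 := zmod2_add_self (b2 (W (x, y)))
      have k2 := zmod2_add_self (b2 (W (x + 1, y)))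
      have k3 := zmod2_add_self (b2 (W (x, y + 1)))
      have k4 := zmod2_add_self (b2 (W (x + 1, y + 1)))
      linear_combination k1 + k2 + k3 + k4
    · rw [b2_not_of hxy, zero_mul]
      have z1 : Z (x, y, true) = 0 := b2_not_of (fun h => hxy (by simpa using h.2))
      have z2 : Z (x, y + 1, true) = 0 := by
        rw [hswap]; exact b2_not_of (fun h => hxy (by simpa using h.2))
      have z3 : Z (x, y, false) = 0 := b2_not_of (fun h => hxy (by simpa using h.2))
      have z4 : Z (x + 1, y, false) = 0 := by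
        rw [hswap]; exact b2_not_of (fun h => hxy (by simpa using h.2))
      unfold bd
      rw [z1, z2, z3, z4]; ring
  have hf1 : ¬ C (dtgt e) := fun h => hcon (h.mono hGsub)
  have hb : ∀ x y, bd Z x y = b2 (dsrc e = (x, y)) := by
    intro x y
    rw [hbdZ]
    by_cases hxy : C (x, y)
    · rw [b2_of hxy, one_mul]
      have n1 : ¬ (dtgt e = (x, y)) := by
        intro h; rw [h] at hf1; exact hf1 hxy
      rw [b2_not_of n1, add_zero]
    · have n1 : ¬ (dsrc e = (x, y)) := by
        intro h; rw [h] at hCf0; exact hxy hCf0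
      rw [b2_not_of hxy, b2_not_of n1, zero_mul]
  have hf0in : ¬ ((dsrc e).1 < a ∨ b ≤ (dsrc e).1 ∨ (dsrc e).2 < c ∨ d ≤ (dsrc e).2) :=
    fun h => hCout (dsrc e) h hCf0
  push Not at hf0in
  have hsum : ∑ x ∈ Finset.Ico a b, ∑ y ∈ Finset.Ico c d, bd Z x y = 0 := by
    have e1 : ∀ x ∈ Finset.Ico a b, ∑ y ∈ Finset.Ico c d, bd Z x y =
        ∑ y ∈ Finset.Ico c d, (Z (x, y, true) + Z (x, y + 1, true)) +
        ∑ y ∈ Finset.Ico c d, (Z (x, y, false) + Z (x + 1, y, false)) := by
      intro x _
      rw [← Finset.sum_add_distrib]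
      apply Finset.sum_congr rfl
      intro y _
      unfold bd; ring
    rw [Finset.sum_congr rfl e1, Finset.sum_add_distrib]
    have e2 : ∑ x ∈ Finset.Ico a b, ∑ y ∈ Finset.Ico c d, (Z (x, y, true) + Z (x, y + 1, true))
        = 0 := by
      apply Finset.sum_eq_zero
      intro x hx
      rw [Finset.mem_Ico] at hx
      rw [telescope' (by omega) (fun y => Z (x, y, true))]
      have z1 : Z (x, c, true) = 0 := by
        rw [hswap]
        apply b2_not_of
        rintro ⟨_, h⟩
        exact hCout _ (by simp only [dsrc_true]; right; right; left; simp) h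
      have z2 : Z (x, d, true) = 0 := by
        apply b2_not_of
        rintro ⟨_, h⟩
        exact hCout _ (by simp only [dtgt_mk]; right; right; right; simp) h
      rw [z1, z2]; ring
    have e3 : ∑ x ∈ Finset.Ico a b, ∑ y ∈ Finset.Ico c d,
        (Z (x, y, false) + Z (x + 1, y, false)) = 0 := by
      rw [Finset.sum_comm]
      apply Finset.sum_eq_zero
      intro y hy
      rw [telescope' (by omega) (fun x => Z (x, y, false))]
      have z1 : Z (a, y, false) = 0 := by
        rw [hswap]
        apply b2_not_of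
        rintro ⟨_, h⟩
        exact hCout _ (by simp only [dsrc_false]; left; simp) h
      have z2 : Z (b, y, false) = 0 := by
        apply b2_not_of
        rintro ⟨_, h⟩
        exact hCout _ (by simp only [dtgt_mk]; right; left; simp) h
      rw [z1, z2]; ring
    rw [e2, e3]; ring
  have hsum1 : ∑ x ∈ Finset.Ico a b, ∑ y ∈ Finset.Ico c d, bd Z x y = 1 := by
    rw [Finset.sum_eq_single (dsrc e).1, Finset.sum_eq_single (dsrc e).2]
    · rw [hb, b2_of rfl]
    · intro y _ hy
      rw [hb, b2_not_of]
      intro h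
      apply hy
      rw [h]
    · intro h
      exact absurd (Finset.mem_Ico.mpr ⟨hf0in.2.2.1, hf0in.2.2.2⟩) h
    · intro x _ hx
      apply Finset.sum_eq_zero
      intro y _
      rw [hb, b2_not_of]
      intro h
      apply hx
      rw [h]
    · intro h
      exact absurd (Finset.mem_Ico.mpr ⟨hf0in.1, hf0in.2.1⟩) h
  rw [hsum] at hsum1
  exact zero_ne_one hsum1

end Pool.Agent.TH987
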