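import Pool.Agent.TH987.Dual

/-!
Duality `gg q + gg (1 - q) = 1`.
-/

namespace Pool.Agent.TH987

open H973N H974 H12S Finset Filter Topology
open H973N.NP

/-- The dual loop event. -/
def DL (m : ℕ) (F : Finset Edg) : Prop :=
  fE (dl (e0 true)) (dmp (boxE m \ F))

theorem DL_iff (m : ℕ) (F : Finset Edg) : DL m F ↔
    DReach ((↑(boxE m) \ ↑F) \ {e0 true}) (dsrc (e0 true)) (dtgt (e0 true)) := by
  unfold DL fE
  rw [src_dl, tgt_dl]
  have h : (↑((dmp (boxE m \ F)).erase (dl (e0 true))) : Set Edg) =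
      dl '' ((↑(boxE m) \ ↑F) \ {e0 true}) := by
    ext x
    rw [Finset.mem_coe, Finset.mem_erase, mem_dmp, Finset.mem_sdiff]
    constructor
    · rintro ⟨h1, h2, h3⟩
      refine ⟨dl.symm x, ⟨⟨h2, h3⟩, ?_⟩, by simp⟩
      intro h4
      apply h1
      have h5 : dl.symm x = e0 true := h4
      rw [← h5]
      simp
    · rintro ⟨y, ⟨⟨h2, h3⟩, h4⟩, rfl⟩
      refine ⟨?_, by simpa using h2, by simpa using h3⟩
      intro h5
      exact h4 (dl.injective h5)
  rw [h, reach_dl]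

theorem e0_mem {m : ℕ} (hm : 1 ≤ m) : e0 true ∈ boxE m := by
  unfold e0 boxE
  rw [mem_RE_true]
  omega

theorem excl {m : ℕ} {F : Finset Edg} (h1 : fE (e0 true) F) (h2 : DL m F) : False := by
  rw [DL_iff] at h2
  have h3 : e0 true ∈ (↑(insert (e0 true) F) : Set Edg) := by simp
  have h4 := no_loop h3 (h2.mono (by
    rintro g ⟨⟨_, hg2⟩, hg3⟩ hg4
    rw [Finset.coe_insert] at hg4
    rcases hg4 with hg4 | hg4
    · exact hg3 hg4
    · exact hg2 hg4))
  apply h4
  refine Reach.mono ?_ h1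
  intro g hg
  rw [Finset.mem_coe, Finset.mem_erase] at hg
  exact ⟨by simp [hg.2], hg.1⟩

theorem exh {m : ℕ} (hm : 1 ≤ m) {F : Finset Edg} (hF : F ⊆ boxE m) (h1 : ¬ fE (e0 true) F)
    (h2 : ¬ DL m F) : Arm m F := by
  rw [DL_iff] at h2
  by_contra hA
  apply h2
  have hsub : (↑(F.erase (e0 true)) : Set Edg) ⊆ ↑(RE (-m) m (-m) m) := by
    intro g hg
    rw [Finset.mem_coe, Finset.mem_erase] at hg
    exact hF hg.2
  have h3 := dual_loop hsub (e := e0 true) (e0_mem hm) ?_ h1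
  · refine h3.mono ?_
    rintro g ⟨⟨hg1, hg2⟩, hg3⟩
    refine ⟨⟨hg1, ?_⟩, hg3⟩
    intro hg4
    apply hg2
    rw [Finset.mem_coe, Finset.mem_erase]
    exact ⟨hg3, hg4⟩
  · rintro ⟨w, hw1, hw2⟩
    apply hA
    refine ⟨w, hw1, ?_⟩
    have h4 : src (e0 true) = (0, 0) := rfl
    rw [h4] at hw2
    refine hw2.mono ?_
    intro g hg
    rw [Finset.mem_coe, Finset.mem_erase] at hg
    exact ⟨hg.2, hF hg.2⟩

theorem pr_DL (q : ℝ) (m : ℕ) : Pr (fun _ => q) (boxE m) (DL m) =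
    Pr (fun _ => 1 - q) (dmp (boxE m)) (fE (dl (e0 true))) := by
  rw [pr_dmp]
  have h := Pr_compl (fun _ => q) (boxE m) (fun F => fE (dl (e0 true)) (dmp F))
  rw [h]
  rfl

theorem pr_DL_le {q : ℝ} (h0 : 0 ≤ q) (h1 : q ≤ 1) (m : ℕ) :
    Pr (fun _ => q) (boxE m) (DL m) ≤ gg (1 - q) := by
  rw [pr_DL]
  apply pr_fE_le (m := m + 1) (by linarith) (by linarith)
  rintro ⟨x, y, _ | _⟩ h
  · rw [mem_dmp, dls_f, boxE, mem_RE_true] at h
    unfold e0
    rw [dl_t]
    unfold blk bp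
    rw [mem_RE_false]
    push_cast
    omega
  · rw [mem_dmp, dls_t, boxE, mem_RE_false] at h
    unfold e0
    rw [dl_t]
    unfold blk bp
    rw [mem_RE_true]
    push_cast
    omega

theorem le_pr_DL {q : ℝ} (h0 : 0 ≤ q) (h1 : q ≤ 1) (m : ℕ) :
    gm (1 - q) m ≤ Pr (fun _ => q) (boxE (m + 1)) (DL (m + 1)) := by
  rw [pr_DL]
  apply le_pr_fE (by linarith) (by linarith)
  rintro ⟨x, y, _ | _⟩ h
  · unfold e0 at h
    rw [dl_t] at h
    unfold blk bp at h
    rw [mem_RE_false] at h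
    rw [mem_dmp, dls_f, boxE, mem_RE_true]
    push_cast at h ⊢
    omega
  · unfold e0 at h
    rw [dl_t] at h
    unfold blk bp at h
    rw [mem_RE_true] at h
    rw [mem_dmp, dls_t, boxE, mem_RE_false]
    push_cast at h ⊢
    omega

theorem sum_le {q : ℝ} (h0 : 0 ≤ q) (h1 : q ≤ 1) (m : ℕ) :
    gm q (m + 1) + gm (1 - q) m ≤ 1 := by
  have h2 := le_pr_DL h0 h1 m
  have h3 : Pr (fun _ => q) (boxE (m+1)) (fE (e0 true)) + Pr (fun _ => q) (boxE (m+1)) (DL (m+1)) ≤
      1 := by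
    unfold Pr
    rw [← Ex_add]
    refine Ex_le_of_le (okq h0 h1) ?_
    intro F _
    by_cases c1 : fE (e0 true) F
    · have c2 : ¬ DL (m+1) F := fun h => excl c1 h
      rw [ind_of c1, ind_not_of c2]
      norm_num
    · rw [ind_not_of c1, zero_add]
      exact ind_le_one _
  have h4 : gm q (m+1) = Pr (fun _ => q) (boxE (m+1)) (fE (e0 true)) := rfl
  linarith

theorem le_sum {q : ℝ} (h0 : 0 ≤ q) (h1 : q ≤ 1) {m : ℕ} (hm : 1 ≤ m) :
    1 ≤ gg q + gg (1 - q) + arm q m := by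
  have h2 := pr_DL_le h0 h1 m
  have h3 : 1 ≤ Pr (fun _ => q) (boxE m) (fE (e0 true)) + Pr (fun _ => q) (boxE m) (DL m) +
      Pr (fun _ => q) (boxE m) (Arm m) := by
    unfold Pr
    rw [← Ex_add, ← Ex_add, ← Ex_const (fun _ => q) (boxE m) 1]
    refine Ex_mono (okq h0 h1) ?_
    intro F hF
    by_cases c1 : fE (e0 true) F
    · rw [ind_of c1]
      have := ind_nonneg (DL m F)
      have := ind_nonneg (Arm m F)
      linarith
    · by_cases c2 : DL m F
      · rw [ind_of c2]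
        have := ind_nonneg (fE (e0 true) F)
        have := ind_nonneg (Arm m F)
        linarith
      · have c3 := exh hm hF c1 c2
        rw [ind_of c3]
        have := ind_nonneg (fE (e0 true) F)
        have := ind_nonneg (DL m F)
        linarith
  have h4 : Pr (fun _ => q) (boxE m) (fE (e0 true)) ≤ gg q := gm_le_gg h0 h1 m
  have h5 : arm q m = Pr (fun _ => q) (boxE m) (Arm m) := rfl
  linarith

theorem gg_dual_le {q : ℝ} (h0 : 0 ≤ q) (h1 : q ≤ 1) : gg q + gg (1 - q) ≤ 1 := by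
  have h2 : Tendsto (fun m => gm q (m + 1) + gm (1 - q) m) atTop (𝓝 (gg q + gg (1 - q))) :=
    ((gm_tendsto h0 h1).comp (tendsto_add_atTop_nat 1)).add
      (gm_tendsto (by linarith) (by linarith))
  exact le_of_tendsto' h2 (fun m => sum_le h0 h1 m)

theorem gg_dual_half {q : ℝ} (h0 : 0 ≤ q) (h1 : q ≤ 1/2) : gg q + gg (1 - q) = 1 := by
  refine le_antisymm (gg_dual_le h0 (by linarith)) ?_
  obtain ⟨c, C, hc, hC, harm⟩ := Pool.Agent.W424.NC.arm_crit
  have h2 : Tendsto (fun m : ℕ => gg q + gg (1 - q) + C * (m:ℝ)^(-(5/48) : ℝ)) atTop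
      (𝓝 (gg q + gg (1 - q) + C * 0)) := by
    apply Tendsto.const_add
    apply Tendsto.const_mul
    exact (tendsto_rpow_neg_atTop (by norm_num : (0:ℝ) < 5/48)).comp tendsto_natCast_atTop_atTop
  rw [mul_zero, add_zero] at h2
  refine ge_of_tendsto h2 ?_
  filter_upwards [eventually_ge_atTop 1] with m hm
  have h3 := le_sum h0 (by linarith) hm
  have h4 := arm_mono_param h0 h1 (by norm_num) m
  have h5 := (harm m hm).2
  linarith

/-- Duality. -/
theorem gg_dual {q : ℝ} (h0 : 0 ≤ q) (h1 : q ≤ 1) : gg q + gg (1 - q) = 1 := by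
  rcases le_total q (1/2) with h | h
  · exact gg_dual_half h0 h
  · have := gg_dual_half (q := 1 - q) (by linarith) (by linarith)
    rw [sub_sub_cancel] at this
    linarith

theorem gg_half : gg (1/2) = 1/2 := by
  have := gg_dual (q := 1/2) (by norm_num) (by norm_num)
  norm_num at this
  linarith

end Pool.Agent.TH987
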