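import Mathlib

/-!
A function with small chord defects on dyadic intervals has a first-order expansion.
-/

namespace Pool.Agent.TH987

open Filter Topology

theorem expand {h : ℝ → ℝ} {h0 C x0 : ℝ} (hC : 0 < C) (hx0 : 0 < x0)
    (hchord : ∀ y, 0 < y → y ≤ x0 → ∀ x, y/4 ≤ x → x ≤ y →
      |(3*y/4) * h x - (x - y/4) * h y - (y - x) * h (y/4)| ≤ C * y^(8/3 : ℝ))
    (hlim : Tendsto (fun j : ℕ => h (x0 * (1/2)^j)) atTop (𝓝 h0)) :
    ∃ b D : ℝ, 0 < D ∧ ∀ x, 0 < x → x ≤ x0 → |h x - h0 - b * x| ≤ D * x^(5/3 : ℝ) := by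
  obtain ⟨y, hy⟩ : ∃ y : ℕ → ℝ, y = fun j => x0 * (1/2)^j := ⟨_, rfl⟩
  obtain ⟨a, ha⟩ : ∃ a : ℕ → ℝ, a = fun j => h (y j) := ⟨_, rfl⟩
  obtain ⟨s, hs⟩ : ∃ s : ℕ → ℝ, s = fun j => (a j - a (j+1)) / y (j+1) := ⟨_, rfl⟩
  obtain ⟨r, hr⟩ : ∃ r : ℝ, r = (1/2 : ℝ)^(2/3 : ℝ) := ⟨_, rfl⟩
  have hr0 : 0 < r := by rw [hr]; positivity
  have hr1 : r < 1 := by rw [hr]; exact Real.rpow_lt_one (by norm_num) (by norm_num) (by norm_num)
  have hy0 : ∀ j, 0 < y j := by intro j; rw [hy]; positivity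
  have hyx : ∀ j, y j ≤ x0 := by
    intro j
    rw [hy]
    have : ((1:ℝ)/2)^j ≤ 1 := pow_le_one₀ (by norm_num) (by norm_num)
    nlinarith
  have hy1 : ∀ j, y (j+1) = y j / 2 := by
    intro j
    rw [hy]
    simp only [pow_succ]
    ring
  have hy2 : ∀ j, y (j+2) = y j / 4 := by
    intro j
    rw [hy1, hy1]
    ring
  have hy23 : ∀ j, (y j)^(2/3 : ℝ) = x0^(2/3 : ℝ) * r^j := by
    intro j
    rw [hy, hr]
    simp only
    rw [Real.mul_rpow hx0.le (by positivity), ← Real.rpow_natCast ((1/2 : ℝ)^(2/3 : ℝ)),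
      ← Real.rpow_mul (by norm_num), ← Real.rpow_natCast (1/2 : ℝ), ← Real.rpow_mul (by norm_num),
      mul_comm (j:ℝ)]
  have hy83 : ∀ j, (y j)^(8/3 : ℝ) = (y j)^2 * (x0^(2/3 : ℝ) * r^j) := by
    intro j
    rw [← hy23, ← Real.rpow_natCast, ← Real.rpow_add (hy0 j)]
    norm_num
  have hy53 : ∀ j, (y j)^(5/3 : ℝ) = y j * (x0^(2/3 : ℝ) * r^j) := by
    intro j
    rw [← hy23]
    nth_rewrite 2 [← Real.rpow_one (y j)]
    rw [← Real.rpow_add (hy0 j)]
    norm_num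
  have hsd : ∀ j, dist (s j) (s (j+1)) ≤ (8 * C * x0^(2/3 : ℝ)) * r^j := by
    intro j
    have h1 := hchord (y j) (hy0 j) (hyx j) (y (j+1)) (by rw [hy1]; linarith [hy0 j])
      (by rw [hy1]; linarith [hy0 j])
    rw [← hy2] at h1
    have ha0 : h (y j) = a j := by rw [ha]
    have ha1 : h (y (j+1)) = a (j+1) := by rw [ha]
    have ha2 : h (y (j+2)) = a (j+2) := by rw [ha]
    rw [ha0, ha1, ha2] at h1
    have h2 : s j - s (j+1) = -(8 / (y j)^2) * ((3*y j/4) * a (j+1) - (y (j+1) - y (j+2)) * a j -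
        (y j - y (j+1)) * a (j+2)) := by
      rw [hs]
      simp only
      rw [show j + 1 + 1 = j + 2 from rfl, hy1, hy2]
      have := (hy0 j).ne'
      field_simp
      ring
    rw [Real.dist_eq, h2, abs_mul, abs_neg, abs_of_pos (by have := hy0 j; positivity)]
    calc (8 / (y j)^2) * |(3*y j/4) * a (j+1) - (y (j+1) - y (j+2)) * a j -
          (y j - y (j+1)) * a (j+2)| ≤ (8 / (y j)^2) * (C * (y j)^(8/3 : ℝ)) :=
          mul_le_mul_of_nonneg_left h1 (by have := hy0 j; positivity)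
      _ = 8 * C * x0^(2/3 : ℝ) * r^j := by
          rw [hy83]
          have := (hy0 j).ne'
          field_simp
  have hsc : CauchySeq s := cauchySeq_of_le_geometric r _ hr1 hsd
  obtain ⟨b, hb⟩ := cauchySeq_tendsto_of_complete hsc
  have hsb : ∀ j, |s j - b| ≤ (8 * C * x0^(2/3 : ℝ)) * r^j / (1 - r) := by
    intro j
    have := dist_le_of_le_geometric_of_tendsto r _ hr1 hsd hb j
    rwa [Real.dist_eq] at this
  obtain ⟨K, hK⟩ : ∃ K : ℝ, K = (8 * C * x0^(2/3 : ℝ)) / (1 - r) := ⟨_, rfl⟩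
  have h1r : 0 < 1 - r := by linarith
  have hK0 : 0 < K := by rw [hK]; positivity
  have hsb' : ∀ j, |s j - b| ≤ K * r^j := by
    intro j
    refine (hsb j).trans (le_of_eq ?_)
    rw [hK]; ring
  obtain ⟨e, he⟩ : ∃ e : ℕ → ℝ, e = fun j => a j - h0 - b * y j := ⟨_, rfl⟩
  have hed : ∀ j, dist (e j) (e (j+1)) ≤ (K * x0 / 2) * (r/2)^j := by
    intro j
    have h1 : e j - e (j+1) = (s j - b) * y (j+1) := by
      rw [he, hs]
      simp only
      have := (hy0 (j+1)).ne'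
      field_simp
      rw [hy1]
      ring
    rw [Real.dist_eq, h1, abs_mul, abs_of_pos (hy0 _)]
    calc |s j - b| * y (j+1) ≤ (K * r^j) * y (j+1) :=
          mul_le_mul_of_nonneg_right (hsb' j) (hy0 _).le
      _ = (K * x0 / 2) * (r/2)^j := by
          rw [hy]
          simp only
          rw [div_pow r 2 j, div_pow (1:ℝ) 2 (j+1), pow_succ]
          field_simp
          ring
  have hylim : Tendsto y atTop (𝓝 0) := by
    rw [hy]
    have := (tendsto_pow_atTop_nhds_zero_of_lt_one (r := (1/2 : ℝ)) (by norm_num) (by norm_num))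
    have := this.const_mul x0
    rwa [mul_zero] at this
  have helim : Tendsto e atTop (𝓝 0) := by
    rw [he]
    have h1 : Tendsto a atTop (𝓝 h0) := by rw [ha, hy]; exact hlim
    have h2 := (h1.sub_const h0).sub (hylim.const_mul b)
    rw [sub_self, mul_zero, sub_zero] at h2
    exact h2
  have hr2 : r / 2 < 1 := by linarith
  have hej : ∀ j, |e j| ≤ (K * x0 / 2) * (r/2)^j / (1 - r/2) := by
    intro j
    have := dist_le_of_le_geometric_of_tendsto (r/2) _ hr2 hed helim j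
    rwa [Real.dist_eq, sub_zero] at this
  have hej' : ∀ j, |e j| ≤ (K / x0^(2/3 : ℝ)) * (y j)^(5/3 : ℝ) := by
    intro j
    refine (hej j).trans ?_
    rw [hy53, hy]
    simp only
    rw [div_pow r 2 j, div_pow (1:ℝ) 2 j, one_pow]
    have h2 : 0 < 1 - r/2 := by linarith
    have h3 : (1:ℝ)/2 / (1 - r/2) ≤ 1 := by
      rw [div_le_one h2]
      linarith
    calc K * x0 / 2 * (r ^ j / 2 ^ j) / (1 - r / 2) =
        (K * x0 * (r ^ j / 2 ^ j)) * ((1:ℝ)/2 / (1 - r/2)) := by ring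
      _ ≤ (K * x0 * (r ^ j / 2 ^ j)) * 1 := mul_le_mul_of_nonneg_left h3 (by positivity)
      _ = _ := by
          field_simp
  obtain ⟨K', hK'⟩ : ∃ K' : ℝ, K' = K / x0^(2/3 : ℝ) := ⟨_, rfl⟩
  have hK'0 : 0 < K' := by rw [hK']; positivity
  rw [← hK'] at hej'
  refine ⟨b, ((4/3) * C + 2 * K') * 2^(5/3 : ℝ), by positivity, ?_⟩
  intro x hx hxx0
  obtain ⟨j, hj1, hj2⟩ := exists_nat_pow_near_of_lt_one (x := x/x0) (y := 1/2) (by positivity)
    (by rw [div_le_one hx0]; exact hxx0) (by norm_num) (by norm_num)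
  rw [lt_div_iff₀ hx0] at hj1
  rw [div_le_iff₀ hx0] at hj2
  have hj1' : y (j+1) < x := by rw [hy]; simp only; linarith
  have hj2' : x ≤ y j := by rw [hy]; simp only; linarith
  rw [hy1] at hj1'
  have hyj := hy0 j
  have h1 := hchord (y j) hyj (hyx j) x (by linarith) hj2'
  have h2 : (3 * y j / 4) * (h x - h0 - b * x) = ((3*y j/4) * h x - (x - y j/4) * h (y j) -
      (y j - x) * h (y j/4)) + (x - y j/4) * e j + (y j - x) * e (j+2) := by
    rw [he, ha]
    simp only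
    rw [hy2]
    ring
  have h3 : |(3 * y j / 4) * (h x - h0 - b * x)| ≤ C * (y j)^(8/3 : ℝ) +
      (3 * y j / 4) * (K' * (y j)^(5/3 : ℝ)) + (3 * y j / 4) * (K' * (y j)^(5/3 : ℝ)) := by
    rw [h2]
    refine (abs_add_le _ _).trans (add_le_add ((abs_add_le _ _).trans (add_le_add h1 ?_)) ?_)
    · rw [abs_mul, abs_of_nonneg (by linarith)]
      exact mul_le_mul (by linarith) (hej' j) (abs_nonneg _) (by linarith)
    · rw [abs_mul, abs_of_nonneg (by linarith)]
      refine mul_le_mul (by linarith) ((hej' (j+2)).trans ?_) (abs_nonneg _) (by linarith)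
      apply mul_le_mul_of_nonneg_left _ hK'0.le
      apply Real.rpow_le_rpow (hy0 _).le _ (by norm_num)
      rw [hy2]; linarith
  rw [abs_mul, abs_of_pos (by positivity)] at h3
  have h4 : (y j)^(8/3 : ℝ) = y j * (y j)^(5/3 : ℝ) := by
    nth_rewrite 2 [← Real.rpow_one (y j)]
    rw [← Real.rpow_add hyj]
    norm_num
  rw [h4] at h3
  have h5 : |h x - h0 - b * x| ≤ ((4/3) * C + 2 * K') * (y j)^(5/3 : ℝ) := by
    have h6 : (3 * y j / 4) * |h x - h0 - b * x| ≤ (3 * y j / 4) *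
        (((4/3) * C + 2 * K') * (y j)^(5/3 : ℝ)) := by
      refine h3.trans (le_of_eq ?_)
      ring
    exact le_of_mul_le_mul_left h6 (by positivity)
  refine h5.trans ?_
  have h6 : (y j)^(5/3 : ℝ) ≤ 2^(5/3 : ℝ) * x^(5/3 : ℝ) := by
    rw [← Real.mul_rpow (by norm_num) hx.le]
    apply Real.rpow_le_rpow hyj.le _ (by norm_num)
    linarith
  calc ((4/3) * C + 2 * K') * (y j)^(5/3 : ℝ) ≤ ((4/3) * C + 2 * K') *
        (2^(5/3 : ℝ) * x^(5/3 : ℝ)) := mul_le_mul_of_nonneg_left h6 (by positivity)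
    _ = _ := by ring

end Pool.Agent.TH987
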