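import Pool.Agent.TH987.Near
import Pool.Agent.TH987.Clu
import Pool.Agent.H974R2.FourArm

/-!
Conditioning on a box around a centre edge.
-/

namespace Pool.Agent.TH987

open H973N H974 H12S Finset
open H973N.NP

/-- Far from the base point of `c`. -/
def far (c : Edg) (R : ℤ) (v : Vtx) : Prop :=
  v.1 ≤ c.1 - R ∨ c.1 + R ≤ v.1 ∨ v.2 ≤ c.2.1 - R ∨ c.2.1 + R ≤ v.2

theorem far_mono {c : Edg} {R R' : ℤ} (h : R' ≤ R) {v : Vtx} (hv : far c R v) : far c R' v := by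
  unfold far at hv ⊢
  omega

theorem end_far {c A : Edg} {R : ℕ} (h : A ∉ blk (bp c) R) :
    far c R (src A) ∧ far c R (tgt A) := by
  obtain ⟨x, y, b⟩ := A
  unfold blk bp at h
  unfold far
  cases b
  · rw [mem_RE_false] at h
    simp only [src_mk, tgt_false]
    omega
  · rw [mem_RE_true] at h
    simp only [src_mk, tgt_true]
    omega

/-- The annulus around the base point of `c` is blocked. -/
def BlkAt (c : Edg) (R1 R2 : ℕ) (F : Finset Edg) : Prop :=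
  Blk R1 R2 ((trl (-c.1) (-c.2.1)).mp F)

/-- The edges of the annulus. -/
noncomputable def ring (c : Edg) (R1 R2 : ℕ) : Finset Edg := blk (bp c) R2 \ blk (bp c) R1

theorem ring_trl (c : Edg) (R1 R2 : ℕ) :
    (trl (-c.1) (-c.2.1)).mp (ring c R1 R2) = annE R1 R2 := by
  unfold ring annE boxE blk bp
  rw [LSym.mp_sdiff, trl_RE, trl_RE]
  congr 2 <;> ring_nf

theorem BlkAt_local {c : Edg} {R1 R2 : ℕ} (h12 : R1 < R2) (F : Finset Edg) :
    ¬ BlkAt c R1 R2 F ↔ ¬ BlkAt c R1 R2 (F ∩ ring c R1 R2) := by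
  unfold BlkAt
  rw [LSym.mp_inter, ring_trl, ← Blk_local h12 (Finset.Subset.refl _)]

/-- The probability that an annulus is crossed. -/
noncomputable def bet (q : ℝ) (R1 R2 : ℕ) : ℝ :=
  Pr (fun _ => q) (annE R1 R2) (fun F => ¬ Blk R1 R2 F)

theorem bet_nonneg {q : ℝ} (h0 : 0 ≤ q) (h1 : q ≤ 1) (R1 R2 : ℕ) : 0 ≤ bet q R1 R2 :=
  Pr_nonneg (fun _ => ⟨h0, h1⟩) _ _

theorem bet_le_one {q : ℝ} (h0 : 0 ≤ q) (h1 : q ≤ 1) (R1 R2 : ℕ) : bet q R1 R2 ≤ 1 :=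
  Pr_le_one (fun _ => ⟨h0, h1⟩) _ _

theorem pr_BlkAt {q : ℝ} {c : Edg} {R1 R2 : ℕ} (h12 : R1 < R2) {S : Finset Edg}
    (hS : ring c R1 R2 ⊆ S) : PQ q S (fun F => ¬ BlkAt c R1 R2 F) = bet q R1 R2 := by
  have h1 : PQ q S (fun F => ¬ BlkAt c R1 R2 F) =
      PQ q (ring c R1 R2) (fun F => ¬ BlkAt c R1 R2 F) :=
    Pr_local hS (fun F _ => BlkAt_local h12 F)
  rw [h1]
  unfold bet PQ
  rw [← ring_trl c, LSym.pr]
  rfl

theorem nblk_at {c : Edg} {R1 R2 : ℕ} (h12 : R1 < R2) {F : Finset Edg} {v : Vtx}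
    (h : Reach (↑F : Set Edg) (src c) v) (hv : far c R2 v) : ¬ BlkAt c R1 R2 F := by
  unfold BlkAt
  have h2 : (R1 : ℤ) < R2 := by exact_mod_cast h12
  have h0 : (0 : ℤ) ≤ R1 := by positivity
  have h3 := (trl (-c.1) (-c.2.1)).reach h
  rw [← LSym.coe_mp] at h3
  refine not_blk_of_reach h2 ?_ h3 ?_
  · unfold inR
    show (-(R1:ℤ) ≤ c.1 + -c.1 ∧ c.1 + -c.1 ≤ R1) ∧ (-(R1:ℤ) ≤ c.2.1 + -c.2.1 ∧ c.2.1 + -c.2.1 ≤ R1)
    omega
  · show v.1 + -c.1 ≤ -(R2:ℤ) ∨ (R2:ℤ) ≤ v.1 + -c.1 ∨ v.2 + -c.2.1 ≤ -(R2:ℤ) ∨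
      (R2:ℤ) ≤ v.2 + -c.2.1
    unfold far at hv
    omega

theorem self_blk {c : Edg} {R : ℕ} (hR : 1 ≤ R) : c ∈ blk (bp c) R := FPX.self_mem_blk hR

theorem blk_mono {c : Edg} {R R' : ℕ} (h : R ≤ R') : blk (bp c) R ⊆ blk (bp c) R' := by
  have h' : (R : ℤ) ≤ R' := by exact_mod_cast h
  unfold blk
  apply RE_subset <;> linarith

theorem co_single {a b : Vtx} {O : Set Edg} {F : Finset Edg} :
    CO {a} {b} O F ↔ Reach ((↑F : Set Edg) ∪ O) a b := by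
  unfold CO Cn
  constructor
  · rintro ⟨u, hu, v, hv, h⟩
    rw [Set.mem_singleton_iff] at hu hv
    rwa [hu, hv] at h
  · intro h
    exact ⟨a, rfl, b, rfl, h⟩

/-- A pivotal edge of the connection of two points. -/
theorem piv_split {a b : Vtx} {O : Set Edg} {A : Edg} {X : Finset Edg}
    (h : Pf (CO {a} {b} O) A X) :
    ¬ Reach ((↑(X.erase A) : Set Edg) ∪ O) a b ∧
    ((Reach ((↑(X.erase A) : Set Edg) ∪ O) a (src A) ∧
      Reach ((↑(X.erase A) : Set Edg) ∪ O) (tgt A) b) ∨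
    (Reach ((↑(X.erase A) : Set Edg) ∪ O) a (tgt A) ∧
      Reach ((↑(X.erase A) : Set Edg) ∪ O) (src A) b)) := by
  obtain ⟨h1, h2⟩ := h
  rw [co_single] at h1 h2
  refine ⟨h2, ?_⟩
  have h3 : ((↑(insert A X) : Set Edg) ∪ O) ⊆ insert A ((↑(X.erase A) : Set Edg) ∪ O) := by
    intro x hx
    rcases hx with hx | hx
    · rw [Finset.mem_coe, Finset.mem_insert] at hx
      by_cases hxA : x = A
      · exact Or.inl hxA
      · right; left
        rw [Finset.mem_coe, Finset.mem_erase]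
        exact ⟨hxA, hx.resolve_left hxA⟩
    · exact Or.inr (Or.inr hx)
  rcases reachIns.1 (h1.mono h3) with h4 | h4 | h4
  · exact absurd h4 h2
  · exact Or.inl h4
  · exact Or.inr h4

theorem exit_box {c : Edg} {R : ℕ} (hR : 1 ≤ R) {U : Set Edg} {u v : Vtx}
    (hu : u = src c ∨ u = tgt c) (h : Reach U u v) (hv : far c R v) :
    ∃ w ∈ bdR (c.1 - R) (c.1 + R) (c.2.1 - R) (c.2.1 + R),
      Reach (U ∩ ↑(RE (c.1 - R) (c.1 + R) (c.2.1 - R) (c.2.1 + R))) u w := by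
  have hR' : (1:ℤ) ≤ R := by exact_mod_cast hR
  obtain ⟨w, h1, h2, h3⟩ := first_exit (a := c.1 - R) (b := c.1 + R) (c := c.2.1 - R)
    (d := c.2.1 + R) (by
      obtain ⟨x, y, b⟩ := c
      unfold inR
      cases b
      · simp only [src_mk, tgt_false] at hu ⊢
        rcases hu with rfl | rfl <;> simp only <;> omega
      · simp only [src_mk, tgt_true] at hu ⊢
        rcases hu with rfl | rfl <;> simp only <;> omega) h hv
  exact ⟨w, ⟨h1, h2⟩, h3⟩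

/-- A second difference outside the box forces arms inside the box. -/
theorem good_of_SD {c A B : Edg} {R' : ℕ} {w F : Finset Edg} (hw : w ⊆ blk (bp c) R')
    (hF : ∀ x ∈ F, x ∉ blk (bp c) R') (hA : A ∉ blk (bp c) R') (hB : B ∉ blk (bp c) R')
    (h : SD (CO {src c} {tgt c} ↑(w.erase c)) A B F) {ρ R1 R2 : ℕ} (hρ : 1 ≤ ρ) (hρ' : ρ ≤ R')
    (h12 : R1 < R2) (h2 : R2 ≤ R') : L4 ρ c (↑w : Set Edg) ∧ ¬ BlkAt c R1 R2 w := by
  obtain ⟨X, hX, hP⟩ : ∃ X : Finset Edg, (∀ x ∈ X, x ∉ blk (bp c) R') ∧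
      Pf (CO {src c} {tgt c} ↑(w.erase c)) A X := by
    rcases h.1 with h | h
    · exact ⟨_, fun x hx => hF x (Finset.mem_of_mem_erase hx), h⟩
    · refine ⟨_, fun x hx => ?_, h⟩
      rw [Finset.mem_insert] at hx
      rcases hx with rfl | hx
      · exact hB
      · exact hF x hx
  obtain ⟨n1, hs⟩ := piv_split hP
  obtain ⟨U, hU⟩ : ∃ U : Set Edg, U = (↑(X.erase A) : Set Edg) ∪ ↑(w.erase c) := ⟨_, rfl⟩
  rw [← hU] at n1 hs
  obtain ⟨fs, ft⟩ := end_far hA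
  -- arms from both ends
  have arm1 : ∃ v, far c R' v ∧ Reach U (src c) v := by
    rcases hs with ⟨h1, _⟩ | ⟨h1, _⟩
    · exact ⟨_, fs, h1⟩
    · exact ⟨_, ft, h1⟩
  have arm2 : ∃ v, far c R' v ∧ Reach U (tgt c) v := by
    rcases hs with ⟨_, h1⟩ | ⟨_, h1⟩
    · exact ⟨_, ft, h1.symm⟩
    · exact ⟨_, fs, h1.symm⟩
  have inside : ∀ R : ℕ, R ≤ R' →
      U ∩ ↑(RE (c.1 - R) (c.1 + R) (c.2.1 - R) (c.2.1 + R)) ⊆
        ((↑w : Set Edg) ∩ ↑(RE (c.1 - R) (c.1 + R) (c.2.1 - R) (c.2.1 + R))) \ {c} := by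
    rintro R hR x ⟨hx, hxR⟩
    have hxb : x ∈ blk (bp c) R' := blk_mono hR (show x ∈ blk (bp c) R from hxR)
    rw [hU] at hx
    rcases hx with hx | hx
    · rw [Finset.mem_coe, Finset.mem_erase] at hx
      exact absurd hxb (hX x hx.2)
    · rw [Finset.mem_coe, Finset.mem_erase] at hx
      exact ⟨⟨hx.2, hxR⟩, hx.1⟩
  constructor
  · unfold L4 A4
    refine ⟨?_, ?_, ?_⟩
    · obtain ⟨v, hv, hr⟩ := arm1
      obtain ⟨w0, h1, h3⟩ := exit_box hρ (Or.inl rfl) hr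
        (far_mono (by exact_mod_cast hρ') hv)
      exact ⟨w0, h1, h3.mono (inside ρ hρ')⟩
    · obtain ⟨v, hv, hr⟩ := arm2
      obtain ⟨w0, h1, h3⟩ := exit_box hρ (Or.inr rfl) hr
        (far_mono (by exact_mod_cast hρ') hv)
      exact ⟨w0, h1, h3.mono (inside ρ hρ')⟩
    · intro h3
      apply n1
      apply h3.mono
      rintro x ⟨⟨hx, _⟩, hxc⟩
      rw [hU]
      right
      rw [Finset.mem_coe, Finset.mem_erase]
      exact ⟨hxc, hx⟩
  · obtain ⟨v, hv, hr⟩ := arm1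
    have h22 : 1 ≤ R2 := by omega
    obtain ⟨w0, h1, h3⟩ := exit_box h22 (Or.inl rfl) hr (far_mono (by exact_mod_cast h2) hv)
    refine nblk_at h12 (h3.mono ?_) ?_
    · intro x hx
      exact (inside R2 h2 hx).1.1
    · obtain ⟨h4, h5⟩ := h1
      unfold far
      unfold inR at h4
      omega

/-- Splitting a second difference of `fE c`. -/
theorem SD_union {c A B : Edg} {w F : Finset Edg} (hA : A ∉ w) (hB : B ∉ w)
    (hcA : c ≠ A) (hcB : c ≠ B) (hcF : c ∉ F) :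
    SD (fE c) A B (w ∪ F) ↔ SD (CO {src c} {tgt c} ↑(w.erase c)) A B F := by
  have key : ∀ G : Finset Edg, c ∉ G →
      (fE c (w ∪ G) ↔ CO {src c} {tgt c} (↑(w.erase c) : Set Edg) G) := by
    intro G hG
    rw [co_single]
    unfold fE
    have : (↑((w ∪ G).erase c) : Set Edg) = (↑G : Set Edg) ∪ ↑(w.erase c) := by
      ext x
      simp only [Finset.coe_erase, Finset.coe_union, Set.mem_diff, Set.mem_union, Finset.mem_coe,
        Set.mem_singleton_iff]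
      constructor
      · rintro ⟨h1 | h1, h2⟩
        · exact Or.inr ⟨h1, h2⟩
        · exact Or.inl h1
      · rintro (h1 | ⟨h1, h2⟩)
        · exact ⟨Or.inr h1, fun h => hG (h ▸ h1)⟩
        · exact ⟨Or.inl h1, h2⟩
    rw [this]
  have i1 : ∀ (y : Edg) (G : Finset Edg), insert y (w ∪ G) = w ∪ insert y G := by
    intro y G; ext x; simp only [mem_insert, mem_union]; tauto
  have i2 : ∀ (y : Edg) (G : Finset Edg), y ∉ w → (w ∪ G).erase y = w ∪ G.erase y := by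
    intro y G hy; ext x; simp only [mem_erase, mem_union]
    constructor
    · rintro ⟨h1, h2 | h2⟩
      · exact Or.inl h2
      · exact Or.inr ⟨h1, h2⟩
    · rintro (h2 | ⟨h1, h2⟩)
      · exact ⟨fun h => hy (h ▸ h2), Or.inl h2⟩
      · exact ⟨h1, Or.inr h2⟩
  have c1 : ∀ (y : Edg) (G : Finset Edg), c ≠ y → c ∉ G → c ∉ insert y G := by
    intro y G h1 h2 h3
    rw [Finset.mem_insert] at h3
    exact h3.elim h1 h2
  have c2 : ∀ (y : Edg) (G : Finset Edg), c ∉ G → c ∉ G.erase y := by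
    intro y G h2 h3
    exact h2 (Finset.mem_of_mem_erase h3)
  unfold SD Pf
  rw [i2 B F hB, i2 A F hA, i1 B F, i1 A F, i1 A, i1 B, i1 A, i2 A _ hA, i2 A _ hA, i2 B _ hB,
    i1 B, i2 B _ hB,
    key _ (c1 _ _ hcA (c2 _ _ hcF)), key _ (c2 _ _ (c2 _ _ hcF)),
    key _ (c1 _ _ hcA (c1 _ _ hcB hcF)), key _ (c2 _ _ (c1 _ _ hcB hcF)),
    key _ (c1 _ _ hcB (c2 _ _ hcF)), key _ (c2 _ _ (c2 _ _ hcF)),
    key _ (c1 _ _ hcB (c1 _ _ hcA hcF)), key _ (c2 _ _ (c1 _ _ hcA hcF))]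

end Pool.Agent.TH987
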