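import Pool.Agent.TH987.Dual2
import Pool.Agent.TH987.Expand

/-!
The expansion of `gg` at the critical point; continuity of `gg`.
-/

namespace Pool.Agent.TH987

open H973N H974 H12S Finset Filter Topology
open H973N.NP

theorem gg_half_left {x0 : ℝ} (h0 : 0 < x0) (h1 : x0 ≤ 1/4) :
    Tendsto (fun j : ℕ => gg (1/2 - x0 * (1/2)^j)) atTop (𝓝 (1/2)) := by
  suffices hS : Tendsto (fun j : ℕ => gg (1/2 - x0 * (1/2)^j)) atTop (𝓝 (gg (1/2))) by
    rwa [gg_half] at hS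
  rw [Metric.tendsto_atTop]
  intro ε hε
  obtain ⟨δ, hδ, hd⟩ := gg_left (q := 1/2) (by norm_num) (by norm_num) hε
  have h2 : Tendsto (fun j : ℕ => x0 * ((1:ℝ)/2)^j) atTop (𝓝 0) := by
    have := (tendsto_pow_atTop_nhds_zero_of_lt_one (r := (1/2 : ℝ)) (by norm_num)
      (by norm_num)).const_mul x0
    rwa [mul_zero] at this
  obtain ⟨N, hN⟩ := (Metric.tendsto_atTop.1 h2) δ hδ
  refine ⟨N, ?_⟩
  intro n hn
  have h3 := hN n hn
  have h4 : 0 < x0 * ((1:ℝ)/2)^n := by positivity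
  have h5 : x0 * ((1:ℝ)/2)^n ≤ x0 := by
    have : ((1:ℝ)/2)^n ≤ 1 := pow_le_one₀ (by norm_num) (by norm_num)
    nlinarith
  rw [Real.dist_eq, sub_zero, abs_of_pos h4] at h3
  have h6 := hd (1/2 - x0 * (1/2)^n) (by linarith) (by linarith) (by linarith)
  have h7 := gg_mono (p := 1/2 - x0 * (1/2)^n) (q := 1/2) (by linarith) (by linarith) (by norm_num)
  rw [Real.dist_eq, abs_lt]
  constructor <;> linarith

theorem gg_expand_left : ∃ b D x0 : ℝ, 0 < D ∧ 0 < x0 ∧ x0 ≤ 1/4 ∧ ∀ x, 0 < x → x ≤ x0 →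
    |gg (1/2 - x) - 1/2 - b * x| ≤ D * x^(5/3 : ℝ) := by
  obtain ⟨C, x0, hC, hx0, hx04, hch⟩ := chord
  have hkey : ∀ y, 0 < y → y ≤ x0 → ∀ x, y/4 ≤ x → x ≤ y →
      |(3*y/4) * gg (1/2 - x) - (x - y/4) * gg (1/2 - y) - (y - x) * gg (1/2 - y/4)| ≤
        C * y^(8/3 : ℝ) := by
    intro y hy hyx x hx1 hx2
    have h1 := hch y hy hyx (1/2 - y) (1/2 - y/4) (1/2 - x) le_rfl (by linarith) (by linarith)
      le_rfl
    have e1 : (1/2 - y/4 - (1/2 - y)) = 3*y/4 := by ring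
    have e2 : (1/2 - y/4 - (1/2 - x)) = x - y/4 := by ring
    have e3 : (1/2 - x - (1/2 - y)) = y - x := by ring
    rw [e1, e2, e3] at h1
    refine h1.trans ?_
    have h2 : y^(8/3 : ℝ) = y^(-(1/3 : ℝ)) * y^3 := by
      rw [← Real.rpow_natCast y 3, ← Real.rpow_add hy]
      norm_num
    have h3 : (3*y/4)^3 ≤ y^3 := by
      apply pow_le_pow_left₀ (by positivity)
      linarith
    rw [h2]
    calc C * y^(-(1/3 : ℝ)) * (3*y/4)^3 ≤ C * y^(-(1/3 : ℝ)) * y^3 :=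
          mul_le_mul_of_nonneg_left h3 (by positivity)
      _ = _ := by ring
  obtain ⟨b, D, hD, hb⟩ := expand (h := fun x => gg (1/2 - x)) (h0 := 1/2) hC hx0 hkey
    (gg_half_left hx0 hx04)
  exact ⟨b, D, x0, hD, hx0, hx04, hb⟩

theorem gg_expand : ∃ b D : ℝ, 0 < D ∧ ∀ q, 0 ≤ q → q ≤ 1 →
    |gg q - 1/2 - b * (q - 1/2)| ≤ D * |q - 1/2|^(5/3 : ℝ) := by
  obtain ⟨b, D, x0, hD, hx0, hx04, hb⟩ := gg_expand_left
  refine ⟨-b, max D ((1 + |b|) / x0^(5/3 : ℝ)), lt_max_of_lt_left hD, ?_⟩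
  have hleft : ∀ q, 0 ≤ q → q < 1/2 → |gg q - 1/2 - (-b) * (q - 1/2)| ≤
      max D ((1 + |b|) / x0^(5/3 : ℝ)) * |q - 1/2|^(5/3 : ℝ) := by
    intro q hq0 hq1
    have e1 : |q - 1/2| = 1/2 - q := by rw [abs_sub_comm, abs_of_pos (by linarith)]
    rw [e1]
    rcases le_or_gt (1/2 - q) x0 with h | h
    · have h1 := hb (1/2 - q) (by linarith) h
      rw [sub_sub_cancel] at h1
      have e2 : gg q - 1/2 - -b * (q - 1/2) = gg q - 1/2 - b * (1/2 - q) := by ring
      rw [e2]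
      refine h1.trans (mul_le_mul_of_nonneg_right (le_max_left _ _) ?_)
      exact Real.rpow_nonneg (by linarith) _
    · have h2 : x0^(5/3 : ℝ) ≤ (1/2 - q)^(5/3 : ℝ) :=
        Real.rpow_le_rpow hx0.le h.le (by norm_num)
      have h3 : 0 < x0^(5/3 : ℝ) := by positivity
      have h4 : |gg q - 1/2 - -b * (q - 1/2)| ≤ 1 + |b| := by
        have g0 := gg_nonneg hq0 (by linarith : q ≤ 1)
        have g1 := gg_le_one hq0 (by linarith : q ≤ 1)
        have h5 : |gg q - 1/2| ≤ 1 := by rw [abs_le]; constructor <;> linarith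
        have h6 : |(-b) * (q - 1/2)| ≤ |b| := by
          rw [abs_mul, abs_neg, e1]
          have := abs_nonneg b
          nlinarith
        exact (abs_sub _ _).trans (add_le_add h5 h6)
      refine h4.trans ?_
      calc 1 + |b| = (1 + |b|) / x0^(5/3 : ℝ) * x0^(5/3 : ℝ) := by
            field_simp
        _ ≤ (1 + |b|) / x0^(5/3 : ℝ) * (1/2 - q)^(5/3 : ℝ) :=
            mul_le_mul_of_nonneg_left h2 (by positivity)
        _ ≤ _ := mul_le_mul_of_nonneg_right (le_max_right _ _) (Real.rpow_nonneg (by linarith) _)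
  intro q hq0 hq1
  rcases lt_trichotomy q (1/2) with h | h | h
  · exact hleft q hq0 h
  · rw [h, gg_half]
    norm_num
  · have h1 := hleft (1 - q) (by linarith) (by linarith)
    have h2 := gg_dual hq0 hq1
    have e1 : gg (1 - q) - 1/2 - -b * (1 - q - 1/2) = -(gg q - 1/2 - -b * (q - 1/2)) := by
      linarith
    have e2 : |1 - q - 1/2| = |q - 1/2| := by
      rw [show 1 - q - 1/2 = -(q - 1/2) by ring, abs_neg]
    rwa [e1, abs_neg, e2] at h1

/-- `gg` is continuous inside `(0, 1)`. -/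
theorem gg_cont {q : ℝ} (h0 : 0 < q) (h1 : q < 1) : ContinuousAt gg q := by
  rw [Metric.continuousAt_iff]
  intro ε hε
  obtain ⟨δ, hδ, hd⟩ := gg_left h0 h1.le hε
  obtain ⟨δ', hδ', hd'⟩ := gg_left (q := 1 - q) (by linarith) (by linarith) hε
  refine ⟨min (min δ δ') (min q (1 - q)), by
    refine lt_min (lt_min hδ hδ') (lt_min h0 (by linarith)), ?_⟩
  intro p hp
  rw [Real.dist_eq] at hp
  obtain ⟨hp1, hp2⟩ := lt_min_iff.1 hp
  obtain ⟨hp1, hp3⟩ := lt_min_iff.1 hp1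
  obtain ⟨hp2, hp4⟩ := lt_min_iff.1 hp2
  rw [abs_lt] at hp1 hp2 hp3 hp4
  have k0 : 0 ≤ p := by linarith
  have k1 : p ≤ 1 := by linarith
  rw [Real.dist_eq, abs_lt]
  rcases le_total p q with h | h
  · have a1 := hd p k0 (by linarith) h
    have a2 := gg_mono k0 h h1.le
    constructor <;> linarith
  · have a1 := hd' (1 - p) (by linarith) (by linarith) (by linarith)
    have a2 := gg_mono h0.le h k1
    have b1 := gg_dual h0.le h1.le
    have b2 := gg_dual k0 k1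
    constructor <;> linarith

end Pool.Agent.TH987
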