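import Pool.Agent.TH987.GExp

/-!
The mean number of clusters in a box and its limit.
-/

namespace Pool.Agent.TH987

open H973N H974 H12S Finset Filter Topology
open H973N.NP

/-- Vertices of the `n × n` box. -/
noncomputable def sV (n : ℕ) : Finset Vtx := Finset.Icc 0 ((n:ℤ) - 1) ×ˢ Finset.Icc 0 ((n:ℤ) - 1)

/-- Edges of the `n × n` box. -/
noncomputable def sE (n : ℕ) : Finset Edg := RE 0 ((n:ℤ) - 1) 0 ((n:ℤ) - 1)

/-- Mean number of clusters. -/
noncomputable def UU (n : ℕ) (q : ℝ) : ℝ := Ex (fun _ => q) (sE n) (kk (sV n))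

theorem card_sV (n : ℕ) : (sV n).card = n * n := by
  unfold sV
  rw [Finset.card_product, Int.card_Icc]
  congr 1 <;> omega

theorem src_mem {n : ℕ} {e : Edg} (he : e ∈ sE n) : src e ∈ sV n := by
  obtain ⟨x, y, _ | _⟩ := e
  · rw [sE, mem_RE_false] at he
    rw [sV, Finset.mem_product, Finset.mem_Icc, Finset.mem_Icc, src_mk]
    simp only
    omega
  · rw [sE, mem_RE_true] at he
    rw [sV, Finset.mem_product, Finset.mem_Icc, Finset.mem_Icc, src_mk]
    simp only
    omega

theorem tgt_mem {n : ℕ} {e : Edg} (he : e ∈ sE n) : tgt e ∈ sV n := by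
  obtain ⟨x, y, _ | _⟩ := e
  · rw [sE, mem_RE_false] at he
    rw [sV, Finset.mem_product, Finset.mem_Icc, Finset.mem_Icc, tgt_false]
    simp only
    omega
  · rw [sE, mem_RE_true] at he
    rw [sV, Finset.mem_product, Finset.mem_Icc, Finset.mem_Icc, tgt_true]
    simp only
    omega

theorem card_sE_le (n : ℕ) : ((sE n).card : ℝ) ≤ 2 * (n:ℝ)^2 := by
  have h : (sE n) ⊆ (Finset.Icc 0 ((n:ℤ) - 1) ×ˢ (Finset.Icc 0 ((n:ℤ) - 1) ×ˢ Finset.univ)) :=
    Finset.filter_subset _ _
  have h2 := Finset.card_le_card h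
  rw [Finset.card_product, Finset.card_product, Int.card_Icc, Finset.card_univ,
    Fintype.card_bool] at h2
  have h3 : ((n:ℤ) - 1 + 1 - 0).toNat = n := by omega
  rw [h3] at h2
  have h4 : ((sE n).card : ℝ) ≤ ((n * (n * 2) : ℕ) : ℝ) := by exact_mod_cast h2
  push_cast at h4
  linarith

/-- The bulk edges. -/
noncomputable def bulk (n m : ℕ) : Finset Edg :=
  (Finset.Icc (m:ℤ) ((n:ℤ) - 1 - m) ×ˢ (Finset.Icc (m:ℤ) ((n:ℤ) - 1 - m) ×ˢ Finset.univ))

theorem card_bulk {n m : ℕ} (h : 2 * m ≤ n) : ((bulk n m).card : ℝ) = 2 * ((n:ℝ) - 2 * m)^2 := by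
  unfold bulk
  rw [Finset.card_product, Finset.card_product, Int.card_Icc, Finset.card_univ, Fintype.card_bool]
  have h3 : ((n:ℤ) - 1 - m + 1 - m).toNat = n - 2 * m := by omega
  rw [h3]
  push_cast [Nat.cast_sub h]
  ring

theorem bulk_sub {n m : ℕ} (hm : 1 ≤ m) : bulk n m ⊆ sE n := by
  rintro ⟨x, y, _ | _⟩ h
  · unfold bulk at h
    rw [Finset.mem_product, Finset.mem_product, Finset.mem_Icc, Finset.mem_Icc] at h
    rw [sE, mem_RE_false]
    simp only at h
    omega
  · unfold bulk at h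
    rw [Finset.mem_product, Finset.mem_product, Finset.mem_Icc, Finset.mem_Icc] at h
    rw [sE, mem_RE_true]
    simp only at h
    omega

theorem bulk_blk {n m : ℕ} {e : Edg} (h : e ∈ bulk n m) : blk (bp e) m ⊆ sE n := by
  unfold bulk at h
  rw [Finset.mem_product, Finset.mem_product, Finset.mem_Icc, Finset.mem_Icc] at h
  unfold blk bp sE
  apply RE_subset
  · simp only; omega
  · simp only; omega
  · simp only; omega
  · simp only; omega

theorem sE_blk {n : ℕ} {e : Edg} (h : e ∈ sE n) : sE n ⊆ blk (bp e) n := by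
  unfold blk bp
  have : src e ∈ sV n := src_mem h
  rw [sV, Finset.mem_product, Finset.mem_Icc, Finset.mem_Icc] at this
  obtain ⟨x, y, b⟩ := e
  rw [src_mk] at this
  unfold sE
  simp only at this ⊢
  apply RE_subset <;> omega

theorem phi_sE_le {q : ℝ} (h0 : 0 ≤ q) (h1 : q ≤ 1) (n : ℕ) :
    phi (sE n) (sE n) q ≤ 2 * (n:ℝ)^2 * gg q := by
  have h2 : phi (sE n) (sE n) q ≤ ((sE n).card : ℝ) * gg q := by
    unfold phi
    rw [← nsmul_eq_mul, ← Finset.sum_const]
    exact Finset.sum_le_sum (fun e he => pr_fE_le h0 h1 (sE_blk he))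
  exact h2.trans (mul_le_mul_of_nonneg_right (card_sE_le n) (gg_nonneg h0 h1))

theorem le_phi_sE {q : ℝ} (h0 : 0 ≤ q) (h1 : q ≤ 1) {n m : ℕ} (hm : 1 ≤ m) (hn : 2 * m ≤ n) :
    2 * ((n:ℝ) - 2 * m)^2 * gm q m ≤ phi (sE n) (sE n) q := by
  have h2 : ((bulk n m).card : ℝ) * gm q m ≤ phi (sE n) (sE n) q := by
    unfold phi
    rw [← nsmul_eq_mul, ← Finset.sum_const]
    refine (Finset.sum_le_sum (fun e he => le_pr_fE h0 h1 (bulk_blk he))).trans ?_
    exact Finset.sum_le_sum_of_subset_of_nonneg (bulk_sub hm)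
      (fun e _ _ => Pr_nonneg (okq h0 h1) _ _)
  rwa [card_bulk hn] at h2

theorem sqrt_ratio : Tendsto (fun n : ℕ => (((n:ℝ) - 2 * (Nat.sqrt n : ℕ))^2 / (n:ℝ)^2)) atTop
    (𝓝 1) := by
  have h1 : Tendsto (fun n : ℕ => ((Nat.sqrt n : ℕ) : ℝ) / n) atTop (𝓝 0) := by
    have h2 : Tendsto (fun n : ℕ => (n:ℝ)^(-(1/2) : ℝ)) atTop (𝓝 0) :=
      (tendsto_rpow_neg_atTop (by norm_num : (0:ℝ) < 1/2)).comp tendsto_natCast_atTop_atTop
    refine squeeze_zero' (Eventually.of_forall (fun n => by positivity)) ?_ h2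
    filter_upwards [eventually_ge_atTop 1] with n hn
    have hn0 : (0:ℝ) < n := by exact_mod_cast hn
    have h3 : ((Nat.sqrt n : ℕ) : ℝ) ≤ (n:ℝ)^(1/2 : ℝ) := by
      rw [← Real.sqrt_eq_rpow]
      apply Real.le_sqrt_of_sq_le
      have := Nat.sqrt_le' n
      exact_mod_cast this
    rw [div_le_iff₀ hn0]
    refine h3.trans (le_of_eq ?_)
    nth_rewrite 3 [← Real.rpow_one (n:ℝ)]
    rw [← Real.rpow_add hn0]
    norm_num
  have h2 : Tendsto (fun n : ℕ => (1 - 2 * (((Nat.sqrt n : ℕ) : ℝ) / n))^2) atTop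
      (𝓝 ((1 - 2 * 0)^2)) := (((h1.const_mul 2).const_sub 1)).pow 2
  rw [mul_zero, sub_zero, one_pow] at h2
  refine h2.congr' ?_
  filter_upwards [eventually_ge_atTop 1] with n hn
  have hn0 : (n:ℝ) ≠ 0 := by
    have : (0:ℝ) < n := by exact_mod_cast hn
    exact this.ne'
  rw [← div_pow]
  congr 1
  field_simp

theorem sqrt_two_le {n : ℕ} (hn : 4 ≤ n) : 2 * Nat.sqrt n ≤ n := by
  have h1 := Nat.sqrt_le' n
  have h2 : 2 ≤ Nat.sqrt n := by
    rw [Nat.le_sqrt]
    omega
  nlinarith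

theorem sqrt_atTop : Tendsto (fun n : ℕ => Nat.sqrt n) atTop atTop := by
  rw [tendsto_atTop]
  intro b
  filter_upwards [eventually_ge_atTop (b * b)] with n hn
  rw [Nat.le_sqrt]
  exact hn

theorem phi_lim {q : ℝ} (h0 : 0 ≤ q) (h1 : q ≤ 1) :
    Tendsto (fun n : ℕ => phi (sE n) (sE n) q / (n:ℝ)^2) atTop (𝓝 (2 * gg q)) := by
  have hlow : Tendsto (fun n : ℕ => 2 * (((n:ℝ) - 2 * (Nat.sqrt n : ℕ))^2 / (n:ℝ)^2) *
      gm q (Nat.sqrt n)) atTop (𝓝 (2 * 1 * gg q)) :=
    (sqrt_ratio.const_mul 2).mul ((gm_tendsto h0 h1).comp sqrt_atTop)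
  rw [mul_one] at hlow
  refine tendsto_of_tendsto_of_tendsto_of_le_of_le' hlow tendsto_const_nhds ?_ ?_
  · filter_upwards [eventually_ge_atTop 4] with n hn
    have hn0 : (0:ℝ) < n := by
      have : 0 < n := by omega
      exact_mod_cast this
    have h2 := le_phi_sE h0 h1 (m := Nat.sqrt n) (n := n) (by rw [Nat.le_sqrt]; omega)
      (sqrt_two_le hn)
    rw [le_div_iff₀ (by positivity)]
    refine le_trans (le_of_eq ?_) h2
    field_simp
  · filter_upwards [eventually_ge_atTop 1] with n hn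
    have hn0 : (0:ℝ) < n := by exact_mod_cast hn
    rw [div_le_iff₀ (by positivity)]
    refine (phi_sE_le h0 h1 n).trans (le_of_eq ?_)
    ring

theorem card_lim : Tendsto (fun n : ℕ => ((sE n).card : ℝ) / (n:ℝ)^2) atTop (𝓝 2) := by
  have hlow := sqrt_ratio.const_mul 2
  rw [mul_one] at hlow
  refine tendsto_of_tendsto_of_tendsto_of_le_of_le' hlow tendsto_const_nhds ?_ ?_
  · filter_upwards [eventually_ge_atTop 4] with n hn
    have hn0 : (0:ℝ) < n := by
      have : 0 < n := by omega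
      exact_mod_cast this
    have h2 := card_bulk (sqrt_two_le hn)
    have h3 := Finset.card_le_card (bulk_sub (n := n) (m := Nat.sqrt n)
      (by rw [Nat.le_sqrt]; omega))
    have h4 : ((bulk n (Nat.sqrt n)).card : ℝ) ≤ ((sE n).card : ℝ) := by exact_mod_cast h3
    rw [h2] at h4
    rw [le_div_iff₀ (by positivity)]
    refine le_trans (le_of_eq ?_) h4
    field_simp
  · filter_upwards [eventually_ge_atTop 1] with n hn
    have hn0 : (0:ℝ) < n := by exact_mod_cast hn
    rw [div_le_iff₀ (by positivity)]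
    exact card_sE_le n

theorem UU_deriv (n : ℕ) (q : ℝ) :
    HasDerivAt (UU n) (phi (sE n) (sE n) q - ((sE n).card : ℝ)) q := by
  have h := Ex_hasDerivAt (E := Edg) (fun q _ => q) (fun _ => (1:ℝ)) q
    (fun _ => hasDerivAt_id q) (sE n) (kk (sV n))
  have h2 : (∑ e ∈ sE n, (1:ℝ) * Ex (fun _ => q) ((sE n).erase e)
      (fun F => kk (sV n) (insert e F) - kk (sV n) F)) =
      phi (sE n) (sE n) q - ((sE n).card : ℝ) := by
    have h3 : ∀ e ∈ sE n, (1:ℝ) * Ex (fun _ => q) ((sE n).erase e)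
        (fun F => kk (sV n) (insert e F) - kk (sV n) F) = Pr (fun _ => q) (sE n) (fE e) - 1 := by
      intro e he
      have h4 : Pr (fun _ => q) (sE n) (fE e) = Pr (fun _ => q) ((sE n).erase e) (fE e) := by
        apply Pr_local (Finset.erase_subset _ _)
        intro F hF
        have : F ∩ (sE n).erase e = F.erase e := by
          ext x
          simp only [Finset.mem_inter, Finset.mem_erase]
          constructor
          · rintro ⟨a, b, c⟩; exact ⟨b, a⟩
          · rintro ⟨a, b⟩; exact ⟨b, a, hF b⟩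
        rw [this, fE_erase]
      rw [one_mul, h4]
      have h5 : Ex (fun _ => q) ((sE n).erase e)
          (fun F => kk (sV n) (insert e F) - kk (sV n) F) =
          Ex (fun _ => q) ((sE n).erase e) (fun F => ind (fE e F) - 1) := by
        apply Ex_congr
        intro F hF
        rw [kk_insert (src_mem he) (tgt_mem he) (fun h => (Finset.mem_erase.1 (hF h)).1 rfl),
          ind_not]
        ring
      rw [h5, Ex_sub, Ex_const]
      rfl
    rw [Finset.sum_congr rfl h3, Finset.sum_sub_distrib]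
    simp [phi]
  rw [h2] at h
  exact h

theorem kk_empty (V : Finset Vtx) : kk V ∅ = (V.card : ℝ) := by
  unfold kk nc
  congr 1
  apply Finset.card_image_of_injOn
  intro v hv w hw h
  have h1 := (cls_eq hw).1 h
  have h2 : ∀ u, Reach (↑(∅ : Finset Edg) : Set Edg) v u → v = u := by
    intro u hu
    induction hu with
    | refl => rfl
    | tail _ hs _ =>
      obtain ⟨g, hg, _⟩ := hs
      simp at hg
  exact h2 w h1

theorem UU_zero (n : ℕ) : UU n 0 = (n:ℝ)^2 := by
  unfold UU Ex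
  rw [Finset.sum_eq_single ∅]
  · rw [kk_empty, card_sV]
    simp
    ring
  · intro F _ hF
    obtain ⟨e, he⟩ := Finset.nonempty_iff_ne_empty.2 hF
    rw [Finset.prod_eq_zero he rfl]
    ring
  · intro h
    exact absurd (Finset.empty_mem_powerset _) h

theorem phi_cont (n : ℕ) : Continuous (phi (sE n) (sE n)) :=
  continuous_iff_continuousAt.2 (fun q => (phi_deriv (sE n) (sE n) q).continuousAt)

theorem UU_eq (n : ℕ) (q : ℝ) :
    UU n q = (n:ℝ)^2 - ((sE n).card : ℝ) * q + ∫ t in (0:ℝ)..q, phi (sE n) (sE n) t := by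
  have h1 : ∫ t in (0:ℝ)..q, (phi (sE n) (sE n) t - ((sE n).card : ℝ)) = UU n q - UU n 0 :=
    intervalIntegral.integral_eq_sub_of_hasDerivAt (fun t _ => UU_deriv n t)
      (((phi_cont n).sub continuous_const).intervalIntegrable _ _)
  rw [intervalIntegral.integral_sub ((phi_cont n).intervalIntegrable _ _)
    (continuous_const.intervalIntegrable _ _), UU_zero, intervalIntegral.integral_const,
    smul_eq_mul] at h1
  linarith

/-- The limit. -/
noncomputable def kap (q : ℝ) : ℝ := 1 - 2 * q + 2 * ∫ t in (0:ℝ)..q, gg t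

theorem gg_monoOn : MonotoneOn gg (Set.Icc 0 1) := fun _ ha _ hb h => gg_mono ha.1 h hb.2

theorem gg_int {a b : ℝ} (ha : a ∈ Set.Icc (0:ℝ) 1) (hb : b ∈ Set.Icc (0:ℝ) 1) :
    IntervalIntegrable gg MeasureTheory.volume a b :=
  (gg_monoOn.mono (Set.uIcc_subset_Icc ha hb)).intervalIntegrable

theorem UU_lim {q : ℝ} (h0 : 0 ≤ q) (h1 : q ≤ 1) :
    Tendsto (fun n : ℕ => UU n q / (n:ℝ)^2) atTop (𝓝 (kap q)) := by
  have h2 : Tendsto (fun n : ℕ => ∫ t in (0:ℝ)..q, phi (sE n) (sE n) t / (n:ℝ)^2) atTop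
      (𝓝 (∫ t in (0:ℝ)..q, 2 * gg t)) := by
    apply intervalIntegral.tendsto_integral_filter_of_dominated_convergence (fun _ => 2)
    · filter_upwards [] with n
      exact ((phi_cont n).div_const _).aestronglyMeasurable
    · filter_upwards [eventually_ge_atTop 1] with n hn
      have hn0 : (0:ℝ) < n := by exact_mod_cast hn
      filter_upwards [] with t ht
      rw [Set.uIoc_of_le h0] at ht
      have t0 : 0 ≤ t := ht.1.le
      have t1 : t ≤ 1 := ht.2.trans h1
      rw [Real.norm_eq_abs, abs_of_nonneg]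
      · rw [div_le_iff₀ (by positivity)]
        refine (phi_sE_le t0 t1 n).trans ?_
        have := gg_le_one t0 t1
        have : (0:ℝ) < (n:ℝ)^2 := by positivity
        nlinarith
      · apply div_nonneg _ (by positivity)
        unfold phi
        exact Finset.sum_nonneg (fun e _ => Pr_nonneg (okq t0 t1) _ _)
    · exact continuous_const.intervalIntegrable _ _
    · filter_upwards [] with t ht
      rw [Set.uIoc_of_le h0] at ht
      exact phi_lim ht.1.le (ht.2.trans h1)
  have h3 : Tendsto (fun n : ℕ => 1 - ((sE n).card : ℝ) / (n:ℝ)^2 * q +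
      ∫ t in (0:ℝ)..q, phi (sE n) (sE n) t / (n:ℝ)^2) atTop
      (𝓝 (1 - 2 * q + ∫ t in (0:ℝ)..q, 2 * gg t)) :=
    ((card_lim.mul_const q).const_sub 1).add h2
  have h4 : kap q = 1 - 2 * q + ∫ t in (0:ℝ)..q, 2 * gg t := by
    unfold kap
    rw [intervalIntegral.integral_const_mul]
  rw [h4]
  refine h3.congr' ?_
  filter_upwards [eventually_ge_atTop 1] with n hn
  have hn0 : (0:ℝ) < n := by exact_mod_cast hn
  rw [UU_eq, intervalIntegral.integral_div]
  have : (n:ℝ) ≠ 0 := hn0.ne'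
  field_simp

end Pool.Agent.TH987
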