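import Pool.Agent.TH987.Bnd

/-!
The probability that the two ends of an edge are connected off the edge.
-/

namespace Pool.Agent.TH987

open H973N H974 H12S Finset Filter Topology
open H973N.NP

theorem fE_sym (g : LSym) (e : Edg) (F : Finset Edg) : fE (g.φ e) (g.mp F) ↔ fE e F := by
  unfold fE
  have h1 : (↑((g.mp F).erase (g.φ e)) : Set Edg) = g.φ '' (↑(F.erase e) : Set Edg) := by
    rw [← LSym.coe_mp]
    congr 1
    ext x
    simp only [Finset.mem_erase, LSym.mem_mp]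
    constructor
    · rintro ⟨h1, h2⟩
      exact ⟨fun h => h1 (by rw [← h]; simp), h2⟩
    · rintro ⟨h1, h2⟩
      exact ⟨fun h => h1 (by rw [h]; simp), h2⟩
  rw [h1]
  rcases g.compat e with ⟨h2, h3⟩ | ⟨h2, h3⟩
  · rw [h2, h3, LSym.reach_iff]
  · rw [h2, h3, LSym.reach_iff]
    exact ⟨fun h => h.symm, fun h => h.symm⟩

theorem pr_fE_sym (g : LSym) (q : ℝ) (e : Edg) (S : Finset Edg) :
    Pr (fun _ => q) (g.mp S) (fE (g.φ e)) = Pr (fun _ => q) S (fE e) := by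
  rw [LSym.pr]
  exact Pr_congr (fun F _ => fE_sym g e F)

/-- The finite volume connection probability. -/
noncomputable def gm (q : ℝ) (m : ℕ) : ℝ := Pr (fun _ => q) (boxE m) (fE (e0 true))

theorem gm_false (q : ℝ) (m : ℕ) : Pr (fun _ => q) (boxE m) (fE (e0 false)) = gm q m := by
  have h := pr_fE_sym tps q (e0 true) (boxE m)
  have h1 : tps.mp (boxE m) = boxE m := by
    unfold boxE
    rw [tps_RE]
  rw [h1] at h
  exact h

theorem pr_fE_blk (q : ℝ) (e : Edg) (m : ℕ) : Pr (fun _ => q) (blk (bp e) m) (fE e) = gm q m := by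
  obtain ⟨x, y, b⟩ := e
  have h := pr_fE_sym (trl x y) q (e0 b) (boxE m)
  have h1 : (trl x y).mp (boxE m) = blk (bp (x, y, b)) m := by
    unfold boxE blk bp
    rw [trl_RE]
    congr 1 <;> ring
  have h2 : (trl x y).φ (e0 b) = (x, y, b) := by
    unfold e0
    rw [trl_φ, zero_add, zero_add]
  rw [h1, h2] at h
  rw [h]
  cases b
  · exact gm_false q m
  · rfl

theorem fE_incr (S : Finset Edg) (e : Edg) : IncrE S (fE e) := fun _ _ h _ hF => fE_mono e _ _ h hF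

theorem gm_nonneg {q : ℝ} (h0 : 0 ≤ q) (h1 : q ≤ 1) (m : ℕ) : 0 ≤ gm q m :=
  Pr_nonneg (okq h0 h1) _ _

theorem gm_le_one {q : ℝ} (h0 : 0 ≤ q) (h1 : q ≤ 1) (m : ℕ) : gm q m ≤ 1 :=
  Pr_le_one (okq h0 h1) _ _

theorem gm_mono {q : ℝ} (h0 : 0 ≤ q) (h1 : q ≤ 1) {m m' : ℕ} (h : m ≤ m') : gm q m ≤ gm q m' :=
  Pr_mono_set (okq h0 h1) (boxE_mono h) (fE_incr _ _)

theorem gm_mono_param {p q : ℝ} (h0 : 0 ≤ p) (hpq : p ≤ q) (h1 : q ≤ 1) (m : ℕ) :
    gm p m ≤ gm q m :=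
  Pr_mono_param (okq h0 (hpq.trans h1)) (okq (h0.trans hpq) h1) (fun _ => hpq) (fE_incr _ _)

/-- The infinite volume connection probability. -/
noncomputable def gg (q : ℝ) : ℝ := ⨆ m, gm q m

theorem gm_bdd {q : ℝ} (h0 : 0 ≤ q) (h1 : q ≤ 1) : BddAbove (Set.range (gm q)) :=
  ⟨1, by rintro _ ⟨m, rfl⟩; exact gm_le_one h0 h1 m⟩

theorem gm_le_gg {q : ℝ} (h0 : 0 ≤ q) (h1 : q ≤ 1) (m : ℕ) : gm q m ≤ gg q :=
  le_ciSup (gm_bdd h0 h1) m

theorem gm_tendsto {q : ℝ} (h0 : 0 ≤ q) (h1 : q ≤ 1) : Tendsto (gm q) atTop (𝓝 (gg q)) :=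
  tendsto_atTop_ciSup (fun _ _ h => gm_mono h0 h1 h) (gm_bdd h0 h1)

theorem gg_nonneg {q : ℝ} (h0 : 0 ≤ q) (h1 : q ≤ 1) : 0 ≤ gg q :=
  (gm_nonneg h0 h1 0).trans (gm_le_gg h0 h1 0)

theorem gg_le_one {q : ℝ} (h0 : 0 ≤ q) (h1 : q ≤ 1) : gg q ≤ 1 :=
  ciSup_le (fun m => gm_le_one h0 h1 m)

theorem gg_mono {p q : ℝ} (h0 : 0 ≤ p) (hpq : p ≤ q) (h1 : q ≤ 1) : gg p ≤ gg q :=
  ciSup_le (fun m => (gm_mono_param h0 hpq h1 m).trans (gm_le_gg (h0.trans hpq) h1 m))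

theorem pr_fE_le {q : ℝ} (h0 : 0 ≤ q) (h1 : q ≤ 1) {e : Edg} {m : ℕ} {S : Finset Edg}
    (hS : S ⊆ blk (bp e) m) : Pr (fun _ => q) S (fE e) ≤ gg q := by
  refine (Pr_mono_set (okq h0 h1) hS (fE_incr _ _)).trans ?_
  rw [pr_fE_blk]
  exact gm_le_gg h0 h1 m

theorem le_pr_fE {q : ℝ} (h0 : 0 ≤ q) (h1 : q ≤ 1) {e : Edg} {m : ℕ} {S : Finset Edg}
    (hS : blk (bp e) m ⊆ S) : gm q m ≤ Pr (fun _ => q) S (fE e) := by
  rw [← pr_fE_blk q e m]
  exact Pr_mono_set (okq h0 h1) hS (fE_incr _ _)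

theorem gm_contDiff (m : ℕ) : Continuous (fun q => gm q m) := by
  have h : ∀ q, HasDerivAt (fun q => gm q m) (∑ f ∈ boxE m, Pr (fun _ => q) (boxE m)
      (Pf (fE (e0 true)) f)) q := fun q => deriv_f (boxE m) (fE (e0 true)) (fE_mono _) q
  exact continuous_iff_continuousAt.2 (fun q => (h q).continuousAt)

/-- Left continuity. -/
theorem gg_left {q : ℝ} (h0 : 0 < q) (h1 : q ≤ 1) {ε : ℝ} (hε : 0 < ε) :
    ∃ δ : ℝ, 0 < δ ∧ ∀ p, 0 ≤ p → q - δ < p → p ≤ q → gg q - ε < gg p := by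
  have h2 := (gm_tendsto h0.le h1).eventually (lt_mem_nhds (show gg q - ε < gg q by linarith))
  obtain ⟨m, hm⟩ := h2.exists
  have h3 := (gm_contDiff m).continuousAt (x := q)
  have h4 := h3.eventually (lt_mem_nhds hm)
  obtain ⟨δ, hδ, h5⟩ := Metric.eventually_nhds_iff.1 h4
  refine ⟨δ, hδ, ?_⟩
  intro p hp0 hp1 hp2
  have h6 := h5 (y := p) (by rw [Real.dist_eq, abs_lt]; constructor <;> linarith)
  exact h6.trans_le (gm_le_gg hp0 (hp2.trans h1) m)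

theorem phi_box_tendsto {q : ℝ} (h0 : 0 ≤ q) (h1 : q ≤ 1) (K0 : ℕ) :
    Tendsto (fun I : ℕ => phi (boxE (2^K0)) (boxE (8 * 2^I)) q) atTop
      (𝓝 (((boxE (2^K0)).card : ℝ) * gg q)) := by
  have hlow : Tendsto (fun I : ℕ => ((boxE (2^K0)).card : ℝ) * gm q (8 * 2^I - 2^K0)) atTop
      (𝓝 (((boxE (2^K0)).card : ℝ) * gg q)) := by
    apply Tendsto.const_mul
    apply (gm_tendsto h0 h1).comp
    rw [tendsto_atTop]
    intro b
    filter_upwards [eventually_ge_atTop (b + K0)] with I hI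
    have h3 : 2^K0 ≤ 2^I := Nat.pow_le_pow_right (by norm_num) (by omega)
    have h4 : I < 2^I := Nat.lt_two_pow_self
    omega
  refine tendsto_of_tendsto_of_tendsto_of_le_of_le' hlow tendsto_const_nhds ?_ ?_
  · filter_upwards [eventually_ge_atTop K0] with I hI
    unfold phi
    rw [← nsmul_eq_mul, ← Finset.sum_const]
    apply Finset.sum_le_sum
    intro e he
    apply le_pr_fE h0 h1
    obtain ⟨a1, a2⟩ := boxE_abs he
    have h3 : 2^K0 ≤ 2^I := Nat.pow_le_pow_right (by norm_num) hI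
    have h4 : ((8 * 2^I - 2^K0 : ℕ) : ℤ) = 8 * 2^I - 2^K0 := by
      rw [Nat.cast_sub (by omega)]; push_cast; ring
    rw [abs_le] at a1 a2
    push_cast at a1 a2
    unfold blk bp boxE
    rw [h4]
    push_cast
    apply RE_subset <;> linarith
  · filter_upwards [] with I
    unfold phi
    rw [← nsmul_eq_mul, ← Finset.sum_const]
    apply Finset.sum_le_sum
    intro e he
    apply pr_fE_le h0 h1 (m := 8 * 2^I + 2^K0)
    obtain ⟨a1, a2⟩ := boxE_abs he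
    rw [abs_le] at a1 a2
    push_cast at a1 a2
    unfold blk bp boxE
    push_cast
    apply RE_subset <;> linarith

theorem card_boxE_ge (m : ℕ) : (m:ℝ)^2 ≤ ((boxE m).card : ℝ) := by
  have h : (((Finset.range m) ×ˢ (Finset.range m)).image
      (fun p : ℕ × ℕ => (((p.1 : ℤ), (p.2 : ℤ), true) : Edg))) ⊆ boxE m := by
    intro e he
    rw [Finset.mem_image] at he
    obtain ⟨p, hp, rfl⟩ := he
    rw [Finset.mem_product, Finset.mem_range, Finset.mem_range] at hp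
    unfold boxE
    rw [mem_RE_true]
    omega
  have h2 := Finset.card_le_card h
  rw [Finset.card_image_of_injective, Finset.card_product, Finset.card_range] at h2
  · have : ((m * m : ℕ) : ℝ) ≤ ((boxE m).card : ℝ) := by exact_mod_cast h2
    push_cast at this
    nlinarith
  · rintro ⟨a, b⟩ ⟨c, d⟩ hab
    simp only [Prod.mk.injEq, Nat.cast_inj, and_true] at hab
    exact Prod.ext hab.1 hab.2

/-- The chord inequality for the infinite volume probability below the critical point. -/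
theorem chordS : ∃ C x0 : ℝ, 0 < C ∧ 0 < x0 ∧ x0 ≤ 1/4 ∧ ∀ x : ℝ, 0 < x → x ≤ x0 →
    ∀ u v w : ℝ, 1/2 - x ≤ u → u ≤ w → w ≤ v → v ≤ 1/2 - x/4 →
    |(v - u) * gg w - (v - w) * gg u - (w - u) * gg v| ≤
      C * x^(-(1/3 : ℝ)) * ((v - u) * (v - w) * (w - u)) := by
  obtain ⟨κ, A, E, B, x0, hκ, hA, hE, hB, hx0, hx04, hsc⟩ := scale_exists
  obtain ⟨C, hC, hphi⟩ := phi2_bound κ A E hκ hA hE
  refine ⟨C * B^(1/4 : ℝ), x0, by positivity, hx0, hx04, ?_⟩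
  intro x hx hxx0 u v w hu huw hwv hv
  obtain ⟨K0, hK0, hN⟩ := hsc x hx hxx0
  obtain ⟨I0, hI0⟩ := hphi K0
  have hq : ∀ q, u ≤ q → q ≤ v → 0 ≤ q ∧ q ≤ 1 := by
    intro q h1 h2
    constructor <;> linarith
  obtain ⟨M, hM⟩ : ∃ M : ℝ, M = C * 4^K0 * ((2:ℝ)^K0) ^ (1/4 : ℝ) := ⟨_, rfl⟩
  have hM0 : 0 ≤ M := by rw [hM]; positivity
  have hfin : ∀ I, I0 ≤ I → |(v - u) * phi (boxE (2^K0)) (boxE (8 * 2^I)) w -
      (v - w) * phi (boxE (2^K0)) (boxE (8 * 2^I)) u -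
      (w - u) * phi (boxE (2^K0)) (boxE (8 * 2^I)) v| ≤ M * ((v - u) * (v - w) * (w - u)) := by
    intro I hI
    refine chord_of_deriv hM0 (fun q _ _ => phi_deriv _ _ q) ?_ huw hwv
    intro q h1 h2
    obtain ⟨D, hD, hDle⟩ := phi1_deriv (boxE (2^K0)) (boxE (8 * 2^I)) q (hq q h1 h2).1 (hq q h1 h2).2
    obtain ⟨N, hs⟩ := hN q (by linarith) (by linarith)
    refine ⟨D, hD, hDle.trans ?_⟩
    rw [hM]
    exact hI0 I hI q _ N hs
  obtain ⟨c, hc⟩ : ∃ c : ℝ, c = ((boxE (2^K0)).card : ℝ) := ⟨_, rfl⟩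
  have hlim : Tendsto (fun I : ℕ => |(v - u) * phi (boxE (2^K0)) (boxE (8 * 2^I)) w -
      (v - w) * phi (boxE (2^K0)) (boxE (8 * 2^I)) u -
      (w - u) * phi (boxE (2^K0)) (boxE (8 * 2^I)) v|) atTop
      (𝓝 |(v - u) * (c * gg w) - (v - w) * (c * gg u) - (w - u) * (c * gg v)|) := by
    rw [hc]
    apply Tendsto.abs
    apply Tendsto.sub
    apply Tendsto.sub
    · exact (phi_box_tendsto (hq w huw hwv).1 (hq w huw hwv).2 K0).const_mul _
    · exact (phi_box_tendsto (hq u le_rfl (huw.trans hwv)).1 (hq u le_rfl (huw.trans hwv)).2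
        K0).const_mul _
    · exact (phi_box_tendsto (hq v (huw.trans hwv) le_rfl).1 (hq v (huw.trans hwv) le_rfl).2
        K0).const_mul _
  have hle : |(v - u) * (c * gg w) - (v - w) * (c * gg u) - (w - u) * (c * gg v)| ≤
      M * ((v - u) * (v - w) * (w - u)) :=
    le_of_tendsto hlim (by filter_upwards [eventually_ge_atTop I0] with I hI using hfin I hI)
  have hc4 : (4:ℝ)^K0 ≤ c := by
    have := card_boxE_ge (2^K0)
    rw [hc]
    refine le_trans (le_of_eq ?_) this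
    push_cast
    rw [← pow_mul, mul_comm K0 2, pow_mul]
    norm_num
  have hc0 : 0 < c := lt_of_lt_of_le (by positivity) hc4
  have e1 : (v - u) * (c * gg w) - (v - w) * (c * gg u) - (w - u) * (c * gg v) =
      c * ((v - u) * gg w - (v - w) * gg u - (w - u) * gg v) := by ring
  rw [e1, abs_mul, abs_of_pos hc0] at hle
  have hvu : 0 ≤ (v - u) * (v - w) * (w - u) :=
    mul_nonneg (mul_nonneg (by linarith) (by linarith)) (by linarith)
  have hMc : M ≤ c * (C * B^(1/4 : ℝ) * x^(-(1/3 : ℝ))) := by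
    rw [hM]
    have h3 : ((2:ℝ)^K0) ^ (1/4 : ℝ) ≤ B^(1/4 : ℝ) * x^(-(1/3 : ℝ)) := by
      have h4 : ((2:ℝ)^K0) ^ (1/4 : ℝ) ≤ (B * x^(-(4/3 : ℝ)))^(1/4 : ℝ) :=
        Real.rpow_le_rpow (by positivity) hK0 (by norm_num)
      rw [Real.mul_rpow hB.le (by positivity), ← Real.rpow_mul hx.le] at h4
      norm_num at h4 ⊢
      exact h4
    calc C * 4^K0 * ((2:ℝ)^K0) ^ (1/4 : ℝ) ≤ C * c * (B^(1/4 : ℝ) * x^(-(1/3 : ℝ))) := by
          apply mul_le_mul (mul_le_mul_of_nonneg_left hc4 hC.le) h3 (by positivity) (by positivity)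
      _ = _ := by ring
  have h5 : c * |(v - u) * gg w - (v - w) * gg u - (w - u) * gg v| ≤
      c * (C * B^(1/4 : ℝ) * x^(-(1/3 : ℝ)) * ((v - u) * (v - w) * (w - u))) := by
    calc _ ≤ M * ((v - u) * (v - w) * (w - u)) := hle
      _ ≤ (c * (C * B^(1/4 : ℝ) * x^(-(1/3 : ℝ)))) * ((v - u) * (v - w) * (w - u)) :=
          mul_le_mul_of_nonneg_right hMc hvu
      _ = _ := by ring
  exact le_of_mul_le_mul_left h5 hc0

/-- A weaker form. -/
theorem chord : ∃ C x0 : ℝ, 0 < C ∧ 0 < x0 ∧ x0 ≤ 1/4 ∧ ∀ x : ℝ, 0 < x → x ≤ x0 →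
    ∀ u v w : ℝ, 1/2 - x ≤ u → u ≤ w → w ≤ v → v ≤ 1/2 - x/4 →
    |(v - u) * gg w - (v - w) * gg u - (w - u) * gg v| ≤ C * x^(-(1/3 : ℝ)) * (v - u)^3 := by
  obtain ⟨C, x0, hC, hx0, hx04, h⟩ := chordS
  refine ⟨C, x0, hC, hx0, hx04, ?_⟩
  intro x hx hxx0 u v w hu huw hwv hv
  refine (h x hx hxx0 u v w hu huw hwv hv).trans ?_
  apply mul_le_mul_of_nonneg_left _ (by positivity)
  calc (v - u) * (v - w) * (w - u) ≤ (v - u) * (v - u) * (v - u) := by
        apply mul_le_mul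
        · apply mul_le_mul le_rfl (by linarith) (by linarith) (by linarith)
        · linarith
        · linarith
        · exact mul_nonneg (by linarith) (by linarith)
    _ = (v - u)^3 := by ring

end Pool.Agent.TH987
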