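import Pool.Agent.TH490.StmN

/-!
Common lemmas for the nibble part of the project MP_325b7c_co (owner helper490).
-/

set_option autoImplicit false

namespace Pool.Agent.TH987.MP325

open Pool.Agent.TH490 Finset Classical

noncomputable section

variable {n : ℕ} {X ι : Type} [Fintype X] [Fintype ι]

theorem blk_block {D : Nib n X ι} {K R : ℕ} (hD : NHyp D K R) {s : NSt n X ι} {x v : X}
    (h : blk D s x v) : ∃ γ, x ∈ D.B γ ∧ v ∈ D.B γ := by
  rcases h with ⟨β, _, e, he, ht, hx, _⟩ | ⟨β, _, e, he, ht, hx, _⟩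
  · exact ⟨β, hD.conf_sub β e he hx, hD.conf_sub β e he ht.1⟩
  · exact ⟨β, hD.conf_sub β e he hx, hD.conf_sub β e he ht.1⟩

theorem hat_nonneg {D : Nib n X ι} {s : NSt n X ι} (hw : ∀ v, 0 ≤ s.w v) (v : X) :
    0 ≤ hat D s v := by
  unfold hat
  split_ifs
  · norm_num
  · norm_num
  · exact mul_nonneg (by norm_num) (hw v)

theorem eng_nonneg {D : Nib n X ι} {s : NSt n X ι} (hw : ∀ v, 0 ≤ s.w v) (β : ι)
    (e : Finset X) (u : X) : 0 ≤ eng D s β e u := by
  unfold eng
  apply mul_nonneg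
  · split_ifs
    · norm_num
    · exact (Real.exp_pos _).le
  · exact Finset.prod_nonneg (fun v _ => hat_nonneg hw v)

/-- factor of an unprocessed element of a conflict in one step -/
def gf (D : Nib n X ι) (R : ℕ) (s : NSt n X ι) (x v : X) : ℝ :=
  if blk D s x v then 0 else 1 + (1 - 1 / Real.log R) * hN D s v

theorem hat_step {D : Nib n X ι} {R : ℕ} {s : NSt n X ι} {x v : X}
    (hv : (D.o v : ℕ) ≠ s.t) :
    hat D (stepS D R s x) v
      = hat D s v * (if s.t < (D.o v : ℕ) then gf D R s x v else 1) := by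
  unfold hat gf stepS
  by_cases h1 : (D.o v : ℕ) < s.t
  · have h2 : ¬ s.t < (D.o v : ℕ) := by omega
    have h3 : (D.o v : ℕ) < s.t + 1 := by omega
    simp only [h1, h2, h3, hv, if_true, if_false, mul_one]
  · have h2 : s.t < (D.o v : ℕ) := by omega
    have h3 : ¬ (D.o v : ℕ) < s.t + 1 := by omega
    simp only [h1, h2, h3, if_true, if_false]
    split_ifs
    · ring
    · ring

/-- the unprocessed elements of `e` other than `u` -/
def VV (D : Nib n X ι) (s : NSt n X ι) (e : Finset X) (u : X) : Finset X :=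
  (e.erase u).filter (fun v => s.t < (D.o v : ℕ))

theorem eng_step {D : Nib n X ι} {R : ℕ} {s : NSt n X ι} {β : ι} {e : Finset X} {u : X}
    (he : e ∈ confB D s β u) (x : X) :
    eng D (stepS D R s x) β e u = eng D s β e u *
      ((if D.tiny β then 1 else Real.exp (-5 * mB D s β)) * ∏ v ∈ VV D s e u, gf D R s x v) := by
  have h1 : ∏ v ∈ e.erase u, hat D (stepS D R s x) v
      = (∏ v ∈ e.erase u, hat D s v) * ∏ v ∈ VV D s e u, gf D R s x v := by
    unfold VV
    rw [Finset.prod_filter, ← Finset.prod_mul_distrib]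
    apply Finset.prod_congr rfl
    intro v hv
    rw [hat_step]
    unfold confB at he
    rw [Finset.mem_filter] at he
    exact he.2.2 v (Finset.mem_of_mem_erase hv)
  unfold eng
  rw [h1]
  by_cases ht : D.tiny β
  · rw [if_pos ht, if_pos ht, if_pos ht]
    ring
  · rw [if_neg ht, if_neg ht, if_neg ht]
    have h2 : (stepS D R s x).LB β = s.LB β + mB D s β := rfl
    rw [h2, show -5 * (s.LB β + mB D s β) = -5 * s.LB β + -5 * mB D s β by ring, Real.exp_add]
    ring

theorem confB_facts {D : Nib n X ι} {K R : ℕ} (hD : NHyp D K R) {s : NSt n X ι} {β : ι}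
    {e : Finset X} {u : X} (he : e ∈ confB D s β u) :
    e ⊆ D.B β ∧ u ∈ e ∧ u ∉ VV D s e u ∧ VV D s e u ⊆ e ∧ (VV D s e u).card ≤ 3 := by
  unfold confB at he
  rw [Finset.mem_filter] at he
  have h1 := hD.conf_sub β e he.1
  have h2 := hD.conf_card β e he.1
  refine ⟨h1, he.2.1.1, ?_, ?_, ?_⟩
  · unfold VV
    simp
  · unfold VV
    exact (Finset.filter_subset _ _).trans (Finset.erase_subset _ _)
  · unfold VV
    refine (Finset.card_filter_le _ _).trans ?_
    rw [Finset.card_erase_of_mem he.2.1.1, h2]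

/-- sums over filtered sets as sums of indicators -/
theorem hb_eq (D : Nib n X ι) (s : NSt n X ι) (v : X) :
    hb D s v = ∑ x ∈ lst D s.t, pr D s x * (if blk D s x v then 1 else 0) := by
  unfold hb
  rw [Finset.sum_filter]
  apply Finset.sum_congr rfl
  intro x _
  split_ifs <;> simp

theorem mB_eq (D : Nib n X ι) (s : NSt n X ι) (β : ι) :
    mB D s β = ∑ x ∈ lst D s.t, pr D s x * (if x ∈ D.B β then 1 else 0) := by
  unfold mB
  rw [Finset.sum_filter]
  apply Finset.sum_congr rfl
  intro x _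
  split_ifs <;> simp

/-- elements of a block blocked by an item outside of the block: at most one -/
theorem blk_unique {D : Nib n X ι} {K R : ℕ} (hD : NHyp D K R) {s : NSt n X ι} {β : ι}
    {x v v' : X} (hx : x ∉ D.B β) (hv : v ∈ D.B β) (hv' : v' ∈ D.B β) (h1 : blk D s x v)
    (h2 : blk D s x v') : v = v' :=
  hD.H2 β x hx v hv v' hv' (blk_block hD h1) (blk_block hD h2)

/-- number of blocked elements in a set -/
def nb (D : Nib n X ι) (s : NSt n X ι) (x : X) (U : Finset X) : ℝ :=
  ∑ v ∈ U, (if blk D s x v then (1:ℝ) else 0)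

theorem nb_eq (D : Nib n X ι) (s : NSt n X ι) (x : X) (U : Finset X) :
    nb D s x U = ((U.filter (fun v => blk D s x v)).card : ℝ) := by
  unfold nb
  rw [Finset.sum_boole]

theorem nb_nonneg (D : Nib n X ι) (s : NSt n X ι) (x : X) (U : Finset X) :
    0 ≤ nb D s x U := by
  rw [nb_eq]
  positivity

theorem nb_le_card (D : Nib n X ι) (s : NSt n X ι) (x : X) (U : Finset X) :
    nb D s x U ≤ U.card := by
  rw [nb_eq]
  exact_mod_cast Finset.card_filter_le _ _

theorem nb_out {D : Nib n X ι} {K R : ℕ} (hD : NHyp D K R) {s : NSt n X ι} {β : ι}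
    {x : X} (hx : x ∉ D.B β) {U : Finset X} (hU : U ⊆ D.B β) : nb D s x U ≤ 1 := by
  rw [nb_eq]
  have h : (U.filter (fun v => blk D s x v)).card ≤ 1 := by
    rw [Finset.card_le_one]
    intro a ha b hb
    rw [Finset.mem_filter] at ha hb
    exact blk_unique hD hx (hU ha.1) (hU hb.1) ha.2 hb.2
  exact_mod_cast h

/-- the indicator that no element of `U` is blocked -/
theorem none_le {D : Nib n X ι} {K R : ℕ} (hD : NHyp D K R) {s : NSt n X ι} {β : ι}
    (x : X) {U : Finset X} (hU : U ⊆ D.B β) (hc : U.card ≤ 4) :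
    (if ∀ v ∈ U, ¬ blk D s x v then (1:ℝ) else 0)
      ≤ 1 - nb D s x U + 3 * (if x ∈ D.B β then 1 else 0) := by
  have h0 := nb_nonneg D s x U
  by_cases hx : x ∈ D.B β
  · rw [if_pos hx]
    have h1 := nb_le_card D s x U
    have h2 : (U.card : ℝ) ≤ 4 := by exact_mod_cast hc
    split_ifs with h3
    · have h4 : nb D s x U = 0 := by
        unfold nb
        apply Finset.sum_eq_zero
        intro v hv
        rw [if_neg (h3 v hv)]
      rw [h4]
      norm_num
    · linarith
  · rw [if_neg hx]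
    have h1 := nb_out hD hx hU (s := s)
    split_ifs with h3
    · have h4 : nb D s x U = 0 := by
        unfold nb
        apply Finset.sum_eq_zero
        intro v hv
        rw [if_neg (h3 v hv)]
      rw [h4]
      norm_num
    · linarith

/-- real estimates -/
theorem exp_neg_le {x : ℝ} (h0 : 0 ≤ x) (h1 : x ≤ 1) : Real.exp (-x) ≤ 1 - x + x^2 / 2 := by
  have h := Real.abs_exp_sub_one_sub_id_le (x := -x) (by rw [abs_neg, abs_of_nonneg h0]; exact h1)
  -- use the convexity version
  have h2 : Real.exp (-x) ≤ 1 - x + x^2/2 := by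
    have := Real.one_sub_le_exp_neg x
    have h3 : 1 + x + x^2/2 ≤ Real.exp x := Real.quadratic_le_exp_of_nonneg h0
    rw [Real.exp_neg]
    rw [inv_le_comm₀ (Real.exp_pos _) (by nlinarith)]
    refine le_trans ?_ h3
    rw [inv_le_iff_one_le_mul₀ (by nlinarith)]
    nlinarith [sq_nonneg x, sq_nonneg (x^2)]
  exact h2

theorem exp_le_1 {x : ℝ} (h0 : 0 ≤ x) (h1 : x ≤ 1/10) : Real.exp x ≤ 1 + 11/10 * x := by
  have h := Real.abs_exp_sub_one_sub_id_le (x := x) (by rw [abs_of_nonneg h0]; linarith)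
  rw [abs_le] at h
  nlinarith [h.2]

/-- the constants are small for large `R` -/
theorem eventually_small (K : ℕ) (ε : ℝ) (hε : 0 < ε) : ∃ R₀ : ℕ, ∀ R : ℕ, R₀ ≤ R →
    2 * K * (R : ℝ) ^ (-(99 / 100) : ℝ) ≤ ε := by
  have h1 : Filter.Tendsto (fun x : ℝ => x ^ (-(99 / 100) : ℝ)) Filter.atTop (nhds 0) :=
    tendsto_rpow_neg_atTop (by norm_num)
  have h2 := (h1.comp tendsto_natCast_atTop_atTop).const_mul (2 * (K:ℝ))
  rw [mul_zero] at h2
  have h3 := h2.eventually (gt_mem_nhds hε)
  rw [Filter.eventually_atTop] at h3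
  obtain ⟨R₀, h⟩ := h3
  exact ⟨R₀, fun R hR => (h R hR).le⟩

theorem log_ge (M : ℝ) : ∃ R₀ : ℕ, ∀ R : ℕ, R₀ ≤ R → M ≤ Real.log R := by
  have h := (Real.tendsto_log_atTop.comp tendsto_natCast_atTop_atTop).eventually
    (Filter.eventually_ge_atTop M)
  rw [Filter.eventually_atTop] at h
  obtain ⟨R₀, h⟩ := h
  exact ⟨R₀, fun R hR => h R hR⟩

end

end Pool.Agent.TH987.MP325
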