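import Pool.Agent.H973R3.NC.NP
import Pool.Agent.H973R3.NC.FP

/-!
Near pairs, for a connection event with forced open edges in a general finite set of edges.
-/

namespace Pool.Agent.TH987

open H973N H974 H12S Finset
open H973N.NP

theorem coMono {I J : Set Vtx} {O : Set Edg} {F G : Finset Edg} (h : F ⊆ G) (hF : CO I J O F) :
    CO I J O G := by
  unfold CO at hF ⊢
  exact cn_mono (Set.union_subset_union_left _ (by exact_mod_cast h)) hF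

/-- second difference implies block pivotality -/
theorem SD_Bf_O {I J : Set Vtx} {O : Set Edg} {e g : Edg} {b F : Finset Edg} (he : e ∈ b)
    (hg : g ∈ b) (h : SD (CO I J O) e g F) : Bf (CO I J O) b F := by
  obtain ⟨_, _, h3, h4⟩ := h
  refine ⟨coMono ?_ h3, fun h5 => h4 (coMono ?_ h5)⟩
  · intro x hx
    rw [Finset.mem_insert, Finset.mem_insert] at hx
    rw [Finset.mem_union]
    rcases hx with rfl | rfl | hx
    · exact Or.inr he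
    · exact Or.inr hg
    · exact Or.inl hx
  · intro x hx
    rw [Finset.mem_sdiff] at hx
    rw [Finset.mem_erase, Finset.mem_erase]
    exact ⟨fun h => hx.2 (h ▸ hg), fun h => hx.2 (h ▸ he), hx.1⟩

/-- a pivotal edge, with another edge outside the ball changed -/
theorem SD_L4_O {I J : Set Vtx} {O : Set Edg} {ρ : ℕ} (hρ : 1 ≤ ρ) {e g : Edg} {F : Finset Edg}
    (hO : ∀ g ∈ O, g ∉ blk (bp e) ρ)
    (hI : Off (e.1 - ρ) (e.1 + ρ) (e.2.1 - ρ) (e.2.1 + ρ) I J) (hg : g ∉ blk (bp e) ρ)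
    (h : Pf (CO I J O) e (F.erase g) ∨ Pf (CO I J O) e (insert g F)) :
    L4 ρ e ↑F := by
  rcases h with h | h
  · have h1 := piv_L4 hρ hO hI h
    refine (L4_congr' ?_).1 h1
    intro x hx _
    rw [Finset.mem_erase]
    constructor
    · exact fun h => h.2
    · exact fun h => ⟨fun h' => hg (h' ▸ hx), h⟩
  · have h1 := piv_L4 hρ hO hI h
    refine (L4_congr' ?_).1 h1
    intro x hx _
    rw [Finset.mem_insert]
    constructor
    · rintro (h | h)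
      · exact absurd hx (h ▸ hg)
      · exact h
    · exact fun h => Or.inr h

/-- the bound for a pair of edges -/
theorem pair_bound_O {q : ℝ} (h0 : 0 ≤ q) (h1 : q ≤ 1) {S : Finset Edg} {I J : Set Vtx}
    {O : Set Edg} (hO : Disjoint O ↑S) {ρ : ℕ} (hρ : 1 ≤ ρ) {e g : Edg}
    (heS : RE (e.1 - 24 * ρ) (e.1 + 24 * ρ) (e.2.1 - 24 * ρ) (e.2.1 + 24 * ρ) ⊆ S)
    (hIJ : Off (e.1 - 24 * ρ) (e.1 + 24 * ρ) (e.2.1 - 24 * ρ) (e.2.1 + 24 * ρ) I J)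
    (h4 : dst e g ≤ 4 * ρ) (h2 : 2 * (ρ : ℤ) < dst e g) :
    PQ q S (SD (CO I J O) e g) ≤
      (a4 q ρ) ^ 2 * PQ q S (Bf (CO I J O) (tb ρ (tl ρ e))) := by
  have hOk : Ok (fun _ : Edg => q) := fun _ => ⟨h0, h1⟩
  have hρ' : (1 : ℤ) ≤ ρ := by exact_mod_cast hρ
  obtain ⟨⟨k1, k2⟩, k3, k4⟩ := dst_le h4
  have hee : dst e e ≤ 4 * ρ := by rw [NP.dst_self]; positivity
  have hbe : blk (bp e) ρ ⊆ S := by
    refine subset_trans ?_ heS
    unfold blk bp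
    apply RE_subset <;> simp only <;> linarith
  have hbg : blk (bp g) ρ ⊆ S := by
    refine subset_trans ?_ heS
    unfold blk bp
    apply RE_subset <;> simp only <;> linarith
  have hge : ∀ x ∈ blk (bp g) ρ, x ∉ blk (bp e) ρ := by
    intro x hx hx'
    unfold blk bp at hx hx'
    obtain ⟨⟨p1, p2⟩, p3, p4⟩ := RE_weak hx
    obtain ⟨⟨r1, r2⟩, r3, r4⟩ := RE_weak hx'
    simp only at p1 p2 p3 p4 r1 r2 r3 r4
    have : dst e g ≤ 2 * ρ := by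
      unfold dst
      apply max_le <;> rw [abs_le] <;> constructor <;> linarith
    linarith
  have hball : ∀ x : Edg, x ∈ blk (bp x) ρ := by
    intro x
    unfold blk bp
    apply RE_strong
    refine ⟨⟨?_, ?_⟩, ?_, ?_⟩ <;> simp only <;> linarith
  have hg1 : g ∉ blk (bp e) ρ := hge g (hball g)
  have he1 : e ∉ blk (bp g) ρ := fun h => hge e h (hball e)
  have hOe : Off (e.1 - ρ) (e.1 + ρ) (e.2.1 - ρ) (e.2.1 + ρ) I J :=
    Off_sub hIJ (by linarith) (by linarith) (by linarith) (by linarith)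
  have hOg : Off (g.1 - ρ) (g.1 + ρ) (g.2.1 - ρ) (g.2.1 + ρ) I J :=
    Off_sub hIJ (by linarith) (by linarith) (by linarith) (by linarith)
  have hOe' : ∀ x ∈ O, x ∉ blk (bp e) ρ := fun x hx hx' =>
    Set.disjoint_left.1 hO hx (Finset.mem_coe.2 (hbe hx'))
  have hOg' : ∀ x ∈ O, x ∉ blk (bp g) ρ := fun x hx hx' =>
    Set.disjoint_left.1 hO hx (Finset.mem_coe.2 (hbg hx'))
  have step1 : PQ q S (SD (CO I J O) e g) ≤
      PQ q S (fun F => L4 ρ e ↑F ∧ (L4 ρ g ↑F ∧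
        Bf (CO I J O) (tb ρ (tl ρ e)) F)) := by
    refine Pr_mono hOk ?_
    intro F _ hF
    refine ⟨SD_L4_O hρ hOe' hOe hg1 hF.1, SD_L4_O hρ hOg' hOg he1 hF.2.1,
      SD_Bf_O (mem_tb hρ hee) (mem_tb hρ h4) hF⟩
  refine step1.trans ?_
  have hBl : ∀ (x : Edg), dst e x ≤ 4 * ρ → ∀ F, F ⊆ S →
      (Bf (CO I J O) (tb ρ (tl ρ e)) F ↔
        Bf (CO I J O) (tb ρ (tl ρ e)) (F ∩ (S \ blk (bp x) ρ))) :=
    fun x hx F hF => Bf_local (ball_sub_tb hρ hx) F hF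
  refine (indep_L4 h0 h1 hbe ?_).trans ?_
  · intro F hF
    rw [← hBl e hee F hF]
    apply and_congr_left
    intro _
    apply L4_congr'
    intro x hx _
    rw [Finset.mem_inter, Finset.mem_sdiff]
    exact ⟨fun h => ⟨h, hF h, hge x hx⟩, fun h => h.1⟩
  · have ha : 0 ≤ a4 q ρ := (Pr_nonneg hOk _ _).trans (pr_L4 h0 h1 hbe)
    rw [sq, mul_assoc]
    exact mul_le_mul_of_nonneg_left (indep_L4 h0 h1 hbg (hBl g h4)) ha

/-- number of tiles, any centre -/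
theorem card_tiles_z (ρ : ℕ) (hρ : 1 ≤ ρ) (M : ℕ) (hM : 1 ≤ M) (z : ℤ × ℤ) (G : Finset Edg)
    (hG : ∀ e ∈ G, |e.1 - z.1| ≤ M * ρ ∧ |e.2.1 - z.2| ≤ M * ρ) :
    Real.sqrt ((G.image (tl ρ)).card : ℝ) ≤ 4 * (M : ℝ) := by
  have hρ' : (1 : ℤ) ≤ ρ := by exact_mod_cast hρ
  have hM' : (1 : ℤ) ≤ M := by exact_mod_cast hM
  obtain ⟨t1, ht1⟩ : ∃ t1 : ℤ, t1 = (z.1 + (ρ : ℤ)) / ((2 * ρ : ℕ) : ℤ) := ⟨_, rfl⟩
  obtain ⟨t2, ht2⟩ : ∃ t2 : ℤ, t2 = (z.2 + (ρ : ℤ)) / ((2 * ρ : ℕ) : ℤ) := ⟨_, rfl⟩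
  have c1 := div_spec hρ z.1
  have c2 := div_spec hρ z.2
  rw [← ht1] at c1
  rw [← ht2] at c2
  have h1 : G.image (tl ρ) ⊆ (Finset.Icc (t1 - M) (t1 + M)) ×ˢ (Finset.Icc (t2 - M) (t2 + M)) := by
    intro t ht
    rw [Finset.mem_image] at ht
    obtain ⟨e, he, rfl⟩ := ht
    have d1 := div_spec hρ e.1
    have d2 := div_spec hρ e.2.1
    have hb := hG e he
    rw [abs_le, abs_le] at hb
    rw [Finset.mem_product, Finset.mem_Icc, Finset.mem_Icc]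
    unfold tl
    simp only
    generalize (e.1 + (ρ : ℤ)) / ((2 * ρ : ℕ) : ℤ) = u at d1 ⊢
    generalize (e.2.1 + (ρ : ℤ)) / ((2 * ρ : ℕ) : ℤ) = v at d2 ⊢
    push_cast at d1 d2 c1 c2
    have key : ∀ x y w t : ℤ, 2 * (ρ : ℤ) * y ≤ x + ρ → x < 2 * (ρ : ℤ) * y + ρ →
        2 * (ρ : ℤ) * t ≤ w + ρ → w < 2 * (ρ : ℤ) * t + ρ → -(M * ρ : ℤ) ≤ x - w →
        x - w ≤ M * ρ → t - (M : ℤ) ≤ y ∧ y ≤ t + M := by
      intro x y w t q1 q2 q3 q4 q5 q6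
      constructor
      · by_contra hcon
        push Not at hcon
        have : 2 * (ρ : ℤ) * y ≤ 2 * ρ * (t - M - 1) :=
          mul_le_mul_of_nonneg_left (by linarith) (by linarith)
        nlinarith
      · by_contra hcon
        push Not at hcon
        have : 2 * (ρ : ℤ) * (t + M + 1) ≤ 2 * ρ * y :=
          mul_le_mul_of_nonneg_left (by linarith) (by linarith)
        nlinarith
    exact ⟨key _ _ _ _ d1.1 d1.2 c1.1 c1.2 hb.1.1 hb.1.2, key _ _ _ _ d2.1 d2.2 c2.1 c2.2 hb.2.1 hb.2.2⟩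
  have h2 := Finset.card_le_card h1
  rw [Finset.card_product, Int.card_Icc, Int.card_Icc] at h2
  have e1 : ∀ t : ℤ, (t + (M : ℤ) + 1 - (t - (M : ℤ))).toNat = 2 * M + 1 := by
    intro t
    rw [show t + (M : ℤ) + 1 - (t - (M : ℤ)) = ((2 * M + 1 : ℕ) : ℤ) by push_cast; ring]
    exact Int.toNat_natCast _
  rw [e1, e1] at h2
  have h3 : (2 * M + 1) * (2 * M + 1) ≤ (4 * M) ^ 2 := by nlinarith
  have h4 : ((G.image (tl ρ)).card : ℝ) ≤ (4 * (M : ℝ)) ^ 2 := by exact_mod_cast h2.trans h3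
  rw [Real.sqrt_le_left (by positivity)]
  exact h4

/-- one class of pairs -/
theorem class_sum_O {κ : ℝ} {q : ℝ} {n : ℕ} (hW : Win q κ n) {S : Finset Edg} {I J : Set Vtx}
    {O : Set Edg} (hO : Disjoint O ↑S) {z : ℤ × ℤ} {K Λ : ℕ} (hΛ : 1 ≤ Λ)
    (hn : 12 * 2 ^ K ≤ n) {G : Finset Edg}
    (hG : ∀ e ∈ G, |e.1 - z.1| ≤ Λ * 2 ^ K ∧ |e.2.1 - z.2| ≤ Λ * 2 ^ K)
    (hS : ∀ e ∈ G, RE (e.1 - 24 * 2 ^ K) (e.1 + 24 * 2 ^ K) (e.2.1 - 24 * 2 ^ K)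
      (e.2.1 + 24 * 2 ^ K) ⊆ S)
    (hIJ : ∀ e ∈ G, Off (e.1 - 24 * 2 ^ K) (e.1 + 24 * 2 ^ K) (e.2.1 - 24 * 2 ^ K)
      (e.2.1 + 24 * 2 ^ K) I J)
    {k : ℕ} (hk : k ≤ K) (P : Edg → Edg → Prop)
    (hP : ∀ e g, P e g → dst e g ≤ 4 * ((2 ^ k : ℕ) : ℤ)) {A : ℝ} (hA : 0 ≤ A)
    (hb : ∀ e ∈ G, ∀ g, P e g → PQ q S (SD (CO I J O) e g) ≤
      A * PQ q S (Bf (CO I J O) (tb (2 ^ k) (tl (2 ^ k) e)))) :
    ∑ e ∈ G, ∑ g ∈ S.erase e, ind (P e g) *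
      PQ q S (SD (CO I J O) e g) ≤
      162 * 18 * 722 * 4 * κ⁻¹ ^ 4 * Λ * ((16 : ℝ) ^ k * A * 2 ^ (K - k)) := by
  classical
  have h0 : 0 ≤ q := by linarith [hW.lo]
  have h1 : q ≤ 1 := by linarith [hW.hi]
  have hOk : Ok (fun _ : Edg => q) := fun _ => ⟨h0, h1⟩
  set ρ : ℕ := 2 ^ k with hρdef
  have hρ : 1 ≤ ρ := Nat.one_le_two_pow
  have hρK : ρ ≤ 2 ^ K := Nat.pow_le_pow_right (by norm_num) hk
  have hρKz : (ρ : ℤ) ≤ 2 ^ K := by exact_mod_cast hρK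
  have hρ1z : (1 : ℤ) ≤ ρ := by exact_mod_cast hρ
  set B : ℤ × ℤ → ℝ := fun t => PQ q S (Bf (CO I J O) (tb ρ t)) with hB
  have hB0 : ∀ t, 0 ≤ B t := fun t => Pr_nonneg hOk _ _
  -- inner sums
  have inner : ∀ e ∈ G, ∑ g ∈ S.erase e, ind (P e g) *
      PQ q S (SD (CO I J O) e g) ≤
      162 * (ρ : ℝ) ^ 2 * (A * B (tl ρ e)) := by
    intro e he
    have hAB : 0 ≤ A * B (tl ρ e) := mul_nonneg hA (hB0 _)
    calc ∑ g ∈ S.erase e, ind (P e g) *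
        PQ q S (SD (CO I J O) e g)
        ≤ ∑ g ∈ S.erase e, if dst e g ≤ 4 * ρ then A * B (tl ρ e) else 0 := by
          refine Finset.sum_le_sum fun g _ => ?_
          by_cases hp : P e g
          · rw [ind_of hp, one_mul, if_pos (hP e g hp)]
            exact hb e he g hp
          · rw [ind_not_of hp, zero_mul]
            split_ifs
            · exact hAB
            · exact le_rfl
      _ = ((S.erase e).filter (fun g => dst e g ≤ 4 * ρ)).card *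
          (A * B (tl ρ e)) := by
          rw [← Finset.sum_filter, Finset.sum_const, nsmul_eq_mul]
      _ ≤ 162 * (ρ : ℝ) ^ 2 * (A * B (tl ρ e)) :=
          mul_le_mul_of_nonneg_right (card_near e ρ hρ _) hAB
  set T : Finset (ℤ × ℤ) := G.image (tl ρ) with hT
  have tile : ∑ t ∈ T, B t ≤ 2 * (19 : ℕ) ^ 2 * κ⁻¹ ^ 4 * Real.sqrt T.card := by
    have hTs := tile_sum hW (S := S) (I := I) (J := J) (O := O)
      hO (s := 2 * ρ) (R := 6 * ρ) (K := 19) (by omega) (by omega)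
      (by
        have : 12 * ρ ≤ 12 * 2 ^ K := by omega
        omega) (by norm_num) (by omega) T ?_ ?_
    · exact hTs
    · intro t ht
      rw [hT, Finset.mem_image] at ht
      obtain ⟨e, he, rfl⟩ := ht
      have d1 := div_spec hρ e.1
      have d2 := div_spec hρ e.2.1
      refine subset_trans ?_ (hS e he)
      unfold blk tl
      push_cast at d1 d2 ⊢
      apply RE_subset <;> linarith
    · intro t ht
      rw [hT, Finset.mem_image] at ht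
      obtain ⟨e, he, rfl⟩ := ht
      have d1 := div_spec hρ e.1
      have d2 := div_spec hρ e.2.1
      unfold tl
      push_cast at d1 d2 ⊢
      apply Off_sub (hIJ e he) <;> linarith
  have hfib : ∑ e ∈ G, 162 * (ρ : ℝ) ^ 2 * (A * B (tl ρ e)) ≤
      162 * (ρ : ℝ) ^ 2 * A * (18 * (ρ : ℝ) ^ 2 * ∑ t ∈ T, B t) := by
    have h2 : ∑ e ∈ G, 162 * (ρ : ℝ) ^ 2 * (A * B (tl ρ e)) =
        162 * (ρ : ℝ) ^ 2 * A * ∑ e ∈ G, B (tl ρ e) := by
      rw [Finset.mul_sum]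
      refine Finset.sum_congr rfl fun e _ => ?_
      ring
    rw [h2]
    apply mul_le_mul_of_nonneg_left _ (by positivity)
    have h3 : ∑ e ∈ G, B (tl ρ e) = ∑ t ∈ T, ∑ e ∈ G.filter (fun e => tl ρ e = t), B (tl ρ e) :=
      (Finset.sum_fiberwise_of_maps_to (fun e he => Finset.mem_image_of_mem _ he) _).symm
    rw [h3, Finset.mul_sum]
    refine Finset.sum_le_sum fun t _ => ?_
    have h4 : ∑ e ∈ G.filter (fun e => tl ρ e = t), B (tl ρ e) =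
        (G.filter (fun e => tl ρ e = t)).card * B t := by
      rw [← nsmul_eq_mul, ← Finset.sum_const]
      refine Finset.sum_congr rfl fun e he => ?_
      rw [(Finset.mem_filter.mp he).2]
    rw [h4]
    exact mul_le_mul_of_nonneg_right (card_tile ρ hρ G t) (hB0 t)
  have hsq : Real.sqrt (T.card : ℝ) ≤ 4 * ((Λ * 2 ^ (K - k) : ℕ) : ℝ) := by
    apply card_tiles_z ρ hρ (Λ * 2 ^ (K - k)) (Nat.mul_pos hΛ (Nat.two_pow_pos _)) z G
    intro e he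
    have h5 : (((Λ * 2 ^ (K - k) : ℕ) : ℤ) * (ρ : ℤ)) = Λ * 2 ^ K := by
      have h6 : (2 : ℤ) ^ K = 2 ^ (K - k) * 2 ^ k := by
        rw [← pow_add]
        congr 1
        omega
      rw [h6, hρdef]
      push_cast
      ring
    rw [h5]
    exact hG e he
  have hκ : 0 ≤ κ⁻¹ ^ 4 := by
    have := hW.kpos
    positivity
  calc ∑ e ∈ G, ∑ g ∈ S.erase e, ind (P e g) *
      PQ q S (SD (CO I J O) e g)
      ≤ ∑ e ∈ G, 162 * (ρ : ℝ) ^ 2 * (A * B (tl ρ e)) := Finset.sum_le_sum inner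
    _ ≤ 162 * (ρ : ℝ) ^ 2 * A * (18 * (ρ : ℝ) ^ 2 * ∑ t ∈ T, B t) := hfib
    _ ≤ 162 * (ρ : ℝ) ^ 2 * A * (18 * (ρ : ℝ) ^ 2 * (2 * (19 : ℕ) ^ 2 * κ⁻¹ ^ 4 *
          (4 * ((Λ * 2 ^ (K - k) : ℕ) : ℝ)))) := by
        apply mul_le_mul_of_nonneg_left _ (by positivity)
        apply mul_le_mul_of_nonneg_left _ (by positivity)
        refine tile.trans ?_
        apply mul_le_mul_of_nonneg_left hsq (by positivity)
    _ = 162 * 18 * 722 * 4 * κ⁻¹ ^ 4 * Λ * ((16 : ℝ) ^ k * A * 2 ^ (K - k)) := by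
        have h7 : (ρ : ℝ) ^ 2 * (ρ : ℝ) ^ 2 = 16 ^ k := by
          rw [← pow_add, hρdef]
          push_cast
          rw [← pow_mul, mul_comm k, pow_mul]
          norm_num
        push_cast
        linear_combination (162 * 18 * (2 * 19 ^ 2 * κ⁻¹ ^ 4 * (4 * (Λ * 2 ^ (K - k)))) * A) * h7

/-- Near pairs for a connection event with forced open edges. -/
theorem near_gen (κ : ℝ) (hκ : 0 < κ) : ∃ C : ℝ, 0 < C ∧ ∀ (q : ℝ) (n : ℕ), Win q κ n →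
    ∀ (S : Finset Edg) (I J : Set Vtx) (O : Set Edg), Disjoint O ↑S →
    ∀ (z : ℤ × ℤ) (K Λ : ℕ), 1 ≤ Λ → 12 * 2^K ≤ n →
    ∀ G : Finset Edg, (∀ e ∈ G, |e.1 - z.1| ≤ Λ * 2^K ∧ |e.2.1 - z.2| ≤ Λ * 2^K) →
    (∀ e ∈ G, RE (e.1 - 24 * 2 ^ K) (e.1 + 24 * 2 ^ K) (e.2.1 - 24 * 2 ^ K)
      (e.2.1 + 24 * 2 ^ K) ⊆ S) →
    (∀ e ∈ G, Off (e.1 - 24 * 2 ^ K) (e.1 + 24 * 2 ^ K) (e.2.1 - 24 * 2 ^ K)
      (e.2.1 + 24 * 2 ^ K) I J) →
    ∑ e ∈ G, ∑ g ∈ S.erase e, ind (dst e g ≤ 4 * 2^K) *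
      PQ q S (SD (CO I J O) e g) ≤ C * Λ * W2s q K := by
  refine ⟨162 * 18 * 722 * 4 * κ⁻¹ ^ 4, by positivity, ?_⟩
  intro q n hW S I J O hO z K Λ hΛ hn G hG hS hIJ
  have h0 : 0 ≤ q := by linarith [hW.lo]
  have h1 : q ≤ 1 := by linarith [hW.hi]
  have hOk : Ok (fun _ : Edg => q) := fun _ => ⟨h0, h1⟩
  have hX : ∀ e g, 0 ≤ PQ q S (SD (CO I J O) e g) := fun e g =>
    Pr_nonneg hOk _ _
  -- split
  have split : ∀ e g : Edg, ind (dst e g ≤ 4 * 2 ^ K) *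
      PQ q S (SD (CO I J O) e g) ≤
      ind (dst e g ≤ 2) * PQ q S (SD (CO I J O) e g) +
      ∑ k ∈ Finset.range (K + 1), ind (2 * ((2 ^ k : ℕ) : ℤ) < dst e g ∧
        dst e g ≤ 4 * ((2 ^ k : ℕ) : ℤ)) *
        PQ q S (SD (CO I J O) e g) := by
    intro e g
    rw [← Finset.sum_mul, ← add_mul]
    exact mul_le_mul_of_nonneg_right (ind_split K _) (hX e g)
  have close : ∑ e ∈ G, ∑ g ∈ S.erase e, ind (dst e g ≤ 2) *
      PQ q S (SD (CO I J O) e g) ≤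
      162 * 18 * 722 * 4 * κ⁻¹ ^ 4 * Λ * ((16 : ℝ) ^ 0 * 1 * 2 ^ (K - 0)) := by
    refine class_sum_O hW hO hΛ hn hG hS hIJ (Nat.zero_le K) (fun e g => dst e g ≤ 2) ?_
      zero_le_one ?_
    · intro e g h
      norm_num
      linarith
    · intro e he g hg
      rw [one_mul]
      refine Pr_mono hOk ?_
      intro F _ hF
      have hg4 : dst e g ≤ 4 * ((2 ^ 0 : ℕ) : ℤ) := by
        norm_num
        linarith
      have hee : dst e e ≤ 4 * ((2 ^ 0 : ℕ) : ℤ) := by rw [NP.dst_self]; norm_num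
      exact SD_Bf_O (mem_tb (by norm_num) hee) (mem_tb (by norm_num) hg4) hF
  have cls : ∀ k ∈ Finset.range (K + 1), ∑ e ∈ G, ∑ g ∈ S.erase e,
      ind (2 * ((2 ^ k : ℕ) : ℤ) < dst e g ∧ dst e g ≤ 4 * ((2 ^ k : ℕ) : ℤ)) *
      PQ q S (SD (CO I J O) e g) ≤
      162 * 18 * 722 * 4 * κ⁻¹ ^ 4 * Λ * ((16 : ℝ) ^ k * (a4 q (2 ^ k)) ^ 2 * 2 ^ (K - k)) := by
    intro k hk
    have hk' : k ≤ K := by
      rw [Finset.mem_range] at hk
      omega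
    have h2k : ((2 ^ k : ℕ) : ℤ) ≤ 2 ^ K := by
      exact_mod_cast Nat.pow_le_pow_right (by norm_num) hk'
    refine class_sum_O hW hO hΛ hn hG hS hIJ hk' (fun e g => 2 * ((2 ^ k : ℕ) : ℤ) < dst e g ∧
      dst e g ≤ 4 * ((2 ^ k : ℕ) : ℤ)) (fun e g h => h.2) (sq_nonneg _) ?_
    intro e he g hg
    refine pair_bound_O h0 h1 hO Nat.one_le_two_pow ?_ ?_ hg.2 hg.1
    · refine subset_trans ?_ (hS e he)
      apply RE_subset <;> linarith
    · apply Off_sub (hIJ e he) <;> linarith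
  calc ∑ e ∈ G, ∑ g ∈ S.erase e, ind (dst e g ≤ 4 * 2^K) *
      PQ q S (SD (CO I J O) e g)
      ≤ ∑ e ∈ G, ∑ g ∈ S.erase e, (ind (dst e g ≤ 2) *
          PQ q S (SD (CO I J O) e g) +
        ∑ k ∈ Finset.range (K + 1), ind (2 * ((2 ^ k : ℕ) : ℤ) < dst e g ∧
          dst e g ≤ 4 * ((2 ^ k : ℕ) : ℤ)) *
          PQ q S (SD (CO I J O) e g)) :=
        Finset.sum_le_sum fun e _ => Finset.sum_le_sum fun g _ => split e g
    _ = (∑ e ∈ G, ∑ g ∈ S.erase e, ind (dst e g ≤ 2) *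
          PQ q S (SD (CO I J O) e g)) +
        ∑ k ∈ Finset.range (K + 1), ∑ e ∈ G, ∑ g ∈ S.erase e,
          ind (2 * ((2 ^ k : ℕ) : ℤ) < dst e g ∧ dst e g ≤ 4 * ((2 ^ k : ℕ) : ℤ)) *
          PQ q S (SD (CO I J O) e g) := by
        rw [Finset.sum_comm (s := Finset.range (K + 1)), ← Finset.sum_add_distrib]
        refine Finset.sum_congr rfl fun e _ => ?_
        rw [Finset.sum_add_distrib]
        congr 1
        rw [Finset.sum_comm]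
    _ ≤ 162 * 18 * 722 * 4 * κ⁻¹ ^ 4 * Λ * ((16 : ℝ) ^ 0 * 1 * 2 ^ (K - 0)) +
        ∑ k ∈ Finset.range (K + 1), 162 * 18 * 722 * 4 * κ⁻¹ ^ 4 * Λ *
          ((16 : ℝ) ^ k * (a4 q (2 ^ k)) ^ 2 * 2 ^ (K - k)) :=
        add_le_add close (Finset.sum_le_sum cls)
    _ = 162 * 18 * 722 * 4 * κ⁻¹ ^ 4 * Λ * W2s q K := by
        unfold W2s
        rw [← Finset.mul_sum]
        simp only [pow_zero, one_mul, Nat.sub_zero]
        ring

end Pool.Agent.TH987
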