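import Pool.Agent.TH987.Cnt
import Pool.Agent.TH987.Der
import Pool.Agent.W424.NC.NearA

/-!
The sum of the third differences over all scales.
-/

namespace Pool.Agent.TH987

open H973N H974 H12S Finset
open H973N.NP

/-- Third difference probabilities of distinct edges. -/
noncomputable def tt (q : ℝ) (S : Finset Edg) (e f k : Edg) : ℝ :=
  if e ≠ f ∧ e ≠ k ∧ f ≠ k then PQ q S (SD (fE e) f k) else 0

theorem tt_nonneg {q : ℝ} (h0 : 0 ≤ q) (h1 : q ≤ 1) (S : Finset Edg) (e f k : Edg) :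
    0 ≤ tt q S e f k := by
  unfold tt
  split_ifs
  · exact Pr_nonneg (fun _ => ⟨h0, h1⟩) _ _
  · exact le_rfl

theorem tt_le {q : ℝ} (h0 : 0 ≤ q) (h1 : q ≤ 1) (S : Finset Edg) (e f k : Edg) :
    tt q S e f k ≤ PQ q S (SD (fE e) f k) := by
  unfold tt
  split_ifs
  · exact le_rfl
  · exact Pr_nonneg (fun _ => ⟨h0, h1⟩) _ _

theorem tt_swap (q : ℝ) (S : Finset Edg) (e f k : Edg) : tt q S e f k = tt q S f e k := by
  unfold tt
  by_cases h : e ≠ f ∧ e ≠ k ∧ f ≠ k
  · rw [if_pos h, if_pos ⟨h.1.symm, h.2.2, h.2.1⟩]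
    exact Pr_congr (fun F _ => SD_swap h.1 h.2.1 h.2.2 F)
  · rw [if_neg h, if_neg (fun h' => h ⟨h'.1.symm, h'.2.2, h'.2.1⟩)]

theorem tt_comm (q : ℝ) (S : Finset Edg) (e f k : Edg) : tt q S e f k = tt q S e k f := by
  unfold tt
  by_cases h : e ≠ f ∧ e ≠ k ∧ f ≠ k
  · rw [if_pos h, if_pos ⟨h.2.1, h.1, h.2.2.symm⟩]
    exact Pr_congr (fun F _ => SD_comm F)
  · rw [if_neg h, if_neg (fun h' => h ⟨h'.2.1, h'.1, h'.2.2.symm⟩)]

theorem phi2_le {q : ℝ} (h0 : 0 ≤ q) (h1 : q ≤ 1) (G S : Finset Edg) :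
    phi2 G S q ≤ ∑ e ∈ G, ∑ f ∈ S, ∑ k ∈ S, tt q S e f k := by
  unfold phi2
  apply Finset.sum_le_sum
  intro e _
  apply Finset.sum_le_sum
  intro f _
  calc ∑ k ∈ S.erase f, PQ q S (SD (fE e) f k) ≤ ∑ k ∈ S.erase f, tt q S e f k := by
        apply Finset.sum_le_sum
        intro k hk
        have hkf := (Finset.mem_erase.1 hk).1
        unfold tt
        split_ifs with h
        · exact le_rfl
        · apply le_of_eq
          have hz : ∀ F : Finset Edg, ¬ SD (fE e) f k F := by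
            intro F
            by_cases hef : e = f
            · rw [← hef]; exact not_SD_self F
            · by_cases hek : e = k
              · rw [← hek]; exact not_SD_self' F
              · exact absurd ⟨hef, hek, hkf.symm⟩ h
          unfold PQ Pr
          rw [Ex_congr (g := fun _ => (0:ℝ)) (fun F _ => ind_not_of (hz F)), Ex_const]
    _ ≤ ∑ k ∈ S, tt q S e f k :=
        Finset.sum_le_sum_of_subset_of_nonneg (Finset.erase_subset _ _)
          (fun k _ _ => tt_nonneg h0 h1 S e f k)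

/-- Sum over the triples with centre `c`. -/
noncomputable def VV (q : ℝ) (S : Finset Edg) (c A : Edg) : ℝ :=
  ∑ B ∈ S, ind (dst A B ≤ dst c A ∧ dst A B ≤ dst c B) * tt q S c A B

theorem VV_nonneg {q : ℝ} (h0 : 0 ≤ q) (h1 : q ≤ 1) (S : Finset Edg) (c A : Edg) :
    0 ≤ VV q S c A :=
  Finset.sum_nonneg (fun _ _ => mul_nonneg (ind_nonneg _) (tt_nonneg h0 h1 _ _ _ _))

/-- Near triples through their centres. -/
theorem near_split {q : ℝ} (h0 : 0 ≤ q) (h1 : q ≤ 1) (G S : Finset Edg) (hG : G ⊆ S) (R : ℤ) :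
    ∑ e ∈ G, ∑ f ∈ S, ∑ k ∈ S, ind (dst e f < R ∧ dst e k < R) * tt q S e f k ≤
      ∑ e ∈ G, ∑ f ∈ S, ind (dst e f < R) * (VV q S e f + 2 * VV q S f e) := by
  have ht : ∀ e f k, 0 ≤ tt q S e f k := tt_nonneg h0 h1 S
  have key : ∀ e f k : Edg, ind (dst e f < R ∧ dst e k < R) * tt q S e f k ≤
      ind (dst e f < R) * (ind (dst f k ≤ dst e f ∧ dst f k ≤ dst e k) * tt q S e f k) +
      ind (dst e f < R) * (ind (dst e k ≤ dst f e ∧ dst e k ≤ dst f k) * tt q S f e k) +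
      ind (dst e k < R) * (ind (dst e f ≤ dst k e ∧ dst e f ≤ dst k f) * tt q S k e f) := by
    intro e f k
    have e1 : tt q S f e k = tt q S e f k := (tt_swap q S e f k).symm
    have e2 : tt q S k e f = tt q S e f k := by
      rw [← tt_swap q S e k f, ← tt_comm q S e f k]
    rw [e1, e2]
    have hx := ht e f k
    by_cases hR : dst e f < R ∧ dst e k < R
    · rw [ind_of hR, ind_of hR.1, ind_of hR.2, one_mul, one_mul, one_mul, one_mul]
      have c1 := FPX.dst_comm e f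
      have c2 := FPX.dst_comm e k
      have c3 := FPX.dst_comm f k
      have i1 := ind_nonneg (dst f k ≤ dst e f ∧ dst f k ≤ dst e k)
      have i2 := ind_nonneg (dst e k ≤ dst f e ∧ dst e k ≤ dst f k)
      have i3 := ind_nonneg (dst e f ≤ dst k e ∧ dst e f ≤ dst k f)
      have hsum : 1 ≤ ind (dst f k ≤ dst e f ∧ dst f k ≤ dst e k) +
          ind (dst e k ≤ dst f e ∧ dst e k ≤ dst f k) +
          ind (dst e f ≤ dst k e ∧ dst e f ≤ dst k f) := by
        by_cases a1 : dst f k ≤ dst e f ∧ dst f k ≤ dst e k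
        · rw [ind_of a1]; linarith
        · by_cases a2 : dst e k ≤ dst f e ∧ dst e k ≤ dst f k
          · rw [ind_of a2]; linarith
          · have a3 : dst e f ≤ dst k e ∧ dst e f ≤ dst k f := by omega
            rw [ind_of a3]; linarith
      nlinarith
    · rw [ind_not_of hR, zero_mul]
      have j1 := ind_nonneg (dst e f < R)
      have j2 := ind_nonneg (dst e k < R)
      have i1 := ind_nonneg (dst f k ≤ dst e f ∧ dst f k ≤ dst e k)
      have i2 := ind_nonneg (dst e k ≤ dst f e ∧ dst e k ≤ dst f k)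
      have i3 := ind_nonneg (dst e f ≤ dst k e ∧ dst e f ≤ dst k f)
      positivity
  calc ∑ e ∈ G, ∑ f ∈ S, ∑ k ∈ S, ind (dst e f < R ∧ dst e k < R) * tt q S e f k
      ≤ ∑ e ∈ G, ∑ f ∈ S, ∑ k ∈ S,
        (ind (dst e f < R) * (ind (dst f k ≤ dst e f ∧ dst f k ≤ dst e k) * tt q S e f k) +
        ind (dst e f < R) * (ind (dst e k ≤ dst f e ∧ dst e k ≤ dst f k) * tt q S f e k) +
        ind (dst e k < R) * (ind (dst e f ≤ dst k e ∧ dst e f ≤ dst k f) * tt q S k e f)) :=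
        Finset.sum_le_sum fun e _ => Finset.sum_le_sum fun f _ => Finset.sum_le_sum fun k _ =>
          key e f k
    _ = ∑ e ∈ G, (∑ f ∈ S, ind (dst e f < R) * VV q S e f +
        ∑ f ∈ S, ind (dst e f < R) * VV q S f e + ∑ k ∈ S, ind (dst e k < R) * VV q S k e) := by
        apply Finset.sum_congr rfl
        intro e he
        simp only [Finset.sum_add_distrib]
        have a1 : ∑ f ∈ S, ∑ k ∈ S, ind (dst e f < R) *
            (ind (dst f k ≤ dst e f ∧ dst f k ≤ dst e k) * tt q S e f k) =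
            ∑ f ∈ S, ind (dst e f < R) * VV q S e f := by
          apply Finset.sum_congr rfl
          intro f _
          rw [← Finset.mul_sum]
          rfl
        have a2 : ∑ f ∈ S, ∑ k ∈ S, ind (dst e f < R) *
            (ind (dst e k ≤ dst f e ∧ dst e k ≤ dst f k) * tt q S f e k) =
            ∑ f ∈ S, ind (dst e f < R) * VV q S f e := by
          apply Finset.sum_congr rfl
          intro f _
          rw [← Finset.mul_sum]
          rfl
        have a3 : ∑ f ∈ S, ∑ k ∈ S, ind (dst e k < R) *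
            (ind (dst e f ≤ dst k e ∧ dst e f ≤ dst k f) * tt q S k e f) =
            ∑ k ∈ S, ind (dst e k < R) * VV q S k e := by
          rw [Finset.sum_comm]
          apply Finset.sum_congr rfl
          intro k _
          rw [← Finset.mul_sum]
          rfl
        rw [a1, a2, a3]
    _ = ∑ e ∈ G, ∑ f ∈ S, ind (dst e f < R) * (VV q S e f + 2 * VV q S f e) := by
        apply Finset.sum_congr rfl
        intro e _
        rw [← Finset.sum_add_distrib, ← Finset.sum_add_distrib]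
        apply Finset.sum_congr rfl
        intro f _
        ring

/-- The hypotheses at one scale. -/
structure Sc (κ A E q : ℝ) (n K0 N : ℕ) : Prop where
  win : Win q κ n
  hn : 12 * 2^K0 ≤ n
  ha : ∀ k ≤ K0, a4 q (2^k) ≤ A * ((2:ℝ)^k) ^ (-(5/4 : ℝ))
  hN : 2 ≤ N
  hNE : (N:ℝ) ≤ E * 2^K0
  he : eps (1 - q) N ≤ 1/100

theorem W2s_nonneg {q : ℝ} (h0 : 0 ≤ q) (h1 : q ≤ 1) (K : ℕ) : 0 ≤ W2s q K := by
  unfold W2s
  apply add_nonneg (by positivity)
  apply Finset.sum_nonneg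
  intro k _
  have := FPX.a4_nonneg h0 h1 (2^k)
  positivity

theorem class_num {y A E C1 C2 a bt W : ℝ} {d : ℕ} (hy0 : 0 < y) (hA : 1 ≤ A) (hE : 1 ≤ E)
    (hC1 : 0 < C1) (hC2 : 0 < C2) (ha0 : 0 ≤ a) (ha4 : a ≤ A * y^(-(5/4:ℝ))) (hb0 : 0 ≤ bt)
    (b4 : bt ≤ 5040 * E^7 * (1/128)^d) (hW0 : 0 ≤ W) (hW2 : W ≤ C2 * A^2 * y^((3/2:ℝ))) :
    a * bt * (C1 * (2^8 * 2^d) * W) + (18 * (2^8 * 2^d * y)^2)^2 * (a * bt * a^2) ≤
      5040 * E^7 * A^3 * (C1 * C2 * 2^8 + 18^2 * 2^32) * (1/8)^d * y^(1/4 : ℝ) := by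
  obtain ⟨B, hB⟩ : ∃ B : ℝ, B = 5040 * E^7 * (1/128)^d := ⟨_, rfl⟩
  rw [← hB] at b4
  have hE0 : 0 < E := by linarith
  have hA0 : 0 < A := by linarith
  have hB0 : 0 ≤ B := by rw [hB]; positivity
  obtain ⟨z, hz⟩ : ∃ z : ℝ, z = y^(-(5/4:ℝ)) := ⟨_, rfl⟩
  obtain ⟨u, hu⟩ : ∃ u : ℝ, u = y^((3/2:ℝ)) := ⟨_, rfl⟩
  obtain ⟨v, hv⟩ : ∃ v : ℝ, v = y^(1/4:ℝ) := ⟨_, rfl⟩
  have hz0 : 0 < z := by rw [hz]; positivity
  have hu0 : 0 < u := by rw [hu]; positivity
  have hv0 : 0 < v := by rw [hv]; positivity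
  have q3 : z * u = v := by
    rw [hz, hu, hv, ← Real.rpow_add hy0]; norm_num
  have q4 : y^4 * (z * z^2) = v := by
    have h4 : y^4 = y^(4:ℝ) := by
      rw [← Real.rpow_natCast]; norm_num
    rw [hz, hv, h4, ← Real.rpow_natCast (y^(-(5/4:ℝ))) 2, ← Real.rpow_mul hy0.le,
      ← Real.rpow_add hy0, ← Real.rpow_add hy0]
    norm_num
  rw [← hz] at ha4
  rw [← hu] at hW2
  rw [← hv]
  have hd0 : (0:ℝ) < 2^d := by positivity
  have hd128 : ((1:ℝ)/128)^d * 2^d ≤ (1/8)^d := by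
    rw [← mul_pow]
    apply pow_le_pow_left₀ (by norm_num)
    norm_num
  have hd128' : ((1:ℝ)/128)^d * (2^d)^4 = (1/8)^d := by
    rw [← pow_mul, mul_comm d 4, pow_mul, ← mul_pow]
    norm_num
  have hab : a * bt ≤ (A * z) * B := mul_le_mul ha4 b4 hb0 (by positivity)
  have hab0 : 0 ≤ a * bt := mul_nonneg ha0 hb0
  have p1 : a * bt * (C1 * (2^8 * 2^d) * W) ≤
      5040 * E^7 * A^3 * (C1 * C2 * 2^8) * (1/8)^d * v := by
    have q2 : C1 * (2^8 * 2^d) * W ≤ C1 * (2^8 * 2^d) * (C2 * A^2 * u) :=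
      mul_le_mul_of_nonneg_left hW2 (by positivity)
    calc a * bt * (C1 * (2^8 * 2^d) * W)
        ≤ ((A * z) * B) * (C1 * (2^8 * 2^d) * (C2 * A^2 * u)) :=
          mul_le_mul hab q2 (by positivity) (by positivity)
      _ = 5040 * E^7 * A^3 * (C1 * C2 * 2^8) * ((1/128)^d * 2^d) * (z * u) := by rw [hB]; ring
      _ ≤ 5040 * E^7 * A^3 * (C1 * C2 * 2^8) * (1/8)^d * v := by
          rw [q3]
          apply mul_le_mul_of_nonneg_right _ hv0.le
          exact mul_le_mul_of_nonneg_left hd128 (by positivity)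
  have p2 : (18 * (2^8 * 2^d * y)^2)^2 * (a * bt * a^2) ≤
      5040 * E^7 * A^3 * (18^2 * 2^32) * (1/8)^d * v := by
    have q1 : a * bt * a^2 ≤ (A * z) * B * (A * z)^2 :=
      mul_le_mul hab (pow_le_pow_left₀ ha0 ha4 2) (sq_nonneg _) (by positivity)
    calc (18 * (2^8 * 2^d * y)^2)^2 * (a * bt * a^2)
        ≤ (18 * (2^8 * 2^d * y)^2)^2 * ((A * z) * B * (A * z)^2) :=
          mul_le_mul_of_nonneg_left q1 (by positivity)
      _ = 5040 * E^7 * A^3 * (18^2 * 2^32) * ((1/128)^d * (2^d)^4) * (y^4 * (z * z^2)) := by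
          rw [hB]
          ring
      _ = 5040 * E^7 * A^3 * (18^2 * 2^32) * (1/8)^d * v := by rw [q4, hd128']
  calc _ ≤ 5040 * E^7 * A^3 * (C1 * C2 * 2^8) * (1/8)^d * v +
      5040 * E^7 * A^3 * (18^2 * 2^32) * (1/8)^d * v := add_le_add p1 p2
    _ = _ := by ring

theorem class_bound (κ A E : ℝ) (hκ : 0 < κ) (hA : 1 ≤ A) (hE : 1 ≤ E) : ∃ C : ℝ, 0 < C ∧
    ∀ (q : ℝ) (n K0 N : ℕ), Sc κ A E q n K0 N → ∀ (I i : ℕ), 7 ≤ i → i < I →
    ∀ c : Edg, |c.1| ≤ 2 * 2^I → |c.2.1| ≤ 2 * 2^I →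
    ∀ G : Finset Edg, G ⊆ boxE (8 * 2^I) → (∀ a ∈ G, 2^i ≤ dst c a ∧ dst c a < 2^(i+1)) →
    ∑ a ∈ G, VV q (boxE (8 * 2^I)) c a ≤
      C * (1/8)^((i - 7) - K0) * ((2:ℝ)^(min (i - 7) K0)) ^ (1/4 : ℝ) := by
  obtain ⟨C1, hC1, hnear⟩ := center_near κ hκ
  obtain ⟨C2, hC2, hW⟩ := W424.NC.W_bounds0 (ε := 0) le_rfl (by norm_num)
  refine ⟨5040 * E^7 * A^3 * (C1 * C2 * 2^8 + 18^2 * 2^32), by positivity, ?_⟩
  intro q n K0 N hs I i hi hiI c hc1 hc2 G hG hGi
  have h0 : 0 ≤ q := by linarith [hs.win.lo]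
  have h1 : q ≤ 1 := by linarith [hs.win.hi]
  have hok : Ok (fun _ : Edg => q) := fun _ => ⟨h0, h1⟩
  obtain ⟨R1, R2, b1, b2, b3, b4⟩ := beta_bound hE h0 h1 hs.hN hs.hNE hs.he hi
  obtain ⟨K, hK⟩ : ∃ K, K = min (i - 7) K0 := ⟨_, rfl⟩
  obtain ⟨d, hd⟩ : ∃ d, d = (i - 7) - K0 := ⟨_, rfl⟩
  rw [← hK] at b1 ⊢
  rw [← hd] at b4 ⊢
  have hiK : i = K + 7 + d := by omega
  have hKK0 : K ≤ K0 := by omega
  -- integer scales
  obtain ⟨p, hp⟩ : ∃ p : ℤ, p = 2^(i-7) := ⟨_, rfl⟩
  have hp1 : 1 ≤ p := by rw [hp]; exact one_le_pow₀ (by norm_num)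
  have hpi : (2:ℤ)^i = 128 * p := by
    rw [hp, show (128:ℤ) = 2^7 by norm_num, ← pow_add]; congr 1; omega
  have hpi1 : (2:ℤ)^(i+1) = 256 * p := by rw [pow_succ, hpi]; ring
  have hpi2 : (2:ℤ)^(i-2) = 32 * p := by
    rw [hp, show (32:ℤ) = 2^5 by norm_num, ← pow_add]; congr 1; omega
  have hpK : (2:ℤ)^K ≤ p := by
    rw [hp]; exact pow_le_pow_right₀ (by norm_num) (by omega)
  have hpI : 256 * p ≤ 2^I := by
    rw [← hpi1]; exact pow_le_pow_right₀ (by norm_num) (by omega)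
  have hK1 : (1:ℤ) ≤ 2^K := one_le_pow₀ (by norm_num)
  set S := boxE (8 * 2^I) with hSdef
  have hSbox : ∀ (a : Edg) (m : ℤ), 0 ≤ m → |a.1| + m ≤ 8 * 2^I → |a.2.1| + m ≤ 8 * 2^I →
      RE (a.1 - m) (a.1 + m) (a.2.1 - m) (a.2.1 + m) ⊆ S := by
    intro a m hm g1 g2
    rw [hSdef]
    unfold boxE
    have a1 := abs_le.1 (show |a.1| ≤ 8 * 2^I - m by linarith)
    have a2 := abs_le.1 (show |a.2.1| ≤ 8 * 2^I - m by linarith)
    push_cast
    apply RE_subset <;> linarith
  have hdabs : ∀ a b : Edg, ∀ m : ℤ, dst a b ≤ m → |b.1| ≤ |a.1| + m ∧ |b.2.1| ≤ |a.2.1| + m := by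
    intro a b m hm
    unfold dst at hm
    have a1 := (le_max_left _ _).trans hm
    have a2 := (le_max_right _ _).trans hm
    constructor
    · have := abs_sub_abs_le_abs_sub b.1 a.1
      rw [abs_sub_comm] at this
      linarith
    · have := abs_sub_abs_le_abs_sub b.2.1 a.2.1
      rw [abs_sub_comm] at this
      linarith
  have hGa : ∀ a ∈ G, |a.1| ≤ 3 * 2^I ∧ |a.2.1| ≤ 3 * 2^I := by
    intro a ha
    obtain ⟨_, g2⟩ := hGi a ha
    rw [hpi1] at g2
    obtain ⟨g3, g4⟩ := hdabs c a _ g2.le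
    constructor <;> linarith
  have hcS : blk (bp c) (2^(i-2)) ⊆ S := by
    have := hSbox c (2^(i-2)) (by positivity) (by rw [hpi2]; linarith) (by rw [hpi2]; linarith)
    unfold blk bp
    push_cast
    exact this
  -- near part
  have near := hnear q n hs.win c K (2^(8+d)) R1 R2 (2^(i-2)) Nat.one_le_two_pow
    (le_trans (by
      have : 2^K ≤ 2^K0 := Nat.pow_le_pow_right (by norm_num) hKK0
      omega) hs.hn) b1 b2 b3 S hcS (c.1, c.2.1) G
    (by
      intro a ha
      obtain ⟨_, g2⟩ := hGi a ha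
      have e1 : (((2^(8+d) : ℕ)) : ℤ) * 2^K = 2^(i+1) := by
        push_cast
        rw [← pow_add]; congr 1; omega
      rw [e1]
      rw [FPX.dst_comm] at g2
      unfold dst at g2
      exact ⟨(le_max_left _ _).trans g2.le, (le_max_right _ _).trans g2.le⟩)
    (by
      intro a ha
      obtain ⟨g1, g2⟩ := hGa a ha
      exact hSbox a (24 * 2^K) (by positivity) (by linarith) (by linarith))
    (by
      intro a ha
      obtain ⟨g1, _⟩ := hGi a ha
      rw [FPX.dst_comm] at g1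
      push_cast
      rw [hpi2]
      rw [hpi] at g1
      linarith)
  -- separated part
  obtain ⟨X, hX⟩ : ∃ X : ℝ, X = a4 q (2^K) * bet q R1 R2 * (a4 q (2^K))^2 := ⟨_, rfl⟩
  have ha0 : 0 ≤ a4 q (2^K) := FPX.a4_nonneg h0 h1 _
  have hb0 : 0 ≤ bet q R1 R2 := bet_nonneg h0 h1 _ _
  have hX0 : 0 ≤ X := by rw [hX]; positivity
  have hVV : ∀ a ∈ G, VV q S c a ≤
      ∑ b ∈ S.erase a, ind (dst a b ≤ 4 * 2^K) * PQ q S (SD (fE c) a b) +
        18 * ((2:ℝ)^(i+1))^2 * X := by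
    intro a ha
    obtain ⟨ga1, ga2⟩ := hGi a ha
    obtain ⟨gb1, gb2⟩ := hGa a ha
    have haS : a ∈ S := hG ha
    have e1 : VV q S c a = ∑ b ∈ S.erase a,
        ind (dst a b ≤ dst c a ∧ dst a b ≤ dst c b) * tt q S c a b := by
      unfold VV
      rw [← Finset.add_sum_erase S _ haS]
      have : tt q S c a a = 0 := by
        unfold tt
        rw [if_neg]
        simp
      rw [this, mul_zero, zero_add]
    rw [e1]
    have e2 : ∀ b ∈ S.erase a, ind (dst a b ≤ dst c a ∧ dst a b ≤ dst c b) * tt q S c a b ≤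
        ind (dst a b ≤ 4 * 2^K) * PQ q S (SD (fE c) a b) +
          (if dst a b ≤ ((2^(i+1) : ℕ) : ℤ) then X else 0) := by
      intro b hb
      have hP0 : 0 ≤ PQ q S (SD (fE c) a b) := Pr_nonneg hok _ _
      have hif : 0 ≤ (if dst a b ≤ ((2^(i+1) : ℕ) : ℤ) then X else 0) := by
        split_ifs
        · exact hX0
        · exact le_rfl
      by_cases n1 : dst a b ≤ 4 * 2^K
      · rw [ind_of n1, one_mul]
        have : ind (dst a b ≤ dst c a ∧ dst a b ≤ dst c b) * tt q S c a b ≤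
            1 * PQ q S (SD (fE c) a b) :=
          mul_le_mul (ind_le_one _) (tt_le h0 h1 S c a b) (tt_nonneg h0 h1 _ _ _ _) zero_le_one
        linarith
      · rw [ind_not_of n1, zero_mul, zero_add]
        by_cases n2 : dst a b ≤ dst c a ∧ dst a b ≤ dst c b
        · rw [ind_of n2, one_mul]
          have hle : dst a b ≤ ((2^(i+1) : ℕ) : ℤ) := by
            push_cast
            linarith [n2.1]
          rw [if_pos hle]
          refine (tt_le h0 h1 S c a b).trans ?_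
          rw [hX]
          push Not at n1
          have hle' : dst a b ≤ 256 * p := by
            push_cast at hle
            linarith
          obtain ⟨g3, g4⟩ := hdabs a b _ hle'
          have hdc : 2^i ≤ 2 * dst c b := by
            have := FPX.dst_tri c b a
            rw [FPX.dst_comm b a] at this
            linarith [n2.2]
          rw [hpi] at hdc ga1
          refine center_sep h0 h1 Nat.one_le_two_pow b1 b2 b3 hcS ?_ ?_ ?_ ?_ ?_
          · have := hSbox a (2^K) (by positivity) (by linarith) (by linarith)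
            unfold blk bp
            push_cast
            exact this
          · have := hSbox b (2^K) (by positivity) (by linarith) (by linarith)
            unfold blk bp
            push_cast
            exact this
          · rw [FPX.dst_comm a c]
            push_cast
            rw [hpi2]
            linarith
          · rw [FPX.dst_comm b c]
            push_cast
            rw [hpi2]
            linarith
          · push_cast
            linarith
        · rw [ind_not_of n2, zero_mul]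
          exact hif
    refine (Finset.sum_le_sum e2).trans ?_
    rw [Finset.sum_add_distrib]
    apply add_le_add le_rfl
    rw [← Finset.sum_filter, Finset.sum_const, nsmul_eq_mul]
    apply mul_le_mul_of_nonneg_right _ hX0
    have := card_dst a (2^(i+1)) Nat.one_le_two_pow (S.erase a)
    push_cast at this
    push_cast
    exact this
  have hGcard : (G.card : ℝ) ≤ 18 * ((2:ℝ)^(i+1))^2 := by
    have e1 : G.filter (fun g => dst c g ≤ ((2^(i+1) : ℕ) : ℤ)) = G := by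
      apply Finset.filter_true_of_mem
      intro g hg
      push_cast
      exact (hGi g hg).2.le
    have := card_dst c (2^(i+1)) Nat.one_le_two_pow G
    rw [e1] at this
    push_cast at this
    exact this
  have total : ∑ a ∈ G, VV q S c a ≤
      a4 q (2^K) * bet q R1 R2 * (C1 * ((2^(8+d) : ℕ) : ℝ) * W2s q K) +
        (18 * ((2:ℝ)^(i+1))^2)^2 * X := by
    refine (Finset.sum_le_sum hVV).trans ?_
    rw [Finset.sum_add_distrib]
    apply add_le_add near
    rw [Finset.sum_const, nsmul_eq_mul]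
    calc (G.card : ℝ) * (18 * ((2:ℝ)^(i+1))^2 * X)
        ≤ (18 * ((2:ℝ)^(i+1))^2) * (18 * ((2:ℝ)^(i+1))^2 * X) :=
          mul_le_mul_of_nonneg_right hGcard (by positivity)
      _ = _ := by ring
  have hW2 := (hW q A K h0 h1 hA (fun k hk => by
    rw [add_zero]
    exact hs.ha k (hk.trans hKK0))).2.1
  rw [mul_zero, add_zero] at hW2
  have hs1 : ((2:ℝ)^(i+1)) = 2^8 * 2^d * 2^K := by
    rw [← pow_add, ← pow_add]; congr 1; omega
  have hs2 : ((2^(8+d) : ℕ) : ℝ) = 2^8 * 2^d := by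
    push_cast; rw [pow_add]
  have hy0 : (0:ℝ) < 2^K := by positivity
  rw [hX, hs1, hs2] at total
  exact total.trans (class_num hy0 hA hE hC1 hC2 ha0 (hs.ha K hKK0) hb0 b4
    (W2s_nonneg h0 h1 K) hW2)

end Pool.Agent.TH987
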