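import Pool.Agent.TH987.Sums

/-!
The bound for the second derivative.
-/

namespace Pool.Agent.TH987

open H973N H974 H12S Finset
open H973N.NP

theorem ind_dy (x : ℤ) (I : ℕ) (hI : 7 ≤ I) : ind (x < 2^I) ≤ ind (x < 2^7) +
    ∑ i ∈ Finset.Ico 7 I, ind (2^i ≤ x ∧ x < 2^(i+1)) := by
  induction I, hI using Nat.le_induction with
  | base => simp
  | succ I hI ih =>
    rw [Finset.sum_Ico_succ_top hI]
    by_cases h : x < 2^I
    · have h1 := ind_le_one (x < 2^(I+1))
      rw [ind_of h] at ih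
      have h2 := ind_nonneg (2^I ≤ x ∧ x < 2^(I+1))
      linarith
    · have h3 : ind (x < 2^(I+1)) ≤ ind (2^I ≤ x ∧ x < 2^(I+1)) := by
        apply ind_mono
        intro h4
        exact ⟨not_lt.1 h, h4⟩
      have h4 := ind_nonneg (x < 2^7)
      have h5 : 0 ≤ ∑ i ∈ Finset.Ico 7 I, ind (2^i ≤ x ∧ x < 2^(i+1)) :=
        Finset.sum_nonneg (fun _ _ => ind_nonneg _)
      linarith

theorem geo_sum (K0 M : ℕ) : ∑ m ∈ Finset.range M,
    ((1:ℝ)/2)^(m - K0) * ((2:ℝ)^(min m K0)) ^ (1/4 : ℝ) ≤ 9 * ((2:ℝ)^K0) ^ (1/4 : ℝ) := by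
  obtain ⟨a, ha⟩ : ∃ a : ℝ, a = (2:ℝ)^(1/4 : ℝ) := ⟨_, rfl⟩
  have ha0 : 0 < a := by rw [ha]; positivity
  have ha1 : 8/7 ≤ a := by
    have h4 : a^4 = 2 := by
      rw [ha, ← Real.rpow_natCast, ← Real.rpow_mul (by norm_num)]; norm_num
    by_contra hcon
    push Not at hcon
    have : a^4 < (8/7)^4 := pow_lt_pow_left₀ hcon ha0.le (by norm_num)
    rw [h4] at this
    norm_num at this
  have hpow : ∀ m : ℕ, ((2:ℝ)^m) ^ (1/4 : ℝ) = a^m := by
    intro m
    rw [ha, ← Real.rpow_natCast, ← Real.rpow_natCast, ← Real.rpow_mul (by norm_num),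
      ← Real.rpow_mul (by norm_num), mul_comm]
  have key : ∀ M : ℕ, ∑ m ∈ Finset.range M, ((1:ℝ)/2)^(m - K0) * a^(min m K0) ≤
      7 * a^(min M K0) + (2 - 2 * (1/2)^(M - K0)) * a^K0 := by
    intro M
    induction M with
    | zero =>
      simp
    | succ M ih =>
      rw [Finset.sum_range_succ]
      rcases Nat.lt_or_ge M K0 with h | h
      · have e1 : min M K0 = M := by omega
        have e2 : min (M+1) K0 = M + 1 := by omega
        have e3 : M - K0 = 0 := by omega
        have e4 : M + 1 - K0 = 0 := by omega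
        rw [e1, e3] at ih ⊢
        rw [e2, e4]
        rw [pow_zero] at ih ⊢
        have : 0 < a^M := by positivity
        rw [pow_succ]
        nlinarith
      · have e1 : min M K0 = K0 := by omega
        have e2 : min (M+1) K0 = K0 := by omega
        have e4 : M + 1 - K0 = (M - K0) + 1 := by omega
        rw [e1] at ih ⊢
        rw [e2, e4, pow_succ]
        have h1 : 0 < a^K0 := by positivity
        have h2 : (0:ℝ) < (1/2)^(M - K0) := by positivity
        nlinarith
  simp only [hpow]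
  refine (key M).trans ?_
  have h1 : a^(min M K0) ≤ a^K0 := pow_le_pow_right₀ (by linarith) (min_le_right _ _)
  have h2 : (0:ℝ) < (1/2)^(M - K0) := by positivity
  have h3 : 0 < a^K0 := by positivity
  nlinarith

theorem VV_small {q : ℝ} (h0 : 0 ≤ q) (h1 : q ≤ 1) (S : Finset Edg) (c A : Edg)
    (h : dst c A < 2^7) : VV q S c A ≤ 18 * (2^7)^2 := by
  have hok : Ok (fun _ : Edg => q) := fun _ => ⟨h0, h1⟩
  have e1 : VV q S c A ≤ ∑ B ∈ S, if dst A B ≤ ((2^7 : ℕ) : ℤ) then (1:ℝ) else 0 := by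
    unfold VV
    apply Finset.sum_le_sum
    intro B _
    have hle : tt q S c A B ≤ 1 := (tt_le h0 h1 S c A B).trans (Pr_le_one hok _ _)
    by_cases hP : dst A B ≤ dst c A ∧ dst A B ≤ dst c B
    · rw [ind_of hP, one_mul, if_pos (by push_cast; linarith [hP.1])]
      exact hle
    · rw [ind_not_of hP, zero_mul]
      split_ifs <;> norm_num
  refine e1.trans ?_
  rw [← Finset.sum_filter, Finset.sum_const, nsmul_eq_mul, mul_one]
  have h := card_dst A (2^7) (by norm_num) S
  have e : (18:ℝ) * (((2^7:ℕ)):ℝ)^2 = 18 * (2^7)^2 := by norm_num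
  rw [e] at h
  exact h

theorem near_total (κ A E : ℝ) (hκ : 0 < κ) (hA : 1 ≤ A) (hE : 1 ≤ E) : ∃ C : ℝ, 0 < C ∧
    ∀ (q : ℝ) (n K0 N : ℕ), Sc κ A E q n K0 N → ∀ I : ℕ, 7 ≤ I → K0 ≤ I →
    ∑ e ∈ boxE (2^K0), ∑ f ∈ boxE (8 * 2^I), ind (dst e f < 2^I) *
      (VV q (boxE (8 * 2^I)) e f + 2 * VV q (boxE (8 * 2^I)) f e) ≤
      C * 4^K0 * ((2:ℝ)^K0) ^ (1/4 : ℝ) := by
  obtain ⟨Cw, hCw, hcls⟩ := class_bound κ A E hκ hA hE
  refine ⟨18 * (18 * (2^7)^2 * (3 * (18 * (2^7)^2))) + 54 * 4^9 * Cw * 9, by positivity, ?_⟩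
  intro q n K0 N hs I hI7 hKI
  have h0 : 0 ≤ q := by linarith [hs.win.lo]
  have h1 : q ≤ 1 := by linarith [hs.win.hi]
  set S := boxE (8 * 2^I) with hS
  set G := boxE (2^K0) with hG
  have hpI1 : (1:ℤ) ≤ 2^I := one_le_pow₀ (by norm_num)
  have hpKI : (2:ℤ)^K0 ≤ 2^I := pow_le_pow_right₀ (by norm_num) hKI
  have hGS : G ⊆ S := by
    rw [hG, hS]
    apply boxE_mono
    have : 2^K0 ≤ 2^I := Nat.pow_le_pow_right (by norm_num) hKI
    omega
  have hGabs : ∀ e ∈ G, |e.1| ≤ 2^K0 ∧ |e.2.1| ≤ 2^K0 := by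
    intro e he
    have := boxE_abs he
    push_cast at this
    exact this
  have hGcard : (G.card : ℝ) ≤ 18 * 4^K0 := by
    have := card_box (2^K0) Nat.one_le_two_pow G (fun g hg => by
      have := boxE_abs hg
      exact this)
    refine this.trans (le_of_eq ?_)
    push_cast
    rw [← pow_mul, mul_comm K0 2, pow_mul]
    norm_num
  have hV0 : ∀ e f, 0 ≤ VV q S e f := fun e f => VV_nonneg h0 h1 S e f
  have hterm0 : ∀ e f, 0 ≤ VV q S e f + 2 * VV q S f e := by
    intro e f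
    have := hV0 e f
    have := hV0 f e
    positivity
  obtain ⟨w, hw⟩ : ∃ w : ℕ → ℝ, w = fun i => Cw * (1/8)^((i - 7) - K0) *
      ((2:ℝ)^(min (i - 7) K0)) ^ (1/4 : ℝ) := ⟨_, rfl⟩
  have hw0 : ∀ i, 0 ≤ w i := by
    intro i; rw [hw]; positivity
  -- split into scales
  have split : ∑ e ∈ G, ∑ f ∈ S, ind (dst e f < 2^I) * (VV q S e f + 2 * VV q S f e) ≤
      ∑ e ∈ G, ∑ f ∈ S, ind (dst e f < 2^7) * (VV q S e f + 2 * VV q S f e) +
      ∑ i ∈ Finset.Ico 7 I, (∑ e ∈ G, ∑ f ∈ S, ind (2^i ≤ dst e f ∧ dst e f < 2^(i+1)) *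
        VV q S e f + 2 * ∑ e ∈ G, ∑ f ∈ S, ind (2^i ≤ dst e f ∧ dst e f < 2^(i+1)) *
        VV q S f e) := by
    calc ∑ e ∈ G, ∑ f ∈ S, ind (dst e f < 2^I) * (VV q S e f + 2 * VV q S f e)
        ≤ ∑ e ∈ G, ∑ f ∈ S, (ind (dst e f < 2^7) +
          ∑ i ∈ Finset.Ico 7 I, ind (2^i ≤ dst e f ∧ dst e f < 2^(i+1))) *
          (VV q S e f + 2 * VV q S f e) :=
          Finset.sum_le_sum fun e _ => Finset.sum_le_sum fun f _ =>
            mul_le_mul_of_nonneg_right (ind_dy _ I hI7) (hterm0 e f)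
      _ = _ := by
          have e0 : ∀ e ∈ G, ∑ f ∈ S, (ind (dst e f < 2^7) +
              ∑ i ∈ Finset.Ico 7 I, ind (2^i ≤ dst e f ∧ dst e f < 2^(i+1))) *
              (VV q S e f + 2 * VV q S f e) =
              ∑ f ∈ S, ind (dst e f < 2^7) * (VV q S e f + 2 * VV q S f e) +
              ∑ i ∈ Finset.Ico 7 I, (∑ f ∈ S, ind (2^i ≤ dst e f ∧ dst e f < 2^(i+1)) *
                VV q S e f + 2 * ∑ f ∈ S, ind (2^i ≤ dst e f ∧ dst e f < 2^(i+1)) *
                VV q S f e) := by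
            intro e _
            have e1 : ∀ f ∈ S, (ind (dst e f < 2^7) +
                ∑ i ∈ Finset.Ico 7 I, ind (2^i ≤ dst e f ∧ dst e f < 2^(i+1))) *
                (VV q S e f + 2 * VV q S f e) =
                ind (dst e f < 2^7) * (VV q S e f + 2 * VV q S f e) +
                ∑ i ∈ Finset.Ico 7 I, (ind (2^i ≤ dst e f ∧ dst e f < 2^(i+1)) * VV q S e f +
                  2 * (ind (2^i ≤ dst e f ∧ dst e f < 2^(i+1)) * VV q S f e)) := by
              intro f _
              rw [add_mul, Finset.sum_mul]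
              congr 1
              apply Finset.sum_congr rfl
              intro i _
              ring
            rw [Finset.sum_congr rfl e1, Finset.sum_add_distrib]
            congr 1
            rw [Finset.sum_comm]
            apply Finset.sum_congr rfl
            intro i _
            rw [Finset.sum_add_distrib, Finset.mul_sum]
          rw [Finset.sum_congr rfl e0, Finset.sum_add_distrib]
          congr 1
          rw [Finset.sum_comm]
          apply Finset.sum_congr rfl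
          intro i _
          rw [Finset.sum_add_distrib, Finset.mul_sum]
  -- small distances
  have small : ∑ e ∈ G, ∑ f ∈ S, ind (dst e f < 2^7) * (VV q S e f + 2 * VV q S f e) ≤
      18 * 4^K0 * (18 * (2^7)^2 * (3 * (18 * (2^7)^2))) := by
    have e1 : ∀ e ∈ G, ∑ f ∈ S, ind (dst e f < 2^7) * (VV q S e f + 2 * VV q S f e) ≤
        18 * (2^7)^2 * (3 * (18 * (2^7)^2)) := by
      intro e _
      calc ∑ f ∈ S, ind (dst e f < 2^7) * (VV q S e f + 2 * VV q S f e)
          ≤ ∑ f ∈ S, if dst e f ≤ ((2^7 : ℕ) : ℤ) then (3 * (18 * (2^7)^2) : ℝ) else 0 := by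
            apply Finset.sum_le_sum
            intro f _
            by_cases h : dst e f < 2^7
            · rw [ind_of h, one_mul, if_pos (by push_cast; linarith)]
              have a1 := VV_small h0 h1 S e f h
              have a2 := VV_small h0 h1 S f e (by rw [FPX.dst_comm]; exact h)
              linarith
            · rw [ind_not_of h, zero_mul]
              split_ifs <;> norm_num
        _ ≤ 18 * (2^7)^2 * (3 * (18 * (2^7)^2)) := by
            rw [← Finset.sum_filter, Finset.sum_const, nsmul_eq_mul]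
            apply mul_le_mul_of_nonneg_right _ (by norm_num)
            have h := card_dst e (2^7) (by norm_num) S
            have e' : (18:ℝ) * (((2^7:ℕ)):ℝ)^2 = 18 * (2^7)^2 := by norm_num
            rw [e'] at h
            exact h
    refine (Finset.sum_le_sum e1).trans ?_
    rw [Finset.sum_const, nsmul_eq_mul]
    exact mul_le_mul_of_nonneg_right hGcard (by norm_num)
  -- one scale
  have scale : ∀ i ∈ Finset.Ico 7 I, (∑ e ∈ G, ∑ f ∈ S,
      ind (2^i ≤ dst e f ∧ dst e f < 2^(i+1)) *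
        VV q S e f + 2 * ∑ e ∈ G, ∑ f ∈ S, ind (2^i ≤ dst e f ∧ dst e f < 2^(i+1)) *
        VV q S f e) ≤ 54 * 4^9 * Cw * 4^K0 * ((1/2)^((i - 7) - K0) *
          ((2:ℝ)^(min (i - 7) K0)) ^ (1/4 : ℝ)) := by
    intro i hi
    rw [Finset.mem_Ico] at hi
    obtain ⟨hi7, hiI⟩ := hi
    have hpi : (2:ℤ)^(i+1) ≤ 2^I := pow_le_pow_right₀ (by norm_num) (by omega)
    have W1 : ∑ e ∈ G, ∑ f ∈ S, ind (2^i ≤ dst e f ∧ dst e f < 2^(i+1)) * VV q S e f ≤
        18 * 4^K0 * w i := by
      have e1 : ∀ e ∈ G, ∑ f ∈ S, ind (2^i ≤ dst e f ∧ dst e f < 2^(i+1)) * VV q S e f ≤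
          w i := by
        intro e he
        obtain ⟨g1, g2⟩ := hGabs e he
        have e2 : ∑ f ∈ S, ind (2^i ≤ dst e f ∧ dst e f < 2^(i+1)) * VV q S e f =
            ∑ f ∈ S.filter (fun f => 2^i ≤ dst e f ∧ dst e f < 2^(i+1)), VV q S e f := by
          rw [Finset.sum_filter]
          apply Finset.sum_congr rfl
          intro f _
          by_cases h : 2^i ≤ dst e f ∧ dst e f < 2^(i+1)
          · rw [ind_of h, one_mul, if_pos h]
          · rw [ind_not_of h, zero_mul, if_neg h]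
        rw [e2, hw]
        refine hcls q n K0 N hs I i hi7 hiI e (by linarith) (by linarith) _
          (Finset.filter_subset _ _) ?_
        intro a ha
        exact (Finset.mem_filter.1 ha).2
      refine (Finset.sum_le_sum e1).trans ?_
      rw [Finset.sum_const, nsmul_eq_mul]
      exact mul_le_mul_of_nonneg_right hGcard (hw0 i)
    obtain ⟨M, hM⟩ : ∃ M : ℕ, M = 2^K0 + 2^(i+1) := ⟨_, rfl⟩
    have W2 : ∑ e ∈ G, ∑ f ∈ S, ind (2^i ≤ dst e f ∧ dst e f < 2^(i+1)) * VV q S f e ≤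
        18 * (M:ℝ)^2 * w i := by
      rw [Finset.sum_comm]
      have e1 : ∀ f ∈ S, ∑ e ∈ G, ind (2^i ≤ dst e f ∧ dst e f < 2^(i+1)) * VV q S f e ≤
          if (|f.1| ≤ M ∧ |f.2.1| ≤ M) then w i else 0 := by
        intro f hf
        have e2 : ∑ e ∈ G, ind (2^i ≤ dst e f ∧ dst e f < 2^(i+1)) * VV q S f e =
            ∑ e ∈ G.filter (fun e => 2^i ≤ dst f e ∧ dst f e < 2^(i+1)), VV q S f e := by
          rw [Finset.sum_filter]
          apply Finset.sum_congr rfl
          intro e _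
          rw [FPX.dst_comm e f]
          by_cases h : 2^i ≤ dst f e ∧ dst f e < 2^(i+1)
          · rw [ind_of h, one_mul, if_pos h]
          · rw [ind_not_of h, zero_mul, if_neg h]
        rw [e2]
        split_ifs with hfM
        · rw [hw]
          have hM' : (M:ℤ) ≤ 2 * 2^I := by
            rw [hM]; push_cast; linarith
          refine hcls q n K0 N hs I i hi7 hiI f (hfM.1.trans hM') (hfM.2.trans hM') _
            ((Finset.filter_subset _ _).trans hGS) ?_
          intro a ha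
          exact (Finset.mem_filter.1 ha).2
        · apply le_of_eq
          apply Finset.sum_eq_zero
          intro e he
          exfalso
          apply hfM
          rw [Finset.mem_filter] at he
          obtain ⟨g1, g2⟩ := hGabs e he.1
          have g3 := he.2.2
          rw [FPX.dst_comm] at g3
          unfold dst at g3
          rw [max_lt_iff] at g3
          rw [hM]
          push_cast
          constructor
          · have := abs_sub_abs_le_abs_sub f.1 e.1
            rw [abs_sub_comm] at this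
            linarith [g3.1]
          · have := abs_sub_abs_le_abs_sub f.2.1 e.2.1
            rw [abs_sub_comm] at this
            linarith [g3.2]
      refine (Finset.sum_le_sum e1).trans ?_
      rw [← Finset.sum_filter, Finset.sum_const, nsmul_eq_mul]
      apply mul_le_mul_of_nonneg_right _ (hw0 i)
      apply card_box M (by rw [hM]; exact le_add_right Nat.one_le_two_pow)
      intro g hg
      exact (Finset.mem_filter.1 hg).2
    obtain ⟨d, hd⟩ : ∃ d, d = (i - 7) - K0 := ⟨_, rfl⟩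
    have hMle : (M:ℝ)^2 ≤ 4^K0 * (4^9 * 4^d) := by
      have h3 : M ≤ 2^K0 * (2^9 * 2^d) := by
        have h4 : 2^(i+1) ≤ 2^K0 * (2^8 * 2^d) := by
          rw [← pow_add, ← pow_add]
          apply Nat.pow_le_pow_right (by norm_num)
          omega
        have h5 : 1 ≤ 2^d := Nat.one_le_two_pow
        rw [hM]
        have h6 : 2^K0 * (2^9 * 2^d) = 2^K0 * (2^8 * 2^d) + 2^K0 * (2^8 * 2^d) := by ring
        rw [h6]
        have h7 : 2^K0 ≤ 2^K0 * (2^8 * 2^d) := Nat.le_mul_of_pos_right _ (by positivity)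
        omega
      have h4 : (M:ℝ) ≤ 2^K0 * (2^9 * 2^d) := by exact_mod_cast h3
      calc (M:ℝ)^2 ≤ (2^K0 * (2^9 * 2^d))^2 := pow_le_pow_left₀ (Nat.cast_nonneg _) h4 2
        _ = 4^K0 * (4^9 * 4^d) := by
            have e4 : ∀ m : ℕ, ((4:ℝ))^m = (2^m)^2 := by
              intro m
              rw [← pow_mul, mul_comm m 2, pow_mul]; norm_num
            rw [e4 K0, e4 d]
            ring
    rw [← hd]
    have hwi : w i = Cw * (1/8)^d * ((2:ℝ)^(min (i - 7) K0)) ^ (1/4 : ℝ) := by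
      rw [hw, hd]
    obtain ⟨Y, hY⟩ : ∃ Y : ℝ, Y = ((2:ℝ)^(min (i - 7) K0)) ^ (1/4 : ℝ) := ⟨_, rfl⟩
    rw [← hY] at hwi ⊢
    have hY0 : 0 ≤ Y := by rw [hY]; positivity
    have h4d : (1:ℝ) ≤ 4^9 * 4^d := by
      have : (1:ℝ) ≤ 4^d := one_le_pow₀ (by norm_num)
      nlinarith
    have hK4 : (0:ℝ) < 4^K0 := by positivity
    calc _ ≤ 18 * 4^K0 * w i + 2 * (18 * (M:ℝ)^2 * w i) := by linarith [W1, W2]
      _ ≤ 18 * 4^K0 * (4^9 * 4^d) * w i + 2 * (18 * (4^K0 * (4^9 * 4^d)) * w i) := by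
          have hwi0 := hw0 i
          have a1 : 18 * 4^K0 * w i ≤ 18 * 4^K0 * (4^9 * 4^d) * w i := by
            apply mul_le_mul_of_nonneg_right _ hwi0
            nlinarith
          have a2 : 18 * (M:ℝ)^2 * w i ≤ 18 * (4^K0 * (4^9 * 4^d)) * w i := by
            apply mul_le_mul_of_nonneg_right _ hwi0
            linarith
          linarith
      _ = 54 * 4^9 * Cw * 4^K0 * ((4^d * (1/8)^d) * Y) := by rw [hwi]; ring
      _ = 54 * 4^9 * Cw * 4^K0 * ((1/2)^d * Y) := by
          rw [← mul_pow]; norm_num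
  -- conclusion
  have hsum : ∑ i ∈ Finset.Ico 7 I, 54 * 4^9 * Cw * 4^K0 * (((1:ℝ)/2)^((i - 7) - K0) *
      ((2:ℝ)^(min (i - 7) K0)) ^ (1/4 : ℝ)) ≤
      54 * 4^9 * Cw * 4^K0 * (9 * ((2:ℝ)^K0) ^ (1/4 : ℝ)) := by
    rw [← Finset.mul_sum]
    apply mul_le_mul_of_nonneg_left _ (by positivity)
    rw [Finset.sum_Ico_eq_sum_range]
    refine le_trans (le_of_eq ?_) (geo_sum K0 (I - 7))
    apply Finset.sum_congr rfl
    intro m _
    have : 7 + m - 7 = m := by omega
    rw [this]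
  have hone : (1:ℝ) ≤ ((2:ℝ)^K0) ^ (1/4 : ℝ) := by
    apply Real.one_le_rpow _ (by norm_num)
    exact one_le_pow₀ (by norm_num)
  have hK4 : (0:ℝ) < 4^K0 := by positivity
  calc _ ≤ 18 * 4^K0 * (18 * (2^7)^2 * (3 * (18 * (2^7)^2))) +
      54 * 4^9 * Cw * 4^K0 * (9 * ((2:ℝ)^K0) ^ (1/4 : ℝ)) :=
        split.trans (add_le_add small ((Finset.sum_le_sum scale).trans hsum))
    _ ≤ 18 * 4^K0 * (18 * (2^7)^2 * (3 * (18 * (2^7)^2))) * ((2:ℝ)^K0) ^ (1/4 : ℝ) +
      54 * 4^9 * Cw * 4^K0 * (9 * ((2:ℝ)^K0) ^ (1/4 : ℝ)) := by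
        apply add_le_add _ le_rfl
        exact le_mul_of_one_le_right (by positivity) hone
    _ = _ := by ring

end Pool.Agent.TH987
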